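import Pool.Agent.H5SF.LSum

/-!
# Upper bound for the damped number of directed 4-cycles by the marks and defects
-/

namespace Pool.Agent.H5.SF

open Finset

section Count

variable {α β : Type*} [Fintype α] [Fintype β]
variable (a : α → ℝ) (b : β → ℝ) (r : α → β → ℝ)

/-- Normalising factor. -/
noncomputable def Dm (x x' : α) : ℝ := max 1 (max (pp a b r x x') (pp a b r x' x))

/-- Weight of a directed 4-cycle. -/
noncomputable def Wq (x x' : α) (y y' : β) : ℝ :=
  (vY a r y * (r x y * (1 - r x' y))) * (vY a r y' * (r x' y' * (1 - r x y'))) / Dm a b r x x'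

/-- Sum over all quadruples. -/
noncomputable def Q4 (F : α → α → β → β → ℝ) : ℝ :=
  ws a fun x => ws a fun x' => ws b fun y => ws b fun y' => F x x' y y'

variable {a b r}

theorem Q4_mono (ha : ∀ x, 0 ≤ a x) (hb : ∀ y, 0 ≤ b y) {F G : α → α → β → β → ℝ}
    (h : ∀ x x' y y', F x x' y y' ≤ G x x' y y') : Q4 a b F ≤ Q4 a b G :=
  ws_mono ha fun x => ws_mono ha fun x' => ws_mono hb fun y => ws_mono hb fun y' => h x x' y y'

theorem Q4_add (F G : α → α → β → β → ℝ) :
    Q4 a b (fun x x' y y' => F x x' y y' + G x x' y y') = Q4 a b F + Q4 a b G := by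
  unfold Q4
  simp_rw [ws_add]

theorem Q4_congr {F G : α → α → β → β → ℝ}
    (h : ∀ x x' y y', F x x' y y' = G x x' y y') : Q4 a b F = Q4 a b G := by
  congr 1; funext x x' y y'; exact h x x' y y'

theorem Q4_swap (F : α → α → β → β → ℝ) :
    Q4 a b (fun x x' y y' => F x' x y' y) = Q4 a b F := by
  unfold Q4
  rw [ws_comm a a (fun x x' => ws b fun y => ws b fun y' => F x' x y' y)]
  refine ws_congr fun x => ws_congr fun x' => ?_
  exact ws_comm b b (fun y y' => F x x' y' y)

theorem Dm_one (x x' : α) : 1 ≤ Dm a b r x x' := le_max_left _ _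

theorem Dm_symm (x x' : α) : Dm a b r x x' = Dm a b r x' x := by
  unfold Dm; rw [max_comm (pp a b r x x')]

theorem Wq_swap (x x' : α) (y y' : β) : Wq a b r x' x y' y = Wq a b r x x' y y' := by
  unfold Wq
  rw [Dm_symm x' x]
  ring

theorem T4_eq : T4 a b r = Q4 a b (Wq a b r) := by
  unfold T4 Q4 Wq
  refine ws_congr fun x => ws_congr fun x' => ?_
  have h : ∀ y y', (vY a r y * (r x y * (1 - r x' y))) * (vY a r y' * (r x' y' * (1 - r x y')))
      / Dm a b r x x' = (vY a r y * (r x y * (1 - r x' y))) *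
      ((vY a r y' * (r x' y' * (1 - r x y'))) * (1 / Dm a b r x x')) := by
    intro y y'; ring
  simp_rw [h]
  rw [ws_ws_mul b b (fun y => vY a r y * (r x y * (1 - r x' y)))
    (fun y' => (vY a r y' * (r x' y' * (1 - r x y'))) * (1 / Dm a b r x x')), ws_mulR]
  have h1 : ws b (fun y => vY a r y * (r x y * (1 - r x' y))) = pp a b r x x' := rfl
  have h2 : ws b (fun y => vY a r y * (r x' y * (1 - r x y))) = pp a b r x' x := rfl
  rw [h1, h2]
  unfold Dm
  ring

variable (hb : ∀ y, 0 ≤ b y) (ha : ∀ x, 0 ≤ a x) (hr : ∀ x y, r x y = 0 ∨ r x y = 1)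

theorem sr01 (hr : ∀ x y, r x y = 0 ∨ r x y = 1) (x x' : α) (y : β) :
    r x y * (1 - r x' y) = 0 ∨ r x y * (1 - r x' y) = 1 := by
  rcases hr x y with h | h <;> rcases hr x' y with h' | h' <;> rw [h, h'] <;> norm_num

include hb hr in
theorem Wq_nonneg (x x' : α) (y y' : β) : 0 ≤ Wq a b r x x' y y' := by
  unfold Wq
  have h1 := (vY_pos (a := a) (r := r) y).le
  have h2 := (vY_pos (a := a) (r := r) y').le
  have h3 := Dm_one (a := a) (b := b) (r := r) x x'
  have h4 : 0 ≤ r x y * (1 - r x' y) := by rcases sr01 hr x x' y with h | h <;> rw [h]; norm_num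
  have h5 : 0 ≤ r x' y' * (1 - r x y') := by rcases sr01 hr x' x y' with h | h <;> rw [h]; norm_num
  positivity

theorem ws_v (y : β) : ws a (fun x' => vY a r y * (1 - r x' y)) ≤ 1 := by
  rw [ws_mulL]
  have : ws a (fun x' => 1 - r x' y) = dY a r y := rfl
  rw [this, vY_mul]
  exact min_le_left _ _

include hb hr in
/-- Sum over the last position. -/
theorem ws_last (x x' : α) (y : β) (c : ℝ) (hc : 0 ≤ c) :
    ws b (fun y' => Wq a b r x x' y y' * c) ≤ vY a r y * (r x y * (1 - r x' y)) * c := by
  have e : ∀ y', Wq a b r x x' y y' * c = (vY a r y * (r x y * (1 - r x' y)) * c / Dm a b r x x')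
      * (vY a r y' * (r x' y' * (1 - r x y'))) := by
    intro y'; unfold Wq; ring
  simp_rw [e]
  rw [ws_mulL]
  have h1 : ws b (fun y' => vY a r y' * (r x' y' * (1 - r x y'))) = pp a b r x' x := rfl
  rw [h1]
  have h3 := Dm_one (a := a) (b := b) (r := r) x x'
  have h2 : pp a b r x' x ≤ Dm a b r x x' := (le_max_right _ _).trans (le_max_right _ _)
  have h4 : 0 ≤ r x y * (1 - r x' y) := by rcases sr01 hr x x' y with h | h <;> rw [h]; norm_num
  have h5 : 0 ≤ vY a r y * (r x y * (1 - r x' y)) * c :=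
    mul_nonneg (mul_nonneg (vY_pos _).le h4) hc
  rw [div_mul_eq_mul_div, div_le_iff₀ (by linarith)]
  exact mul_le_mul_of_nonneg_left h2 h5

include hb ha hr in
/-- Marks with two vertices on the first side. -/
theorem part1 (X1 : α → α → β → ℝ) (hX : ∀ x x' y, 0 ≤ X1 x x' y) :
    Q4 a b (fun x x' y y' => Wq a b r x x' y y' * X1 x x' y)
      ≤ ws a fun x => ws a fun x' => ws b fun y => r x y * (1 - r x' y) * X1 x x' y := by
  refine ws_mono ha fun x => ws_mono ha fun x' => ws_mono hb fun y => ?_
  refine (ws_last hb hr x x' y _ (hX x x' y)).trans ?_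
  refine mul_le_mul_of_nonneg_right ?_ (hX x x' y)
  have h4 : 0 ≤ r x y * (1 - r x' y) := by rcases sr01 hr x x' y with h | h <;> rw [h]; norm_num
  have := vY_le (a := a) (r := r) y
  nlinarith

/-- Move the summation over `x'` inside. -/
theorem move2 (F : α → α → β → β → ℝ) :
    Q4 a b F = ws a fun x => ws b fun y => ws b fun y' => ws a fun x' => F x x' y y' := by
  unfold Q4
  refine ws_congr fun x => ?_
  rw [ws_comm a b (fun x' y => ws b fun y' => F x x' y y')]
  refine ws_congr fun y => ?_
  exact ws_comm a b (fun x' y' => F x x' y y')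

include hb hr in
theorem Wq_le (x x' : α) (y y' : β) : Wq a b r x x' y y'
    ≤ (vY a r y * (1 - r x' y)) * (r x y * (1 - r x y')) := by
  unfold Wq
  have h1 := (vY_pos (a := a) (r := r) y).le
  have h2 := (vY_pos (a := a) (r := r) y').le
  have h2' := vY_le (a := a) (r := r) y'
  have h3 := Dm_one (a := a) (b := b) (r := r) x x'
  rw [div_le_iff₀ (by linarith)]
  have key : (vY a r y * (r x y * (1 - r x' y))) * (vY a r y' * (r x' y' * (1 - r x y')))
      ≤ (vY a r y * (1 - r x' y)) * (r x y * (1 - r x y')) := by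
    rcases hr x y with e1 | e1 <;> rcases hr x' y with e2 | e2 <;> rcases hr x' y' with e3 | e3 <;>
    rcases hr x y' with e4 | e4 <;> rw [e1, e2, e3, e4] <;> norm_num <;> nlinarith
  have h0 : 0 ≤ (vY a r y * (1 - r x' y)) * (r x y * (1 - r x y')) := by
    rcases hr x y with e1 | e1 <;> rcases hr x' y with e2 | e2 <;>
    rcases hr x y' with e4 | e4 <;> rw [e1, e2, e4] <;> norm_num <;> exact h1
  nlinarith

include hb ha hr in
/-- Marks with two vertices on the second side. -/
theorem part2 (X2 : α → β → β → ℝ) (hX : ∀ x y y', 0 ≤ X2 x y y') :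
    Q4 a b (fun x x' y y' => Wq a b r x x' y y' * X2 x y y')
      ≤ ws a fun x => ws b fun y => ws b fun y' => r x y * (1 - r x y') * X2 x y y' := by
  have h1 : Q4 a b (fun x x' y y' => Wq a b r x x' y y' * X2 x y y')
      ≤ Q4 a b (fun x x' y y' => (vY a r y * (1 - r x' y)) * (r x y * (1 - r x y') * X2 x y y')) := by
    refine Q4_mono ha hb fun x x' y y' => ?_
    have := mul_le_mul_of_nonneg_right (Wq_le (a := a) hb hr x x' y y') (hX x y y')
    rwa [mul_assoc (vY a r y * (1 - r x' y))] at this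
  refine h1.trans ?_
  rw [move2]
  refine ws_mono ha fun x => ws_mono hb fun y => ws_mono hb fun y' => ?_
  rw [ws_mulR]
  have h0 : 0 ≤ r x y * (1 - r x y') * X2 x y y' := by
    refine mul_nonneg ?_ (hX x y y')
    rcases hr x y with e1 | e1 <;> rcases hr x y' with e4 | e4 <;> rw [e1, e4] <;> norm_num
  have := ws_v (a := a) (r := r) y
  nlinarith

include hb ha hr in
/-- Missing pairs. -/
theorem part3 (m : α → β → ℝ) (hm : ∀ x y, 0 ≤ m x y) :
    Q4 a b (fun x x' y y' => Wq a b r x x' y y' * m x y) ≤ ws a fun x => ws b fun y => m x y := by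
  have h1 : Q4 a b (fun x x' y y' => Wq a b r x x' y y' * m x y)
      ≤ ws a fun x => ws a fun x' => ws b fun y => (vY a r y * (1 - r x' y)) * m x y := by
    refine ws_mono ha fun x => ws_mono ha fun x' => ws_mono hb fun y => ?_
    refine (ws_last hb hr x x' y _ (hm x y)).trans ?_
    refine mul_le_mul_of_nonneg_right ?_ (hm x y)
    have h0 := (vY_pos (a := a) (r := r) y).le
    rcases hr x y with e1 | e1 <;> rcases hr x' y with e2 | e2 <;> rw [e1, e2] <;> norm_num <;>
    linarith
  refine h1.trans ?_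
  refine ws_mono ha fun x => ?_
  rw [ws_comm a b (fun x' y => (vY a r y * (1 - r x' y)) * m x y)]
  refine ws_mono hb fun y => ?_
  rw [ws_mulR]
  have := ws_v (a := a) (r := r) y
  have := hm x y
  nlinarith

include hb hr in
theorem pp_sum_le (x x' : α) : pp a b r x x' + pp a b r x' x ≤ ∑ y, b y := by
  unfold pp
  rw [← ws_add]
  have : ∑ y, b y = ws b (fun _ => 1) := by unfold ws; simp
  rw [this]
  refine ws_mono hb fun y => ?_
  have h0 := (vY_pos (a := a) (r := r) y).le
  have h1 := vY_le (a := a) (r := r) y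
  rcases hr x y with e1 | e1 <;> rcases hr x' y with e2 | e2 <;> rw [e1, e2] <;> norm_num <;>
  linarith

include hb ha hr in
/-- Adjacent pairs on the first side. -/
theorem part4 (k : α → α → ℝ) (hk : ∀ x x', 0 ≤ k x x') :
    Q4 a b (fun x x' y y' => Wq a b r x x' y y' * k x x')
      ≤ (∑ y, b y) / 2 * ws a fun x => ws a fun x' => k x x' := by
  have e : Q4 a b (fun x x' y y' => Wq a b r x x' y y' * k x x')
      = ws a fun x => ws a fun x' => (pp a b r x x' * pp a b r x' x / Dm a b r x x') * k x x' := by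
    unfold Q4 Wq
    refine ws_congr fun x => ws_congr fun x' => ?_
    have h : ∀ y y', (vY a r y * (r x y * (1 - r x' y))) * (vY a r y' * (r x' y' * (1 - r x y')))
        / Dm a b r x x' * k x x' = (vY a r y * (r x y * (1 - r x' y))) *
        ((vY a r y' * (r x' y' * (1 - r x y'))) * (1 / Dm a b r x x' * k x x')) := by
      intro y y'; ring
    simp_rw [h]
    rw [ws_ws_mul b b (fun y => vY a r y * (r x y * (1 - r x' y)))
      (fun y' => (vY a r y' * (r x' y' * (1 - r x y'))) * (1 / Dm a b r x x' * k x x')), ws_mulR]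
    unfold pp
    ring
  rw [e, ← ws_mulL]
  refine ws_mono ha fun x => ?_
  rw [← ws_mulL]
  refine ws_mono ha fun x' => ?_
  refine mul_le_mul_of_nonneg_right ?_ (hk x x')
  have h1 := pp_nonneg (a := a) hb hr x x'
  have h2 := pp_nonneg (a := a) hb hr x' x
  have h3 := pp_sum_le (a := a) hb hr x x'
  have h4 := Dm_one (a := a) (b := b) (r := r) x x'
  have h5 : pp a b r x x' ≤ Dm a b r x x' := (le_max_left _ _).trans (le_max_right _ _)
  have h6 : pp a b r x' x ≤ Dm a b r x x' := (le_max_right _ _).trans (le_max_right _ _)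
  rw [div_le_iff₀ (by linarith)]
  nlinarith [mul_nonneg h1 (sub_nonneg.mpr h6), mul_nonneg h2 (sub_nonneg.mpr h5),
    mul_le_mul_of_nonneg_right h3 (by linarith : 0 ≤ Dm a b r x x')]

include hb ha hr in
/-- Adjacent pairs on the second side. -/
theorem part5 (k : β → β → ℝ) (hk : ∀ y y', 0 ≤ k y y') :
    Q4 a b (fun x x' y y' => Wq a b r x x' y y' * k y y')
      ≤ ws b fun y => ws b fun y' => k y y' := by
  have h1 : Q4 a b (fun x x' y y' => Wq a b r x x' y y' * k y y')
      ≤ Q4 a b (fun x x' y y' => (vY a r y * (1 - r x' y)) * ((vY a r y' * (1 - r x y')) * k y y')) := by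
    refine Q4_mono ha hb fun x x' y y' => ?_
    rw [← mul_assoc]
    refine mul_le_mul_of_nonneg_right ?_ (hk y y')
    unfold Wq
    have h1 := (vY_pos (a := a) (r := r) y).le
    have h2 := (vY_pos (a := a) (r := r) y').le
    have h3 := Dm_one (a := a) (b := b) (r := r) x x'
    rw [div_le_iff₀ (by linarith)]
    have key : (vY a r y * (r x y * (1 - r x' y))) * (vY a r y' * (r x' y' * (1 - r x y')))
        ≤ (vY a r y * (1 - r x' y)) * (vY a r y' * (1 - r x y')) := by
      have := mul_nonneg h1 h2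
      rcases hr x y with e1 | e1 <;> rcases hr x' y with e2 | e2 <;> rcases hr x' y' with e3 | e3 <;>
      rcases hr x y' with e4 | e4 <;> rw [e1, e2, e3, e4] <;> norm_num <;> linarith
    have h0 : 0 ≤ (vY a r y * (1 - r x' y)) * (vY a r y' * (1 - r x y')) := by
      have := mul_nonneg h1 h2
      rcases hr x' y with e2 | e2 <;>
      rcases hr x y' with e4 | e4 <;> rw [e2, e4] <;> norm_num <;> linarith
    nlinarith
  refine h1.trans ?_
  rw [move2]
  have h2 : (ws a fun x => ws b fun y => ws b fun y' => ws a fun x' =>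
      (vY a r y * (1 - r x' y)) * ((vY a r y' * (1 - r x y')) * k y y'))
      ≤ ws a fun x => ws b fun y => ws b fun y' => (vY a r y' * (1 - r x y')) * k y y' := by
    refine ws_mono ha fun x => ws_mono hb fun y => ws_mono hb fun y' => ?_
    rw [ws_mulR]
    have h0 : 0 ≤ (vY a r y' * (1 - r x y')) * k y y' := by
      refine mul_nonneg (mul_nonneg (vY_pos _).le ?_) (hk y y')
      rcases hr x y' with e4 | e4 <;> rw [e4] <;> norm_num
    have := ws_v (a := a) (r := r) y
    nlinarith
  refine h2.trans ?_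
  rw [ws_comm a b (fun x y => ws b fun y' => (vY a r y' * (1 - r x y')) * k y y')]
  refine ws_mono hb fun y => ?_
  rw [ws_comm a b (fun x y' => (vY a r y' * (1 - r x y')) * k y y')]
  refine ws_mono hb fun y' => ?_
  rw [ws_mulR]
  have := ws_v (a := a) (r := r) y'
  have := hk y y'
  nlinarith

include hb ha hr in
/-- The upper bound. -/
theorem T4_le (X1 : α → α → β → ℝ) (X2 : α → β → β → ℝ) (m : α → β → ℝ) (k : α → α → ℝ)
    (k' : β → β → ℝ) (hX1 : ∀ x x' y, 0 ≤ X1 x x' y) (hX2 : ∀ x y y', 0 ≤ X2 x y y')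
    (hm : ∀ x y, 0 ≤ m x y) (hk : ∀ x x', 0 ≤ k x x') (hk' : ∀ y y', 0 ≤ k' y y')
    (hyp : ∀ x x' y y', r x y = 1 → r x' y = 0 → r x' y' = 1 → r x y' = 0 →
      1 ≤ X1 x x' y + X1 x x' y' + X2 x y y' + X2 x' y y' + m x y + m x' y' + k x x' + k' y y') :
    T4 a b r ≤ (ws a fun x => ws a fun x' => ws b fun y => X1 x x' y)
      + (ws a fun x => ws b fun y => ws b fun y' => X2 x y y')
      + 2 * (ws a fun x => ws b fun y => m x y)
      + (∑ y, b y) / 2 * (ws a fun x => ws a fun x' => k x x')
      + ws b fun y => ws b fun y' => k' y y' := by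
  have h1 : T4 a b r ≤ Q4 a b (fun x x' y y' => Wq a b r x x' y y' * X1 x x' y
      + Wq a b r x x' y y' * X1 x x' y' + Wq a b r x x' y y' * X2 x y y'
      + Wq a b r x x' y y' * X2 x' y y' + Wq a b r x x' y y' * m x y
      + Wq a b r x x' y y' * m x' y' + Wq a b r x x' y y' * k x x'
      + Wq a b r x x' y y' * k' y y') := by
    rw [T4_eq]
    refine Q4_mono ha hb fun x x' y y' => ?_
    have h0 := Wq_nonneg (a := a) hb hr x x' y y'
    have key : Wq a b r x x' y y' ≤ Wq a b r x x' y y' * (X1 x x' y + X1 x x' y' + X2 x y y'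
        + X2 x' y y' + m x y + m x' y' + k x x' + k' y y') := by
      rcases hr x y with e1 | e1
      · unfold Wq; rw [e1]; simp
      rcases hr x' y with e2 | e2
      · rcases hr x' y' with e3 | e3
        · unfold Wq; rw [e3]; simp
        rcases hr x y' with e4 | e4
        · have := hyp x x' y y' e1 e2 e3 e4
          nlinarith
        · unfold Wq; rw [e4]; simp
      · unfold Wq; rw [e2]; simp
    linarith
  simp_rw [Q4_add] at h1
  -- first two
  have p1 := part1 hb ha hr X1 hX1
  have p2 : Q4 a b (fun x x' y y' => Wq a b r x x' y y' * X1 x x' y')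
      ≤ ws a fun x => ws a fun x' => ws b fun y => r x' y * (1 - r x y) * X1 x x' y := by
    have e1 := Q4_swap (a := a) (b := b) (fun x x' y y' => Wq a b r x x' y y' * X1 x x' y')
    have e2 : Q4 a b (fun x x' y y' => Wq a b r x' x y' y * X1 x' x y)
        = Q4 a b (fun x x' y y' => Wq a b r x x' y y' * X1 x' x y) :=
      Q4_congr fun x x' y y' => by rw [Wq_swap]
    rw [← e1, e2]
    refine (part1 hb ha hr (fun x x' y => X1 x' x y) (fun x x' y => hX1 x' x y)).trans_eq ?_
    exact ws_comm a a (fun x x' => ws b fun y => r x y * (1 - r x' y) * X1 x' x y)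
  have p12 : (ws a fun x => ws a fun x' => ws b fun y => r x y * (1 - r x' y) * X1 x x' y)
      + (ws a fun x => ws a fun x' => ws b fun y => r x' y * (1 - r x y) * X1 x x' y)
      ≤ ws a fun x => ws a fun x' => ws b fun y => X1 x x' y := by
    simp_rw [← ws_add]
    refine ws_mono ha fun x => ws_mono ha fun x' => ws_mono hb fun y => ?_
    have := hX1 x x' y
    rcases hr x y with e1 | e1 <;> rcases hr x' y with e2 | e2 <;> rw [e1, e2] <;> norm_num <;>
    exact this
  -- next two
  have p3 := part2 hb ha hr X2 hX2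
  have p4 : Q4 a b (fun x x' y y' => Wq a b r x x' y y' * X2 x' y y')
      ≤ ws a fun x => ws b fun y => ws b fun y' => r x y' * (1 - r x y) * X2 x y y' := by
    have e1 := Q4_swap (a := a) (b := b) (fun x x' y y' => Wq a b r x x' y y' * X2 x' y y')
    have e2 : Q4 a b (fun x x' y y' => Wq a b r x' x y' y * X2 x y' y)
        = Q4 a b (fun x x' y y' => Wq a b r x x' y y' * X2 x y' y) :=
      Q4_congr fun x x' y y' => by rw [Wq_swap]
    rw [← e1, e2]
    refine (part2 hb ha hr (fun x y y' => X2 x y' y) (fun x y y' => hX2 x y' y)).trans_eq ?_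
    refine ws_congr fun x => ?_
    exact ws_comm b b (fun y y' => r x y * (1 - r x y') * X2 x y' y)
  have p34 : (ws a fun x => ws b fun y => ws b fun y' => r x y * (1 - r x y') * X2 x y y')
      + (ws a fun x => ws b fun y => ws b fun y' => r x y' * (1 - r x y) * X2 x y y')
      ≤ ws a fun x => ws b fun y => ws b fun y' => X2 x y y' := by
    simp_rw [← ws_add]
    refine ws_mono ha fun x => ws_mono hb fun y => ws_mono hb fun y' => ?_
    have := hX2 x y y'
    rcases hr x y with e1 | e1 <;> rcases hr x y' with e2 | e2 <;> rw [e1, e2] <;> norm_num <;>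
    exact this
  have p5 := part3 hb ha hr m hm
  have p6 : Q4 a b (fun x x' y y' => Wq a b r x x' y y' * m x' y')
      ≤ ws a fun x => ws b fun y => m x y := by
    have e1 := Q4_swap (a := a) (b := b) (fun x x' y y' => Wq a b r x x' y y' * m x' y')
    have e2 : Q4 a b (fun x x' y y' => Wq a b r x' x y' y * m x y)
        = Q4 a b (fun x x' y y' => Wq a b r x x' y y' * m x y) :=
      Q4_congr fun x x' y y' => by rw [Wq_swap]
    rw [← e1, e2]
    exact p5
  have p7 := part4 hb ha hr k hk
  have p8 := part5 hb ha hr k' hk'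
  linarith

end Count

end Pool.Agent.H5.SF
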