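import Mathlib

/-!
# Scalar inequalities for the local lemma
-/

namespace Pool.Agent.H5.SF

/-- The loss function. -/
noncomputable def Hf (s t : ℝ) : ℝ := if t ≤ 2 * s then t ^ 2 / 4 else s * t - s ^ 2

theorem Hf_nonneg {s t : ℝ} (hs : 0 ≤ s) : 0 ≤ Hf s t := by
  unfold Hf
  split_ifs with h
  · positivity
  · push Not at h
    nlinarith

theorem Hf_mono {s t u : ℝ} (hs : 0 ≤ s) (ht : 0 ≤ t) (h : t ≤ u) : Hf s t ≤ Hf s u := by
  unfold Hf
  split_ifs with h1 h2 h2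
  · nlinarith
  · push Not at h2
    nlinarith [sq_nonneg (t - 2 * s)]
  · push Not at h1
    linarith
  · push Not at h1 h2
    nlinarith

theorem Hf_zero_left {t : ℝ} (ht : 0 ≤ t) : Hf 0 t = 0 := by
  unfold Hf
  split_ifs with h
  · have : t = 0 := by linarith
    rw [this]; norm_num
  · ring

theorem Hf_zero_right {s : ℝ} (hs : 0 ≤ s) : Hf s 0 = 0 := by
  unfold Hf
  rw [if_pos (by linarith)]
  norm_num

/-- `t (t + ε) ≥ -Hf l ε` for `t ≥ -l`. -/
theorem quad_ge {l ε t : ℝ} (hl : 0 ≤ l) (hε : 0 ≤ ε) (ht : -l ≤ t) : -Hf l ε ≤ t * (t + ε) := by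
  unfold Hf
  split_ifs with h
  · nlinarith [sq_nonneg (t + ε / 2)]
  · push Not at h
    nlinarith

theorem Hf_ge {l ε : ℝ} : l * ε - l ^ 2 ≤ Hf l ε := by
  unfold Hf
  split_ifs with h
  · nlinarith [sq_nonneg (l - ε / 2)]
  · exact le_rfl

/-- Pointwise bound for the number of 4-cycles through a pair, ordered case. -/
theorem C_ge_aux {p p' l l' ε : ℝ} (hp : 0 ≤ p) (hl' : 0 ≤ l') (hll : l' ≤ l)
    (hsum : l + l' ≤ 1) (hε : 0 ≤ ε) (hpp : p' - p = (l - l') + ε) :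
    l * p + l' * p' - l * l' - Hf l' ε ≤ p * p' / max 1 (max p p') := by
  have hle : p ≤ p' := by linarith
  rw [max_eq_right hle]
  rcases le_total p' 1 with h1 | h1
  · rw [max_eq_left h1, div_one]
    have h2 := quad_ge hl' hε (by linarith : -l' ≤ p - l')
    have h3 : p * p' - l * p - l' * p' + l * l' = (p - l') * ((p - l') + ε) := by
      have : p' = p + (l - l') + ε := by linarith
      rw [this]; ring
    linarith
  · rw [max_eq_right h1]
    have h0 : p' ≠ 0 := by linarith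
    rw [mul_div_assoc, div_self h0, mul_one]
    have h2 := @Hf_ge l' ε
    have h3 : p - l * p - l' * p' + l * l' = p * (1 - l - l') - (l' * ε - l' ^ 2) := by
      have : p' = p + (l - l') + ε := by linarith
      rw [this]; ring
    have h4 : 0 ≤ p * (1 - l - l') := mul_nonneg hp (by linarith)
    linarith

/-- Pointwise bound in terms of the multipliers. -/
theorem C_ge {p p' l l' e e' : ℝ} (hp : 0 ≤ p) (hp' : 0 ≤ p') (hl : 0 ≤ l) (hl' : 0 ≤ l')
    (hsum : l + l' ≤ 1) (hpp : p' - p = (l - l') + (e - e'))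
    (hor : (l' ≤ l ∧ e' ≤ e) ∨ (l ≤ l' ∧ e ≤ e')) :
    l * p + l' * p' - l * l' - Hf (min l l') |e - e'| ≤ p * p' / max 1 (max p p') := by
  rcases hor with ⟨h1, h2⟩ | ⟨h1, h2⟩
  · rw [min_eq_right h1, abs_of_nonneg (by linarith)]
    exact C_ge_aux hp hl' h1 hsum (by linarith) hpp
  · rw [min_eq_left h1, abs_of_nonpos (by linarith)]
    have := @C_ge_aux p' p l' l (-(e - e')) hp' hl h1 (by linarith) (by linarith) (by linarith)
    rw [max_comm p p', mul_comm p p']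
    linarith

/-- Lower bound for the contribution of a vertex on the second side. -/
theorem y_part {e j L : ℝ} (he : 0 ≤ e) (hj : 0 ≤ j) (hL0 : 0 ≤ L) (hL : L ≤ 0.4) :
    1.6 * L - 0.8 * j ≤ max (1 - e - j) 0 ^ 2 + 2 * (min 1 e * L) := by
  norm_num at hL ⊢
  rcases le_total 1 e with h1 | h1
  · rw [min_eq_left h1, max_eq_right (by linarith)]
    nlinarith
  · rw [min_eq_right h1]
    rcases le_total (1 - e - j) 0 with h2 | h2
    · rw [max_eq_right h2]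
      nlinarith [mul_nonneg hj (by linarith : 0 ≤ 2 / 5 - L), mul_nonneg hL0 (by linarith : 0 ≤ e - (1 - j))]
    · rw [max_eq_left h2]
      have h3 : e = 1 - j - (1 - e - j) := by ring
      obtain ⟨z, hz⟩ : ∃ z, z = 1 - e - j := ⟨_, rfl⟩
      rw [← hz] at h2 h3 ⊢
      rw [h3]
      nlinarith [sq_nonneg (z - L), mul_nonneg hj (by linarith : 0 ≤ 2 / 5 - L),
        mul_nonneg hL0 (by linarith : 0 ≤ 2 / 5 - L)]

/-- The quantity attached to a vertex on the first side. -/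
noncomputable def qf (l u : ℝ) : ℝ := max (1 - u) 0 ^ 2 + 1.6 * l * u

theorem x_part {d i l : ℝ} (hi : 0 ≤ i) (hl : l ≤ 1 / 2) :
    qf l (d + i) - 0.8 * i ≤ max (1 - d - i) 0 ^ 2 + 1.6 * (l * d) := by
  unfold qf
  have : 1 - (d + i) = 1 - d - i := by ring
  rw [this]
  norm_num
  nlinarith

theorem qf_half {u : ℝ} : 0.64 ≤ qf (1 / 2) u := by
  unfold qf
  rcases le_total (1 - u) 0 with h | h
  · rw [max_eq_right h]; norm_num; linarith
  · rw [max_eq_left h]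
    norm_num
    nlinarith [sq_nonneg (1 - u - 2 / 5)]

theorem qf_pair_aux {u : ℝ} (hu : 0 ≤ u) : 0.4 ≤ qf (1 / 2) u - 1.6 * Hf (1 / 2) u := by
  unfold qf Hf
  norm_num
  split_ifs with h
  · rw [max_eq_left (by linarith)]
    nlinarith [sq_nonneg (1 - u)]
  · push Not at h
    have := sq_nonneg (max (1 - u) 0)
    linarith

theorem qf_pair {a a' u u' : ℝ} (ha : 0 ≤ a) (ha' : 0 ≤ a') (hu : a ≤ u) (hu' : a' ≤ u') :
    1.04 ≤ qf (1 / 2) u + qf (1 / 2) u' - 1.6 * Hf (1 / 2) |a - a'| := by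
  rcases le_total a a' with h | h
  · have h1 : Hf (1 / 2) |a - a'| ≤ Hf (1 / 2) u' := by
      refine Hf_mono (by norm_num) (abs_nonneg _) ?_
      rw [abs_of_nonpos (by linarith)]
      linarith
    have h2 := @qf_half u
    have h3 := @qf_pair_aux u' (by linarith)
    norm_num at h2 h3 ⊢
    linarith
  · have h1 : Hf (1 / 2) |a - a'| ≤ Hf (1 / 2) u := by
      refine Hf_mono (by norm_num) (abs_nonneg _) ?_
      rw [abs_of_nonneg (by linarith)]
      linarith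
    have h2 := @qf_half u'
    have h3 := @qf_pair_aux u (by linarith)
    norm_num at h2 h3 ⊢
    linarith

theorem qf_ramp1 {l u : ℝ} (hl : 0 ≤ l) (hl' : l ≤ 1 / 2) (hu : 0 ≤ u) : 1.28 * l ≤ qf l u := by
  unfold qf
  norm_num
  rcases le_total (1 - u) 0 with h | h
  · rw [max_eq_right h]
    nlinarith
  · rw [max_eq_left h]
    nlinarith [sq_nonneg (1 - u - 4 / 5 * l)]

theorem qf_ramp2 {l u b : ℝ} (hl : 0 ≤ l) (hl' : l ≤ 1 / 2) (hb : 0 ≤ b)
    (hu : b + 1 / 2 - l ≤ u) : 0.8 * l ≤ qf l u - 1.6 * Hf l b := by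
  unfold qf Hf
  norm_num
  split_ifs with h
  · rcases le_total (1 - u) 0 with h1 | h1
    · rw [max_eq_right h1]
      nlinarith [mul_nonneg hl (by linarith : 0 ≤ u - 1), mul_nonneg hl (by linarith : 0 ≤ 1 / 2 - l),
        mul_nonneg hb (by linarith : 0 ≤ 2 * l - b), mul_nonneg hl (by linarith : 0 ≤ 2 * l - b)]
    · rw [max_eq_left h1]
      rcases le_total (1 - u) (1 / 2 - l) with h2 | h2
      · have hb2 : b ^ 2 ≤ (2 * l) ^ 2 := pow_le_pow_left₀ hb h 2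
        nlinarith [mul_nonneg hl (by linarith : 0 ≤ (1 / 2 - l) - (1 - u)), sq_nonneg (1 - u)]
      · have hb2 : b ^ 2 ≤ (u + l - 1 / 2) ^ 2 := pow_le_pow_left₀ hb (by linarith) 2
        have hr : 0 ≤ 1 / 2 - l := by linarith
        nlinarith [mul_nonneg hr (by linarith : 0 ≤ (1 - u) - (1 / 2 - l)),
          mul_nonneg h1 (by linarith : 0 ≤ (1 - u) - (1 / 2 - l)), mul_nonneg hr h1]
  · push Not at h
    have h1 := sq_nonneg (max (1 - u) 0)
    nlinarith [mul_nonneg hl (by linarith : 0 ≤ u - (b + 1 / 2 - l))]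

/-- Interpolated bound on the ramp. -/
theorem qf_ramp {l u b ρ : ℝ} (hl : 0 ≤ l) (hl' : l ≤ 1 / 2) (hb : 0 ≤ b)
    (hu : b + 1 / 2 - l ≤ u) (hρ : 0 ≤ ρ) (hρ' : ρ ≤ 0.8) :
    (1.28 - 0.6 * ρ) * l ≤ qf l u - 2 * ρ * Hf l b := by
  have hu0 : 0 ≤ u := by linarith
  have h1 := qf_ramp1 hl hl' hu0
  have h2 := qf_ramp2 hl hl' hb hu
  norm_num at h1 h2 hρ' ⊢
  have h3 := mul_nonneg (by linarith : 0 ≤ 1 - 5 / 4 * ρ) (sub_nonneg.mpr h1)
  have h4 := mul_nonneg (by linarith : 0 ≤ 5 / 4 * ρ) (sub_nonneg.mpr h2)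
  nlinarith

/-- The final arithmetic. -/
theorem final_arith {Ψ ρ z h : ℝ} (hρ : 0 ≤ ρ) (hρ' : ρ ≤ 0.8) (hΨ : 0.64 * ρ ≤ Ψ)
    (hz : z = 0.4 - ρ / 2) (hh : 1.6 * h ≤ 2 * ρ * Ψ - 1.04 * ρ ^ 2) :
    0.256 ≤ Ψ - h + (1.28 - 0.6 * ρ) * z - 0.16 := by
  subst hz
  norm_num at hρ' hΨ hh ⊢
  have h1 := mul_nonneg (by linarith : 0 ≤ 1 - 5 / 4 * ρ) (sub_nonneg.mpr hΨ)
  nlinarith [sq_nonneg (ρ - 4 / 5)]

end Pool.Agent.H5.SF
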