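import Pool.Agent.H5SF.LScalar

/-!
# The local lemma: directed 4-cycles in a weighted bipartite tournament
-/

namespace Pool.Agent.H5.SF

open Finset

section WS

variable {α β : Type*} [Fintype α] [Fintype β]

/-- Weighted sum. -/
noncomputable def ws (a : α → ℝ) (f : α → ℝ) : ℝ := ∑ x, a x * f x

variable (a : α → ℝ)

theorem ws_add (f g : α → ℝ) : ws a (fun x => f x + g x) = ws a f + ws a g := by
  unfold ws; rw [← sum_add_distrib]; exact sum_congr rfl fun v _ => by ring

theorem ws_sub (f g : α → ℝ) : ws a (fun x => f x - g x) = ws a f - ws a g := by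
  unfold ws; rw [← sum_sub_distrib]; exact sum_congr rfl fun v _ => by ring

theorem ws_mulL (c : ℝ) (f : α → ℝ) : ws a (fun x => c * f x) = c * ws a f := by
  unfold ws; rw [mul_sum]; exact sum_congr rfl fun v _ => by ring

theorem ws_mulR (c : ℝ) (f : α → ℝ) : ws a (fun x => f x * c) = ws a f * c := by
  unfold ws; rw [sum_mul]; exact sum_congr rfl fun v _ => by ring

variable {a}

theorem ws_mono (ha : ∀ x, 0 ≤ a x) {f g : α → ℝ} (h : ∀ x, f x ≤ g x) : ws a f ≤ ws a g :=
  sum_le_sum fun v _ => mul_le_mul_of_nonneg_left (h v) (ha v)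

theorem ws_nonneg (ha : ∀ x, 0 ≤ a x) {f : α → ℝ} (h : ∀ x, 0 ≤ f x) : 0 ≤ ws a f :=
  sum_nonneg fun v _ => mul_nonneg (ha v) (h v)

theorem ws_congr {f g : α → ℝ} (h : ∀ x, f x = g x) : ws a f = ws a g := by
  congr 1; funext v; exact h v

theorem ws_comm (a : α → ℝ) (b : β → ℝ) (F : α → β → ℝ) :
    ws a (fun x => ws b (fun y => F x y)) = ws b (fun y => ws a (fun x => F x y)) := by
  unfold ws
  simp_rw [mul_sum]
  rw [sum_comm]
  exact sum_congr rfl fun y _ => sum_congr rfl fun x _ => by ring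

theorem ws_ws_mul (a : α → ℝ) (b : β → ℝ) (f : α → ℝ) (g : β → ℝ) :
    ws a (fun x => ws b (fun y => f x * g y)) = ws a f * ws b g := by
  have : ∀ x, ws b (fun y => f x * g y) = f x * ws b g := fun x => ws_mulL b _ _
  simp_rw [this]
  exact ws_mulR a _ _

end WS

section Profile

variable {α : Type*} [Fintype α]

/-- The multiplier. -/
noncomputable def lm (c d : ℝ) : ℝ := min (1 / 2) (max (c - d) 0)

theorem lm_nonneg (c d : ℝ) : 0 ≤ lm c d := le_min (by norm_num) (le_max_right _ _)
theorem lm_le (c d : ℝ) : lm c d ≤ 1 / 2 := min_le_left _ _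

theorem lm_mono {c d d' : ℝ} (h : d ≤ d') :
    lm c d' ≤ lm c d ∧ c - d' - lm c d' ≤ c - d - lm c d := by
  unfold lm
  constructor
  · exact min_le_min_left _ (max_le_max_right _ (by linarith))
  · rcases le_total (c - d) 0 with h1 | h1
    · rw [max_eq_right h1, max_eq_right (by linarith : c - d' ≤ 0)]
      linarith
    · rw [max_eq_left h1]
      rcases le_total (c - d') 0 with h2 | h2
      · rw [max_eq_right h2, min_eq_right (by norm_num : (0 : ℝ) ≤ 1 / 2)]
        have := min_le_right (1 / 2) (c - d)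
        linarith
      · rw [max_eq_left h2]
        rcases le_total (c - d) (1 / 2) with h3 | h3
        · rw [min_eq_right h3, min_eq_right (by linarith)]
          linarith
        · rw [min_eq_left h3]
          have := min_le_left (1 / 2) (c - d')
          rcases le_total (c - d') (1 / 2) with h4 | h4
          · rw [min_eq_right h4]; linarith
          · rw [min_eq_left h4]; linarith

theorem lm_cap {c d : ℝ} (h : d ≤ c - 1 / 2) : lm c d = 1 / 2 := by
  unfold lm
  rw [max_eq_left (by linarith), min_eq_left (by linarith)]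

theorem lm_uncap {c d : ℝ} (h : ¬ d ≤ c - 1 / 2) :
    (lm c d = 0) ∨ (0 < lm c d ∧ c - d - lm c d = 0) := by
  push Not at h
  unfold lm
  rcases le_or_gt (c - d) 0 with h1 | h1
  · left
    rw [max_eq_right h1, min_eq_right (by norm_num)]
  · right
    rw [max_eq_left h1.le, min_eq_right (by linarith)]
    exact ⟨h1, by ring⟩

open Classical in
theorem profile (a : α → ℝ) (ha : ∀ x, 0 ≤ a x) (δ u : α → ℝ) (hδ : ∀ x, 0 ≤ δ x)
    (hu : ∀ x, δ x ≤ u x) (c : ℝ) (hW : ws a (fun x => lm c (δ x)) = 0.4) :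
    0.256 ≤ ws a (fun x => qf (lm c (δ x)) (u x))
      - ws a (fun x => ws a (fun x' => Hf (min (lm c (δ x)) (lm c (δ x')))
        |(c - δ x - lm c (δ x)) - (c - δ x' - lm c (δ x'))|)) - 0.16 := by
  set χ : α → ℝ := fun x => if δ x ≤ c - 1 / 2 then 1 else 0 with hχ
  set l : α → ℝ := fun x => lm c (δ x) with hl
  set q : α → ℝ := fun x => qf (l x) (u x) with hq
  have hl0 : ∀ x, 0 ≤ l x := fun x => lm_nonneg _ _
  have hl2 : ∀ x, l x ≤ 1 / 2 := fun x => lm_le _ _
  have hu0 : ∀ x, 0 ≤ u x := fun x => (hδ x).trans (hu x)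
  have χ0 : ∀ x, 0 ≤ χ x := by intro x; simp only [hχ]; split_ifs <;> norm_num
  have χ1 : ∀ x, χ x ≤ 1 := by intro x; simp only [hχ]; split_ifs <;> norm_num
  have hcap : ∀ x, χ x = 1 ∧ δ x ≤ c - 1 / 2 ∧ l x = 1 / 2 ∨ χ x = 0 ∧ ¬ δ x ≤ c - 1 / 2 ∧
      (l x = 0 ∨ 0 < l x ∧ c - δ x - l x = 0) := by
    intro x
    by_cases h : δ x ≤ c - 1 / 2
    · left
      exact ⟨by simp only [hχ]; rw [if_pos h], h, lm_cap h⟩
    · right
      exact ⟨by simp only [hχ]; rw [if_neg h], h, lm_uncap h⟩
  set B : ℝ := max (c - 1 / 2) 0 with hB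
  have hB0 : 0 ≤ B := le_max_right _ _
  -- pointwise bound for the loss
  have hH : ∀ x x', Hf (min (l x) (l x')) |(c - δ x - l x) - (c - δ x' - l x')| ≤
      χ x * χ x' * Hf (1 / 2) |δ x - δ x'| + χ x * ((1 - χ x') * Hf (l x') B)
        + χ x' * ((1 - χ x) * Hf (l x) B) := by
    intro x x'
    rcases hcap x with ⟨h1, h2, h3⟩ | ⟨h1, h2, h3⟩ <;>
    rcases hcap x' with ⟨h1', h2', h3'⟩ | ⟨h1', h2', h3'⟩
    · rw [h1, h1', h3, h3', min_self]
      have : (c - δ x - 1 / 2) - (c - δ x' - 1 / 2) = -(δ x - δ x') := by ring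
      rw [this, abs_neg]
      norm_num
    · rw [h1, h1', h3]
      have hb : c - 1 / 2 = B := by
        rw [hB, max_eq_left]
        linarith [hδ x]
      rcases h3' with h4 | ⟨h4, h5⟩
      · rw [h4, min_eq_right (by norm_num), Hf_zero_left (abs_nonneg _), Hf_zero_left hB0]
        norm_num
      · rw [h5, min_eq_right (hl2 x')]
        have h6 : Hf (l x') |c - δ x - 1 / 2 - 0| ≤ Hf (l x') B := by
          refine Hf_mono h4.le (abs_nonneg _) ?_
          rw [abs_of_nonneg (by linarith)]
          linarith [hδ x]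
        linarith
    · rw [h1, h1', h3']
      have hb : c - 1 / 2 = B := by
        rw [hB, max_eq_left]
        linarith [hδ x']
      rcases h3 with h4 | ⟨h4, h5⟩
      · rw [h4, min_eq_left (by norm_num), Hf_zero_left (abs_nonneg _), Hf_zero_left hB0]
        norm_num
      · rw [h5, min_eq_left (hl2 x)]
        have h6 : Hf (l x) |0 - (c - δ x' - 1 / 2)| ≤ Hf (l x) B := by
          refine Hf_mono h4.le (abs_nonneg _) ?_
          rw [abs_of_nonpos (by linarith)]
          linarith [hδ x']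
        linarith
    · rw [h1, h1']
      have h0 : Hf (min (l x) (l x')) |(c - δ x - l x) - (c - δ x' - l x')| = 0 := by
        rcases h3 with h4 | ⟨h4, h5⟩
        · rw [h4, min_eq_left (hl0 x'), Hf_zero_left (abs_nonneg _)]
        · rcases h3' with h4' | ⟨h4', h5'⟩
          · rw [h4', min_eq_right (hl0 x), Hf_zero_left (abs_nonneg _)]
          · rw [h5, h5', sub_zero, abs_zero, Hf_zero_right (le_min (hl0 x) (hl0 x'))]
      rw [h0]
      norm_num
  set ρ := ws a χ with hρ
  set h := ws a (fun x => ws a (fun x' => χ x * χ x' * Hf (1 / 2) |δ x - δ x'|)) with hh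
  set η := ws a (fun x => (1 - χ x) * Hf (l x) B) with hη
  set Ψ := ws a (fun x => χ x * q x) with hΨ
  have hρ0 : 0 ≤ ρ := ws_nonneg ha χ0
  have hsumH : ws a (fun x => ws a (fun x' => Hf (min (l x) (l x'))
      |(c - δ x - l x) - (c - δ x' - l x')|)) ≤ h + ρ * η + ρ * η := by
    have e1 : ws a (fun x => ws a (fun x' => Hf (min (l x) (l x'))
        |(c - δ x - l x) - (c - δ x' - l x')|)) ≤
        ws a (fun x => ws a (fun x' => (χ x * χ x' * Hf (1 / 2) |δ x - δ x'|
        + χ x * ((1 - χ x') * Hf (l x') B) + χ x' * ((1 - χ x) * Hf (l x) B)))) :=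
      ws_mono ha fun x => ws_mono ha fun x' => hH x x'
    refine e1.trans_eq ?_
    simp_rw [ws_add]
    congr 1
    · congr 1
      exact ws_ws_mul a a χ (fun x' => (1 - χ x') * Hf (l x') B)
    · rw [ws_comm a a (fun x x' => χ x' * ((1 - χ x) * Hf (l x) B))]
      exact ws_ws_mul a a χ (fun x => (1 - χ x) * Hf (l x) B)
  -- the capped part
  have hcc : 1.6 * h ≤ 2 * ρ * Ψ - 1.04 * ρ ^ 2 := by
    have e1 : ws a (fun x => ws a (fun x' => 1.6 * (χ x * χ x' * Hf (1 / 2) |δ x - δ x'|)))
        ≤ ws a (fun x => ws a (fun x' => (χ x * q x) * χ x' + χ x * (χ x' * q x')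
          - (1.04 * χ x) * χ x')) := by
      refine ws_mono ha fun x => ws_mono ha fun x' => ?_
      rcases hcap x with ⟨h1, h2, h3⟩ | ⟨h1, h2, h3⟩
      · rcases hcap x' with ⟨h1', h2', h3'⟩ | ⟨h1', h2', h3'⟩
        · have hp := @qf_pair (δ x) (δ x') (u x) (u x') (hδ x) (hδ x') (hu x) (hu x')
          rw [h1, h1']
          simp only [hq]
          rw [h3, h3']
          norm_num at hp ⊢
          linarith
        · rw [h1']
          norm_num
      · rw [h1]
        norm_num
    have e2 : ws a (fun x => ws a (fun x' => 1.6 * (χ x * χ x' * Hf (1 / 2) |δ x - δ x'|)))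
        = 1.6 * h := by
      simp_rw [ws_mulL]
      rfl
    have e3 : ws a (fun x => ws a (fun x' => (χ x * q x) * χ x' + χ x * (χ x' * q x')
          - (1.04 * χ x) * χ x')) = Ψ * ρ + ρ * Ψ - (1.04 * ρ) * ρ := by
      simp_rw [ws_sub, ws_add]
      rw [ws_ws_mul a a (fun x => χ x * q x) χ, ws_ws_mul a a χ (fun x' => χ x' * q x'),
        ws_ws_mul a a (fun x => 1.04 * χ x) χ, ws_mulL]
    rw [e2, e3] at e1
    linarith
  have hΨge : 0.64 * ρ ≤ Ψ := by
    rw [hρ, ← ws_mulL]
    refine ws_mono ha fun x => ?_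
    rcases hcap x with ⟨h1, h2, h3⟩ | ⟨h1, h2, h3⟩
    · have := @qf_half (u x)
      rw [h1]
      simp only [hq]
      rw [h3]
      norm_num at this ⊢
      linarith
    · rw [h1]
      norm_num
  -- the mass of the multipliers
  set z := ws a (fun x => (1 - χ x) * l x) with hz
  have hz0 : 0 ≤ z := ws_nonneg ha fun x => mul_nonneg (by linarith [χ1 x]) (hl0 x)
  have hzeq : z = 0.4 - ρ / 2 := by
    have e1 : ws a l = ws a (fun x => (1 - χ x) * l x + χ x * (1 / 2)) := by
      refine ws_congr fun x => ?_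
      rcases hcap x with ⟨h1, h2, h3⟩ | ⟨h1, h2, h3⟩
      · rw [h1, h3]; ring
      · rw [h1]; ring
    rw [ws_add, ws_mulR, hW] at e1
    linarith
  have hρ8 : ρ ≤ 0.8 := by
    rw [hzeq] at hz0
    norm_num at hz0 ⊢
    linarith
  -- the ramp
  have hramp : (1.28 - 0.6 * ρ) * z ≤ ws a (fun x => (1 - χ x) * q x) - 2 * ρ * η := by
    have e1 : ws a (fun x => (1.28 - 0.6 * ρ) * ((1 - χ x) * l x))
        ≤ ws a (fun x => (1 - χ x) * q x - 2 * ρ * ((1 - χ x) * Hf (l x) B)) := by
      rcases le_or_gt (1 / 2) c with hc | hc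
      · refine ws_mono ha fun x => ?_
        rcases hcap x with ⟨h1, h2, h3⟩ | ⟨h1, h2, h3⟩
        · rw [h1]; norm_num
        · rw [h1]
          have hBc : B = c - 1 / 2 := by rw [hB, max_eq_left]; linarith
          have key : (1.28 - 0.6 * ρ) * l x ≤ q x - 2 * ρ * Hf (l x) B := by
            rcases h3 with h4 | ⟨h4, h5⟩
            · simp only [hq]
              rw [h4, Hf_zero_left hB0]
              unfold qf
              have := sq_nonneg (max (1 - u x) 0)
              norm_num
            · exact qf_ramp h4.le (hl2 x) hB0 (by rw [hBc]; linarith [hu x]) hρ0 hρ8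
          linarith
      · have hnone : ∀ x, χ x = 0 := by
          intro x
          rcases hcap x with ⟨h1, h2, h3⟩ | ⟨h1, h2, h3⟩
          · exfalso
            linarith [hδ x]
          · exact h1
        have hρz : ρ = 0 := by
          rw [hρ]
          have : χ = fun _ => (0 : ℝ) := by funext x; exact hnone x
          rw [this]
          simp [ws]
        rw [hρz]
        refine ws_mono ha fun x => ?_
        rw [hnone x]
        have := qf_ramp1 (hl0 x) (hl2 x) (hu0 x)
        norm_num at this ⊢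
        exact this
    rw [ws_mulL, ws_sub, ws_mulL] at e1
    exact e1
  have hsplit : ws a q = Ψ + ws a (fun x => (1 - χ x) * q x) := by
    rw [hΨ, ← ws_add]
    exact ws_congr fun x => by ring
  have hfin := final_arith hρ0 hρ8 hΨge hzeq hcc
  have hgoal : ws a (fun x => qf (lm c (δ x)) (u x)) = ws a q := rfl
  rw [hgoal, hsplit]
  have hsumH' : ws a (fun x => ws a (fun x' => Hf (min (lm c (δ x)) (lm c (δ x')))
      |(c - δ x - lm c (δ x)) - (c - δ x' - lm c (δ x'))|)) ≤ h + ρ * η + ρ * η := hsumH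
  linarith

end Profile

section Bipartite

variable {α β : Type*} [Fintype α] [Fintype β]
variable (a : α → ℝ) (b : β → ℝ) (r : α → β → ℝ)

/-- Out-weight of a vertex of the first side. -/
noncomputable def dX (x : α) : ℝ := ws b (fun y => r x y)

/-- Out-weight of a vertex of the second side. -/
noncomputable def dY (y : β) : ℝ := ws a (fun x => 1 - r x y)

/-- Damping factor. -/
noncomputable def vY (y : β) : ℝ := 1 / max 1 (dY a r y)

/-- Damped weight of `N(x) \ N(x')`. -/
noncomputable def pp (x x' : α) : ℝ := ws b (fun y => vY a r y * (r x y * (1 - r x' y)))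

/-- Damped degree. -/
noncomputable def dl (x : α) : ℝ := ws b (fun y => vY a r y * r x y)

/-- Damped number of directed 4-cycles. -/
noncomputable def T4 : ℝ := ws a (fun x => ws a (fun x' =>
  pp a b r x x' * pp a b r x' x / max 1 (max (pp a b r x x') (pp a b r x' x))))

variable {a b r}

theorem vY_pos (y : β) : 0 < vY a r y := by
  unfold vY
  have : 0 < max 1 (dY a r y) := lt_max_of_lt_left one_pos
  positivity

theorem vY_le (y : β) : vY a r y ≤ 1 := by
  unfold vY
  rw [div_le_one (lt_max_of_lt_left one_pos)]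
  exact le_max_left _ _

theorem vY_mul (y : β) : vY a r y * dY a r y = min 1 (dY a r y) := by
  unfold vY
  rcases le_total (dY a r y) 1 with h | h
  · rw [max_eq_left h, min_eq_right h]; ring
  · rw [max_eq_right h, min_eq_left h]
    have : dY a r y ≠ 0 := by linarith
    field_simp

theorem dl_sub (hr : ∀ x y, r x y = 0 ∨ r x y = 1) (x x' : α) :
    pp a b r x x' - pp a b r x' x = dl a b r x - dl a b r x' := by
  unfold pp dl
  rw [← ws_sub, ← ws_sub]
  refine ws_congr fun y => ?_
  ring

theorem pp_nonneg (hb : ∀ y, 0 ≤ b y) (hr : ∀ x y, r x y = 0 ∨ r x y = 1) (x x' : α) :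
    0 ≤ pp a b r x x' := by
  refine ws_nonneg hb fun y => ?_
  have := (vY_pos (a := a) (r := r) y).le
  rcases hr x y with h | h <;> rcases hr x' y with h' | h' <;> rw [h, h'] <;> norm_num <;> exact this

theorem dl_nonneg (hb : ∀ y, 0 ≤ b y) (hr : ∀ x y, r x y = 0 ∨ r x y = 1) (x : α) :
    0 ≤ dl a b r x := by
  refine ws_nonneg hb fun y => ?_
  have := (vY_pos (a := a) (r := r) y).le
  rcases hr x y with h | h <;> rw [h] <;> norm_num; exact this

theorem dl_le (hb : ∀ y, 0 ≤ b y) (hr : ∀ x y, r x y = 0 ∨ r x y = 1) (x : α) :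
    dl a b r x ≤ dX b r x := by
  refine ws_mono hb fun y => ?_
  have := vY_le (a := a) (r := r) y
  rcases hr x y with h | h <;> rw [h] <;> linarith

theorem dY_nonneg (ha : ∀ x, 0 ≤ a x) (hr : ∀ x y, r x y = 0 ∨ r x y = 1) (y : β) :
    0 ≤ dY a r y := by
  refine ws_nonneg ha fun x => ?_
  rcases hr x y with h | h <;> rw [h] <;> norm_num

theorem sum_pp (x : α) : ws a (fun x' => pp a b r x x')
    = ws b (fun y => min 1 (dY a r y) * r x y) := by
  unfold pp
  rw [ws_comm a b (fun x' y => vY a r y * (r x y * (1 - r x' y)))]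
  refine ws_congr fun y => ?_
  rw [← vY_mul]
  have : ∀ x', vY a r y * (r x y * (1 - r x' y)) = (vY a r y * r x y) * (1 - r x' y) := by
    intro x'; ring
  simp_rw [this, ws_mulL]
  unfold dY
  ring

theorem exists_c (ha : ∀ x, 0 ≤ a x) (δ : α → ℝ) (hδ : ∀ x, 0 ≤ δ x)
    (hA : 0.8 ≤ ∑ x, a x) : ∃ c, ws a (fun x => lm c (δ x)) = 0.4 := by
  set f : ℝ → ℝ := fun c => ws a (fun x => lm c (δ x)) with hf
  have hcont : Continuous f := by
    simp only [hf]
    unfold ws lm
    fun_prop
  have h0 : f 0 = 0 := by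
    simp only [hf]
    unfold ws
    refine sum_eq_zero fun x _ => ?_
    have : lm 0 (δ x) = 0 := by
      unfold lm
      rw [max_eq_right (by linarith [hδ x]), min_eq_right (by norm_num)]
    beta_reduce
    rw [this, mul_zero]
  set M := ∑ x, δ x + 1 / 2 with hM
  have hM0 : 0 ≤ M := by
    have : 0 ≤ ∑ x, δ x := sum_nonneg fun x _ => hδ x
    linarith
  have hfM : 0.4 ≤ f M := by
    have e : f M = (∑ x, a x) * (1 / 2) := by
      simp only [hf]
      unfold ws
      rw [sum_mul]
      refine sum_congr rfl fun x _ => ?_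
      have h1 : δ x ≤ ∑ x, δ x := single_le_sum (fun x _ => hδ x) (mem_univ x)
      have : lm M (δ x) = 1 / 2 := lm_cap (by linarith)
      beta_reduce
      rw [this]
    rw [e]
    norm_num at hA ⊢
    linarith
  have := intermediate_value_Icc hM0 hcont.continuousOn
  obtain ⟨c, _, hc⟩ := this ⟨by rw [h0]; norm_num, hfM⟩
  exact ⟨c, hc⟩

/-- The local lemma. -/
theorem local_bound (ha : ∀ x, 0 ≤ a x) (hb : ∀ y, 0 ≤ b y)
    (hr : ∀ x y, r x y = 0 ∨ r x y = 1) (hA : 0.8 ≤ ∑ x, a x) (i : α → ℝ) (j : β → ℝ)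
    (hi : ∀ x, 0 ≤ i x) (hj : ∀ y, 0 ≤ j y) :
    0.256 ≤ ws a (fun x => max (1 - dX b r x - i x) 0 ^ 2)
      + ws b (fun y => max (1 - dY a r y - j y) 0 ^ 2) + T4 a b r
      + 0.8 * (ws a i + ws b j) := by
  have hδ0 : ∀ x, 0 ≤ dl a b r x := dl_nonneg hb hr
  obtain ⟨c, hc⟩ := exists_c ha (dl a b r) hδ0 hA
  set δ := dl a b r with hδ
  set l : α → ℝ := fun x => lm c (δ x) with hl
  have hl0 : ∀ x, 0 ≤ l x := fun x => lm_nonneg _ _
  have hl2 : ∀ x, l x ≤ 1 / 2 := fun x => lm_le _ _
  have hC : ∀ x x', l x * pp a b r x x' + l x' * pp a b r x' x - l x * l x'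
      - Hf (min (l x) (l x')) |(c - δ x - l x) - (c - δ x' - l x')|
      ≤ pp a b r x x' * pp a b r x' x / max 1 (max (pp a b r x x') (pp a b r x' x)) := by
    intro x x'
    refine C_ge (pp_nonneg hb hr x x') (pp_nonneg hb hr x' x) (hl0 x) (hl0 x')
      (by linarith [hl2 x, hl2 x']) ?_ ?_
    · have := dl_sub (a := a) (b := b) hr x x'
      linarith
    · rcases le_total (δ x) (δ x') with h | h
      · left; exact lm_mono h
      · right; exact lm_mono h
  set Hs := ws a (fun x => ws a (fun x' => Hf (min (l x) (l x'))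
    |(c - δ x - l x) - (c - δ x' - l x')|)) with hHs
  set S1 := ws a (fun x => ws a (fun x' => l x * pp a b r x x')) with hS1
  have hT4 : 2 * S1 - 0.16 - Hs ≤ T4 a b r := by
    have e1 : ws a (fun x => ws a (fun x' => (l x * pp a b r x x' + l x' * pp a b r x' x
        - l x * l x' - Hf (min (l x) (l x')) |(c - δ x - l x) - (c - δ x' - l x')|)))
        ≤ T4 a b r := ws_mono ha fun x => ws_mono ha fun x' => hC x x'
    simp_rw [ws_sub, ws_add] at e1
    have e2 : ws a (fun x => ws a (fun x' => l x' * pp a b r x' x)) = S1 := by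
      rw [hS1, ws_comm]
    have e3 : ws a (fun x => ws a (fun x' => l x * l x')) = 0.16 := by
      rw [ws_ws_mul a a l l]
      have : ws a l = 0.4 := hc
      rw [this]
      norm_num
    rw [e2, e3] at e1
    linarith
  set L : β → ℝ := fun y => ws a (fun x => l x * r x y) with hL
  have hL0 : ∀ y, 0 ≤ L y := fun y => ws_nonneg ha fun x => by
    rcases hr x y with h | h <;> rw [h] <;> linarith [hl0 x]
  have hL4 : ∀ y, L y ≤ 0.4 := fun y => by
    rw [← hc]
    refine ws_mono ha fun x => ?_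
    rcases hr x y with h | h <;> rw [h] <;> simp only [hl] at * <;> linarith [hl0 x]
  have hS1eq : S1 = ws b (fun y => min 1 (dY a r y) * L y) := by
    rw [hS1]
    have e1 : ∀ x, ws a (fun x' => l x * pp a b r x x')
        = ws b (fun y => l x * (min 1 (dY a r y) * r x y)) := by
      intro x
      rw [ws_mulL, ws_mulL, sum_pp]
    simp_rw [e1]
    rw [ws_comm a b (fun x y => l x * (min 1 (dY a r y) * r x y))]
    refine ws_congr fun y => ?_
    rw [hL, ← ws_mulL]
    refine ws_congr fun x => ?_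
    ring
  have hyp : 1.6 * ws b L - 0.8 * ws b j ≤ ws b (fun y => max (1 - dY a r y - j y) 0 ^ 2) + 2 * S1 := by
    rw [hS1eq, ← ws_mulL, ← ws_mulL, ← ws_mulL, ← ws_sub, ← ws_add]
    exact ws_mono hb fun y => y_part (dY_nonneg ha hr y) (hj y) (hL0 y) (hL4 y)
  have hLd : ws b L = ws a (fun x => l x * dX b r x) := by
    rw [hL, ws_comm b a (fun y x => l x * r x y)]
    exact ws_congr fun x => ws_mulL _ _ _
  have hxp : ws a (fun x => qf (l x) (dX b r x + i x)) - 0.8 * ws a i
      ≤ ws a (fun x => max (1 - dX b r x - i x) 0 ^ 2) + 1.6 * ws a (fun x => l x * dX b r x) := by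
    rw [← ws_mulL, ← ws_mulL, ← ws_sub, ← ws_add]
    exact ws_mono ha fun x => x_part (hi x) (hl2 x)
  have hprof := profile a ha δ (fun x => dX b r x + i x) hδ0
    (fun x => by
      have := dl_le (a := a) (b := b) hb hr x
      have := hi x
      simp only [hδ]
      linarith) c hc
  have hprof' : 0.256 ≤ ws a (fun x => qf (l x) (dX b r x + i x)) - Hs - 0.16 := hprof
  rw [hLd] at hyp
  linarith

end Bipartite

end Pool.Agent.H5.SF
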