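import Pool.Agent.H5SF.CertE1
import Pool.Agent.H5SF.CertE2

/-!
# Weighted oriented graphs with marked directed 2-paths: basic quantities
-/

namespace Pool.Agent.H5.SF

open Finset Pool.Agent.H5

/-- Directed path on three vertices whose ends are not joined. -/
def IsP2 {V : Type*} (arc : V → V → Prop) (u m v : V) : Prop :=
  arc u m ∧ arc m v ∧ ¬ arc u v ∧ ¬ arc v u

/-- A finite oriented graph with positive vertex weights of total 1 and a set of marked induced
directed 2-paths meeting every induced directed 4-cycle. -/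
structure Sys (V : Type*) [Fintype V] where
  w : V → ℝ
  pos : ∀ v, 0 < w v
  one : ∑ v, w v = 1
  arc : V → V → Prop
  asymm : ∀ u v, arc u v → ¬ arc v u
  ex : V → V → V → Prop
  ex12 : ∀ a b c, ex a b c → ex b a c
  ex23 : ∀ a b c, ex a b c → ex a c b
  exP : ∀ a b c, ex a b c → IsP2 arc a b c ∨ IsP2 arc a c b ∨ IsP2 arc b a c ∨ IsP2 arc b c a ∨
    IsP2 arc c a b ∨ IsP2 arc c b a
  c4 : ∀ a b c d, arc a b → arc b c → arc c d → arc d a → ¬ arc a c → ¬ arc c a →
    ¬ arc b d → ¬ arc d b → ex a b c ∨ ex b c d ∨ ex c d a ∨ ex d a b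

namespace Sys

variable {V : Type*} [Fintype V] (S : Sys V)

/-- Average over the vertices. -/
noncomputable def E (f : V → ℝ) : ℝ := ∑ v, S.w v * f v

theorem E_add (f g : V → ℝ) : S.E (fun v => f v + g v) = S.E f + S.E g := by
  unfold E; rw [← sum_add_distrib]; exact sum_congr rfl fun v _ => by ring

theorem E_sub (f g : V → ℝ) : S.E (fun v => f v - g v) = S.E f - S.E g := by
  unfold E; rw [← sum_sub_distrib]; exact sum_congr rfl fun v _ => by ring

theorem E_mulL (c : ℝ) (f : V → ℝ) : S.E (fun v => c * f v) = c * S.E f := by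
  unfold E; rw [mul_sum]; exact sum_congr rfl fun v _ => by ring

theorem E_mulR (c : ℝ) (f : V → ℝ) : S.E (fun v => f v * c) = S.E f * c := by
  unfold E; rw [sum_mul]; exact sum_congr rfl fun v _ => by ring

theorem E_const (c : ℝ) : S.E (fun _ => c) = c := by
  unfold E; rw [← sum_mul, S.one, one_mul]

theorem E_mono {f g : V → ℝ} (h : ∀ v, f v ≤ g v) : S.E f ≤ S.E g :=
  sum_le_sum fun v _ => mul_le_mul_of_nonneg_left (h v) (S.pos v).le

theorem E_nonneg {f : V → ℝ} (h : ∀ v, 0 ≤ f v) : 0 ≤ S.E f :=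
  sum_nonneg fun v _ => mul_nonneg (S.pos v).le (h v)

theorem E_congr {f g : V → ℝ} (h : ∀ v, f v = g v) : S.E f = S.E g := by
  congr 1; funext v; exact h v

theorem E_comm (F : V → V → ℝ) :
    S.E (fun x => S.E (fun y => F x y)) = S.E (fun y => S.E (fun x => F x y)) := by
  unfold E
  simp_rw [mul_sum]
  rw [sum_comm]
  exact sum_congr rfl fun y _ => sum_congr rfl fun x _ => by ring

theorem E_E_mul (f g : V → ℝ) : S.E (fun x => S.E (fun y => f x * g y)) = S.E f * S.E g := by
  have : ∀ x, S.E (fun y => f x * g y) = f x * S.E g := fun x => S.E_mulL _ _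
  simp_rw [this]
  exact S.E_mulR _ _

/-- Triple average. -/
noncomputable def E3 (F : V → V → V → ℝ) : ℝ := S.E fun a => S.E fun b => S.E fun c => F a b c

theorem E3_add (F G : V → V → V → ℝ) :
    S.E3 (fun a b c => F a b c + G a b c) = S.E3 F + S.E3 G := by
  unfold E3; simp_rw [S.E_add]

theorem E3_sub (F G : V → V → V → ℝ) :
    S.E3 (fun a b c => F a b c - G a b c) = S.E3 F - S.E3 G := by
  unfold E3; simp_rw [S.E_sub]

theorem E3_mulL (r : ℝ) (F : V → V → V → ℝ) :
    S.E3 (fun a b c => r * F a b c) = r * S.E3 F := by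
  unfold E3; simp_rw [S.E_mulL]

theorem E3_const (r : ℝ) : S.E3 (fun _ _ _ => r) = r := by
  unfold E3; simp_rw [S.E_const]

theorem E3_mono {F G : V → V → V → ℝ} (h : ∀ a b c, F a b c ≤ G a b c) : S.E3 F ≤ S.E3 G :=
  S.E_mono fun a => S.E_mono fun b => S.E_mono fun c => h a b c

theorem E3_congr {F G : V → V → V → ℝ} (h : ∀ a b c, F a b c = G a b c) : S.E3 F = S.E3 G := by
  congr 1; funext a b c; exact h a b c

theorem E3_swap12 (F : V → V → V → ℝ) : S.E3 (fun a b c => F b a c) = S.E3 F := by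
  unfold E3
  exact S.E_comm (fun a b => S.E fun c => F b a c)

theorem E3_swap23 (F : V → V → V → ℝ) : S.E3 (fun a b c => F a c b) = S.E3 F := by
  unfold E3
  refine S.E_congr fun a => ?_
  exact S.E_comm (fun b c => F a c b)

theorem E3_eq_sum (F : V → V → V → ℝ) :
    S.E3 F = ∑ a, ∑ b, ∑ c, S.w a * S.w b * S.w c * F a b c := by
  unfold E3 E
  simp_rw [mul_sum]
  exact sum_congr rfl fun a _ => sum_congr rfl fun b _ => sum_congr rfl fun c _ => by ring

/-- For a product with a common first variable. -/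
theorem E3_center (F G : V → V → ℝ) :
    S.E3 (fun a b c => F a b * G a c) = S.E fun a => S.E (F a) * S.E (G a) := by
  unfold E3
  exact S.E_congr fun a => S.E_E_mul (F a) (G a)

open Classical in
/-- Arc indicator. -/
noncomputable def O (u v : V) : ℝ := if S.arc u v then 1 else 0

/-- Adjacency indicator. -/
noncomputable def A (u v : V) : ℝ := S.O u v + S.O v u

/-- Non-adjacency indicator. -/
noncomputable def N (u v : V) : ℝ := 1 - S.A u v

/-- The three possibilities for a pair. -/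
theorem cases3 (u v : V) :
    (S.arc u v ∧ ¬ S.arc v u ∧ S.O u v = 1 ∧ S.O v u = 0) ∨
    (¬ S.arc u v ∧ S.arc v u ∧ S.O u v = 0 ∧ S.O v u = 1) ∨
    (¬ S.arc u v ∧ ¬ S.arc v u ∧ S.O u v = 0 ∧ S.O v u = 0) := by
  unfold O
  by_cases h1 : S.arc u v
  · have h2 := S.asymm u v h1
    simp [h1, h2]
  · by_cases h2 : S.arc v u <;> simp [h1, h2]

theorem A_symm (u v : V) : S.A u v = S.A v u := by unfold A; ring

theorem N_symm (u v : V) : S.N u v = S.N v u := by unfold N; rw [S.A_symm]

theorem A01 (u v : V) : S.A u v = 0 ∨ S.A u v = 1 := by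
  unfold A
  rcases S.cases3 u v with h | h | h <;> rw [h.2.2.1, h.2.2.2] <;> norm_num

theorem O01 (u v : V) : S.O u v = 0 ∨ S.O u v = 1 := by
  rcases S.cases3 u v with h | h | h
  · exact Or.inr h.2.2.1
  · exact Or.inl h.2.2.1
  · exact Or.inl h.2.2.1

theorem A_nonneg (u v : V) : 0 ≤ S.A u v := by rcases S.A01 u v with h | h <;> rw [h]; norm_num
theorem A_le (u v : V) : S.A u v ≤ 1 := by rcases S.A01 u v with h | h <;> rw [h]; norm_num
theorem N_nonneg (u v : V) : 0 ≤ S.N u v := by unfold N; linarith [S.A_le u v]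
theorem N_le (u v : V) : S.N u v ≤ 1 := by unfold N; linarith [S.A_nonneg u v]
theorem O_nonneg (u v : V) : 0 ≤ S.O u v := by rcases S.O01 u v with h | h <;> rw [h]; norm_num
theorem O_le (u v : V) : S.O u v ≤ 1 := by rcases S.O01 u v with h | h <;> rw [h]; norm_num

/-- At most one adjacent pair in a triple. -/
noncomputable def le1 (a b c : V) : ℝ :=
  S.N a b * S.N a c + S.N a b * S.N b c + S.N a c * S.N b c - 2 * (S.N a b * S.N a c * S.N b c)

/-- A vertex with arcs to both others. -/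
noncomputable def out2 (a b c : V) : ℝ :=
  S.O a b * S.O a c + S.O b a * S.O b c + S.O c a * S.O c b

/-- Edges given by the oriented graph. -/
noncomputable def hB (a b c : V) : ℝ := S.le1 a b c + S.out2 a b c

open Classical in
/-- Marks as numbers. -/
noncomputable def ep (a b c : V) : ℕ := if S.ex a b c then 1 else 0

/-- Marks. -/
noncomputable def X (a b c : V) : ℝ := S.ep a b c

/-- Indicator of the edges. -/
noncomputable def hR (a b c : V) : ℝ := S.hB a b c + S.X a b c

theorem ep12 (a b c : V) : S.ep b a c = S.ep a b c := by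
  unfold ep
  by_cases h : S.ex a b c
  · rw [if_pos h, if_pos (S.ex12 _ _ _ h)]
  · rw [if_neg h, if_neg (fun h' => h (S.ex12 _ _ _ h'))]

theorem ep23 (a b c : V) : S.ep a c b = S.ep a b c := by
  unfold ep
  by_cases h : S.ex a b c
  · rw [if_pos h, if_pos (S.ex23 _ _ _ h)]
  · rw [if_neg h, if_neg (fun h' => h (S.ex23 _ _ _ h'))]

theorem ep_le (a b c : V) : S.ep a b c ≤ 1 := by unfold ep; split_ifs <;> norm_num

theorem ep_one {a b c : V} : S.ep a b c = 1 ↔ S.ex a b c := by
  unfold ep; split_ifs with h <;> simp [h]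

theorem X12 (a b c : V) : S.X b a c = S.X a b c := by unfold X; rw [S.ep12]
theorem X23 (a b c : V) : S.X a c b = S.X a b c := by unfold X; rw [S.ep23]
theorem X_nonneg (a b c : V) : 0 ≤ S.X a b c := by unfold X; positivity
theorem X_le (a b c : V) : S.X a b c ≤ 1 := by unfold X; exact_mod_cast S.ep_le a b c
theorem X_one {a b c : V} (h : S.ex a b c) : S.X a b c = 1 := by
  unfold X; rw [S.ep_one.mpr h]; norm_num

/-- Edge density. -/
noncomputable def h : ℝ := S.E3 S.hR

/-- Weight of non-neighbours. -/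
noncomputable def d0 (v : V) : ℝ := S.E fun b => S.N v b

/-- Out-degree. -/
noncomputable def dp (v : V) : ℝ := S.E fun b => S.O v b

/-- In-degree. -/
noncomputable def dm (v : V) : ℝ := S.E fun b => S.O b v

/-- Density of the underlying graph. -/
noncomputable def e : ℝ := S.E fun a => S.E fun b => S.A a b

/-- Deficit of the out-degree. -/
noncomputable def g (v : V) : ℝ := 1 / 3 - S.dp v

/-- Second moment of the deficit. -/
noncomputable def G : ℝ := S.E fun v => S.g v ^ 2

/-- One third of the density of triples with exactly one adjacent pair. -/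
noncomputable def eta : ℝ := S.E3 fun a b c => S.N a b * S.N a c * S.A b c

/-- Density of complete quadruples. -/
noncomputable def k4 : ℝ := S.E3 fun a b c => S.E fun d =>
  S.A a b * S.A a c * S.A b c * (S.A a d * S.A b d * S.A c d)

theorem deg_sum (v : V) : S.d0 v + S.dp v + S.dm v = 1 := by
  unfold d0 dp dm
  rw [← S.E_add, ← S.E_add]
  have : ∀ b, S.N v b + S.O v b + S.O b v = 1 := by
    intro b; unfold N A; ring
  simp_rw [this]
  exact S.E_const 1

theorem E_dp : S.E S.dp = S.e / 2 := by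
  have h1 : S.e = S.E S.dp + S.E S.dp := by
    unfold e A
    simp_rw [S.E_add]
    congr 1
    exact S.E_comm _
  linarith

theorem E_g : S.E S.g = 1 / 3 - S.e / 2 := by
  unfold g
  rw [S.E_sub, S.E_const, ← S.E_dp]

theorem E3_out2 : S.E3 S.out2 = 3 * S.E fun v => S.dp v ^ 2 := by
  unfold out2
  rw [S.E3_add, S.E3_add]
  have e1 : S.E3 (fun a b c => S.O a b * S.O a c) = S.E fun v => S.dp v ^ 2 := by
    rw [S.E3_center (fun a b => S.O a b) (fun a c => S.O a c)]
    exact S.E_congr fun v => by unfold dp; ring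
  have e2 : S.E3 (fun a b c => S.O b a * S.O b c) = S.E3 (fun a b c => S.O a b * S.O a c) :=
    S.E3_swap12 (fun a b c => S.O a b * S.O a c)
  have e3 : S.E3 (fun a b c => S.O c a * S.O c b) = S.E3 (fun a b c => S.O b a * S.O b c) :=
    S.E3_swap23 (fun a b c => S.O b a * S.O b c)
  rw [e3, e2, e1]
  ring

theorem E_dp_sq : (S.E fun v => S.dp v ^ 2) = -1 / 9 + S.e / 3 + S.G := by
  have : ∀ v, S.dp v ^ 2 = -(1 / 9) + (2 / 3) * S.dp v + S.g v ^ 2 := by
    intro v; unfold g; ring
  simp_rw [this]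
  rw [S.E_add, S.E_add, S.E_const, S.E_mulL, S.E_dp]
  unfold G
  ring

theorem h_eq : S.h = S.E3 S.le1 + (S.e - 1 / 3 + 3 * S.G) + S.E3 S.X := by
  unfold h hR hB
  rw [S.E3_add, S.E3_add, S.E3_out2, S.E_dp_sq]
  ring

theorem eta_nonneg : 0 ≤ S.eta := by
  unfold eta
  rw [← S.E3_const 0]
  exact S.E3_mono fun a b c => mul_nonneg (mul_nonneg (S.N_nonneg _ _) (S.N_nonneg _ _)) (S.A_nonneg _ _)

theorem G_nonneg : 0 ≤ S.G := S.E_nonneg fun v => sq_nonneg _

theorem k4_nonneg : 0 ≤ S.k4 := by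
  unfold k4
  rw [← S.E3_const 0]
  refine S.E3_mono fun a b c => S.E_nonneg fun d => ?_
  have := S.A_nonneg
  exact mul_nonneg (mul_nonneg (mul_nonneg (this _ _) (this _ _)) (this _ _))
    (mul_nonneg (mul_nonneg (this _ _) (this _ _)) (this _ _))

/-! ### Relation codes -/

open Classical in
noncomputable def code (u v : V) : ℕ := if S.arc u v then 1 else if S.arc v u then 2 else 0

theorem code_lt (u v : V) : S.code u v < 3 := by unfold code; split_ifs <;> norm_num

theorem code_flip (u v : V) : S.code v u = flip3 (S.code u v) := by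
  unfold code
  by_cases h1 : S.arc u v
  · have := S.asymm u v h1
    simp [h1, this, flip3]
  · by_cases h2 : S.arc v u
    · simp [h1, h2, flip3]
    · simp [h1, h2, flip3]

/-- Code and indicators. -/
theorem code_cases (u v : V) :
    (S.code u v = 1 ∧ S.O u v = 1 ∧ S.O v u = 0) ∨ (S.code u v = 2 ∧ S.O u v = 0 ∧ S.O v u = 1) ∨
    (S.code u v = 0 ∧ S.O u v = 0 ∧ S.O v u = 0) := by
  unfold code
  rcases S.cases3 u v with h | h | h
  · left; simp [h.1, h.2.2.1, h.2.2.2]
  · right; left; simp [h.1, h.2.1, h.2.2.1, h.2.2.2]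
  · right; right; simp [h.1, h.2.1, h.2.2.1, h.2.2.2]

theorem arc_of_code {u v : V} (h : S.code u v = 1) : S.arc u v := by
  unfold code at h
  by_contra hn
  rw [if_neg hn] at h
  split_ifs at h
  all_goals omega

theorem non_of_code {u v : V} (h : S.code u v = 0) : ¬ S.arc u v ∧ ¬ S.arc v u := by
  unfold code at h
  constructor
  · intro hn
    rw [if_pos hn] at h
    omega
  · intro hn
    by_cases h2 : S.arc u v
    · rw [if_pos h2] at h
      omega
    · rw [if_neg h2, if_pos hn] at h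
      omega

theorem code_p2 {u m v : V} (h : IsP2 S.arc u m v) :
    code3 (S.code u v) (S.code u m) (S.code v m) = 5 := by
  obtain ⟨h1, h2, h3, h4⟩ := h
  have c1 : S.code u v = 0 := by unfold code; rw [if_neg h3, if_neg h4]
  have c2 : S.code u m = 1 := by unfold code; rw [if_pos h1]
  have c3 : S.code v m = 2 := by unfold code; rw [if_neg (S.asymm _ _ h2), if_pos h2]
  rw [c1, c2, c3]
  rfl

theorem mark : Mark S.code S.ep where
  le1 := S.ep_le
  s12 := S.ep12
  s23 := S.ep23
  p2 a b c h := by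
    rcases S.exP a b c (S.ep_one.mp h) with h | h | h | h | h | h
    · exact Or.inr (Or.inl (S.code_p2 h))
    · exact Or.inl (S.code_p2 h)
    · exact Or.inr (Or.inr (Or.inr (Or.inl (S.code_p2 h))))
    · exact Or.inr (Or.inr (Or.inl (S.code_p2 h)))
    · exact Or.inr (Or.inr (Or.inr (Or.inr (Or.inr (S.code_p2 h)))))
    · exact Or.inr (Or.inr (Or.inr (Or.inr (Or.inl (S.code_p2 h)))))
  c4 a b c d h1 h2 h3 h4 h5 h6 := by
    have h7 := S.non_of_code h5
    have h8 := S.non_of_code h6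
    rw [S.ep_one, S.ep_one, S.ep_one, S.ep_one]
    exact S.c4 a b c d (S.arc_of_code h1) (S.arc_of_code h2) (S.arc_of_code h3) (S.arc_of_code h4)
      h7.1 h7.2 h8.1 h8.2

/-- Indicator of exactly one adjacent pair. -/
noncomputable def ex1 (a b c : V) : ℝ :=
  S.N a b * S.N a c * S.A b c + S.N a b * S.A a c * S.N b c + S.A a b * S.N a c * S.N b c

theorem hv_eq (a b c : V) : (hv (S.code a b) (S.code a c) (S.code b c) : ℝ) = S.hB a b c := by
  unfold hB le1 out2 N A
  rcases S.code_cases a b with ⟨h1, h2, h3⟩ | ⟨h1, h2, h3⟩ | ⟨h1, h2, h3⟩ <;>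
  rcases S.code_cases a c with ⟨h4, h5, h6⟩ | ⟨h4, h5, h6⟩ | ⟨h4, h5, h6⟩ <;>
  rcases S.code_cases b c with ⟨h7, h8, h9⟩ | ⟨h7, h8, h9⟩ | ⟨h7, h8, h9⟩ <;>
  rw [h1, h2, h3, h4, h5, h6, h7, h8, h9] <;> norm_num [hv]

theorem ex1_eq (a b c : V) :
    (if (S.code a b ≠ 0 ∧ S.code a c = 0 ∧ S.code b c = 0) ∨
      (S.code a b = 0 ∧ S.code a c ≠ 0 ∧ S.code b c = 0) ∨
      (S.code a b = 0 ∧ S.code a c = 0 ∧ S.code b c ≠ 0) then (1 : ℝ) else 0) = S.ex1 a b c := by
  unfold ex1 N A
  rcases S.code_cases a b with ⟨h1, h2, h3⟩ | ⟨h1, h2, h3⟩ | ⟨h1, h2, h3⟩ <;>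
  rcases S.code_cases a c with ⟨h4, h5, h6⟩ | ⟨h4, h5, h6⟩ | ⟨h4, h5, h6⟩ <;>
  rcases S.code_cases b c with ⟨h7, h8, h9⟩ | ⟨h7, h8, h9⟩ | ⟨h7, h8, h9⟩ <;>
  rw [h1, h2, h3, h4, h5, h6, h7, h8, h9] <;> norm_num

theorem out2_eq (a b c : V) :
    (if (S.code a b = 1 ∧ S.code a c = 1) ∨ (S.code a b = 2 ∧ S.code b c = 1) ∨
      (S.code a c = 2 ∧ S.code b c = 2) then (1 : ℝ) else 0) = S.out2 a b c := by
  unfold out2
  rcases S.code_cases a b with ⟨h1, h2, h3⟩ | ⟨h1, h2, h3⟩ | ⟨h1, h2, h3⟩ <;>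
  rcases S.code_cases a c with ⟨h4, h5, h6⟩ | ⟨h4, h5, h6⟩ | ⟨h4, h5, h6⟩ <;>
  rcases S.code_cases b c with ⟨h7, h8, h9⟩ | ⟨h7, h8, h9⟩ | ⟨h7, h8, h9⟩ <;>
  rw [h1, h2, h3, h4, h5, h6, h7, h8, h9] <;> norm_num

theorem adj_eq (a b : V) : (if S.code a b = 0 then (0 : ℝ) else 1) = S.A a b := by
  unfold A
  rcases S.code_cases a b with ⟨h1, h2, h3⟩ | ⟨h1, h2, h3⟩ | ⟨h1, h2, h3⟩ <;>
  rw [h1, h2, h3] <;> norm_num

theorem E3_ex1 : S.E3 S.ex1 = 3 * S.eta := by
  unfold ex1
  rw [S.E3_add, S.E3_add]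
  have e1 : S.E3 (fun a b c => S.N a b * S.A a c * S.N b c) = S.eta := by
    unfold eta
    rw [← S.E3_swap12 (fun a b c => S.N a b * S.N a c * S.A b c)]
    refine S.E3_congr fun a b c => ?_
    rw [S.N_symm b a]
    ring
  have e2 : S.E3 (fun a b c => S.A a b * S.N a c * S.N b c) = S.eta := by
    rw [← e1, ← S.E3_swap23 (fun a b c => S.N a b * S.A a c * S.N b c)]
    refine S.E3_congr fun a b c => ?_
    rw [S.N_symm c b]
    ring
  have e3 : S.E3 (fun a b c => S.N a b * S.N a c * S.A b c) = S.eta := rfl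
  rw [e1, e2, e3]
  ring

theorem E3_adj : S.E3 (fun a b _ => S.A a b) = S.e := by
  unfold E3 e
  simp_rw [S.E_const]

/-- First certificate. -/
theorem cert1 : 0.44363 + 1 / 20 * (2 / 3 - S.e) ≤ S.h := by
  have hmain := CertE1.main S.w (fun v => (S.pos v).le) S.one S.code S.ep S.code_lt S.code_flip
    S.mark
  have hlin : ∀ a b c d : V, (Pool.Agent.H5.W.linOf CertE1.ctab CertE1.linT
      (code3 (S.code a b) (S.code a c) (S.code b c))
      (code3 (S.code a d) (S.code b d) (S.code c d)) : ℤ) = 0 := by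
    intro a b c d
    unfold Pool.Agent.H5.W.linOf CertE1.linT
    split_ifs <;> rfl
  simp_rw [hlin] at hmain
  simp only [Int.cast_zero, mul_zero, sum_const_zero, sub_zero] at hmain
  have hb : ∀ a b c : V, ((baseOf CertE1.bt CertE1.C3 (code3 (S.code a b) (S.code a c) (S.code b c))
      + 90000000000 * (S.ep a b c : ℤ) : ℤ) : ℝ)
      = 90000000000 * S.hR a b c + 4500000000 * S.A a b - 42926700000 := by
    intro a b c
    rw [CertE1.base_val _ (S.code_lt a b) _ (S.code_lt a c) _ (S.code_lt b c)]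
    unfold hR X
    rw [← S.hv_eq, ← S.adj_eq]
    push_cast
    ring
  simp_rw [hb] at hmain
  rw [← S.E3_eq_sum (fun a b c => 90000000000 * S.hR a b c + 4500000000 * S.A a b - 42926700000)] at hmain
  rw [S.E3_sub, S.E3_add, S.E3_mulL, S.E3_mulL, S.E3_adj, S.E3_const] at hmain
  have : S.E3 S.hR = S.h := rfl
  rw [this] at hmain
  linarith

/-- Linear term of the second certificate. -/
noncomputable def L2 (a b c d : V) : ℝ :=
  (Pool.Agent.H5.W.linOf CertE2.ctab CertE2.linT (code3 (S.code a b) (S.code a c) (S.code b c))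
      (code3 (S.code a d) (S.code b d) (S.code c d)) : ℝ)

theorem L2_sum (a b c d : V) :
    S.L2 a b c d + S.L2 a c b d + S.L2 b a c d + S.L2 b c a d + S.L2 c a b d + S.L2 c b a d
    = 40500000000 * (S.A a b * S.A a c * S.A b c * (S.A a d * S.A b d * S.A c d)) := by
  have h := CertE2.lin_val _ (S.code_lt a b) _ (S.code_lt a c) _ (S.code_lt b c)
    _ (S.code_lt a d) _ (S.code_lt b d) _ (S.code_lt c d)
  simp only [← S.code_flip] at h
  have h' : ((Pool.Agent.H5.W.linOf CertE2.ctab CertE2.linT (code3 (S.code a b) (S.code a c) (S.code b c))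
      (code3 (S.code a d) (S.code b d) (S.code c d))
      + Pool.Agent.H5.W.linOf CertE2.ctab CertE2.linT (code3 (S.code a c) (S.code a b) (S.code c b))
      (code3 (S.code a d) (S.code c d) (S.code b d))
      + Pool.Agent.H5.W.linOf CertE2.ctab CertE2.linT (code3 (S.code b a) (S.code b c) (S.code a c))
      (code3 (S.code b d) (S.code a d) (S.code c d))
      + Pool.Agent.H5.W.linOf CertE2.ctab CertE2.linT (code3 (S.code b c) (S.code b a) (S.code c a))
      (code3 (S.code b d) (S.code c d) (S.code a d))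
      + Pool.Agent.H5.W.linOf CertE2.ctab CertE2.linT (code3 (S.code c a) (S.code c b) (S.code a b))
      (code3 (S.code c d) (S.code a d) (S.code b d))
      + Pool.Agent.H5.W.linOf CertE2.ctab CertE2.linT (code3 (S.code c b) (S.code c a) (S.code b a))
      (code3 (S.code c d) (S.code b d) (S.code a d)) : ℤ) : ℝ)
      = ((40500000000 * (if S.code a b = 0 ∨ S.code a c = 0 ∨ S.code b c = 0 ∨ S.code a d = 0 ∨
        S.code b d = 0 ∨ S.code c d = 0 then 0 else 1) : ℤ) : ℝ) := by
    exact_mod_cast h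
  push_cast at h'
  unfold L2
  rw [h']
  congr 1
  rw [← S.adj_eq, ← S.adj_eq, ← S.adj_eq, ← S.adj_eq, ← S.adj_eq, ← S.adj_eq]
  by_cases h1 : S.code a b = 0
  · simp [h1]
  by_cases h2 : S.code a c = 0
  · simp [h2]
  by_cases h3 : S.code b c = 0
  · simp [h3]
  by_cases h4 : S.code a d = 0
  · simp [h4]
  by_cases h5 : S.code b d = 0
  · simp [h5]
  by_cases h6 : S.code c d = 0
  · simp [h6]
  simp [h1, h2, h3, h4, h5, h6]

/-- Second certificate. -/
theorem cert2 : 0.444157 + 0.5 * S.eta + 0.8 * S.G + 0.15 * S.k4 ≤ S.h := by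
  have hmain := CertE2.main S.w (fun v => (S.pos v).le) S.one S.code S.ep S.code_lt S.code_flip
    S.mark
  have hb : ∀ a b c : V, ((baseOf CertE2.bt CertE2.C3 (code3 (S.code a b) (S.code a c) (S.code b c))
      + 90000000000 * (S.ep a b c : ℤ) : ℤ) : ℝ)
      = 90000000000 * S.hR a b c - 15000000000 * S.ex1 a b c - 24000000000 * S.out2 a b c
        + 24000000000 * S.A a b - 47974130000 := by
    intro a b c
    rw [CertE2.base_val _ (S.code_lt a b) _ (S.code_lt a c) _ (S.code_lt b c)]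
    unfold hR X
    rw [← S.hv_eq, ← S.adj_eq, ← S.ex1_eq, ← S.out2_eq]
    push_cast
    ring
  simp_rw [hb] at hmain
  rw [← S.E3_eq_sum (fun a b c => 90000000000 * S.hR a b c - 15000000000 * S.ex1 a b c
    - 24000000000 * S.out2 a b c + 24000000000 * S.A a b - 47974130000)] at hmain
  rw [S.E3_sub, S.E3_add, S.E3_sub, S.E3_sub, S.E3_mulL, S.E3_mulL, S.E3_mulL, S.E3_mulL, S.E3_adj,
    S.E3_const, S.E3_ex1, S.E3_out2, S.E_dp_sq] at hmain
  have hh : S.E3 S.hR = S.h := rfl
  rw [hh] at hmain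
  have hl : ∑ a, ∑ b, ∑ c, ∑ d, S.w a * S.w b * S.w c * S.w d *
      (Pool.Agent.H5.W.linOf CertE2.ctab CertE2.linT (code3 (S.code a b) (S.code a c) (S.code b c))
      (code3 (S.code a d) (S.code b d) (S.code c d)) : ℝ)
      = S.E3 (fun a b c => S.E fun d => S.L2 a b c d) := by
    rw [S.E3_eq_sum]
    refine sum_congr rfl fun a _ => sum_congr rfl fun b _ => sum_congr rfl fun c _ => ?_
    unfold E
    rw [mul_sum]
    refine sum_congr rfl fun d _ => ?_
    unfold L2
    ring
  rw [hl] at hmain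
  have p1 : S.E3 (fun a b c => S.E fun d => S.L2 a c b d) = S.E3 (fun a b c => S.E fun d => S.L2 a b c d) :=
    S.E3_swap23 (fun a b c => S.E fun d => S.L2 a b c d)
  have p2 : S.E3 (fun a b c => S.E fun d => S.L2 b a c d) = S.E3 (fun a b c => S.E fun d => S.L2 a b c d) :=
    S.E3_swap12 (fun a b c => S.E fun d => S.L2 a b c d)
  have p3 : S.E3 (fun a b c => S.E fun d => S.L2 b c a d) = S.E3 (fun a b c => S.E fun d => S.L2 a b c d) := by
    rw [← p1]
    exact S.E3_swap12 (fun a b c => S.E fun d => S.L2 a c b d)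
  have p4 : S.E3 (fun a b c => S.E fun d => S.L2 c a b d) = S.E3 (fun a b c => S.E fun d => S.L2 a b c d) := by
    rw [← p2]
    exact S.E3_swap23 (fun a b c => S.E fun d => S.L2 b a c d)
  have p5 : S.E3 (fun a b c => S.E fun d => S.L2 c b a d) = S.E3 (fun a b c => S.E fun d => S.L2 a b c d) := by
    rw [← p4]
    exact S.E3_swap12 (fun a b c => S.E fun d => S.L2 c a b d)
  have hs : 6 * S.E3 (fun a b c => S.E fun d => S.L2 a b c d) = 40500000000 * S.k4 := by
    have e1 : S.E3 (fun a b c => S.E fun d => (S.L2 a b c d + S.L2 a c b d + S.L2 b a c d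
        + S.L2 b c a d + S.L2 c a b d + S.L2 c b a d)) = 40500000000 * S.k4 := by
      unfold k4
      rw [← S.E3_mulL]
      refine S.E3_congr fun a b c => ?_
      rw [← S.E_mulL]
      exact S.E_congr fun d => S.L2_sum a b c d
    have e2 : S.E3 (fun a b c => S.E fun d => (S.L2 a b c d + S.L2 a c b d + S.L2 b a c d
        + S.L2 b c a d + S.L2 c a b d + S.L2 c b a d))
        = S.E3 (fun a b c => S.E fun d => S.L2 a b c d) + S.E3 (fun a b c => S.E fun d => S.L2 a c b d)
        + S.E3 (fun a b c => S.E fun d => S.L2 b a c d) + S.E3 (fun a b c => S.E fun d => S.L2 b c a d)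
        + S.E3 (fun a b c => S.E fun d => S.L2 c a b d) + S.E3 (fun a b c => S.E fun d => S.L2 c b a d) := by
      simp only [← S.E3_add, ← S.E_add]
    rw [p1, p2, p3, p4, p5] at e2
    linarith
  linarith

end Sys

end Pool.Agent.H5.SF
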