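import Pool.Agent.H5SF.SPtw
import Pool.Agent.H5SF.LCount

/-!
# The final contradiction
-/

namespace Pool.Agent.H5.SF

open Finset

namespace Sys

variable {V : Type*} [Fintype V] (S : Sys V) (c : V → Fin 3)

/-- Out-weight into part `j`. -/
noncomputable def o (j : Fin 3) (v : V) : ℝ := S.E fun b => I c j b * S.O v b

/-- Inner weight of part `i`. -/
noncomputable def pin (i : Fin 3) : ℝ := S.E fun x => S.E fun y => I c i x * I c i y * S.A x y

theorem o_nonneg (j : Fin 3) (v : V) : 0 ≤ S.o c j v :=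
  S.E_nonneg fun b => mul_nonneg (I_nonneg c j b) (S.O_nonneg v b)

theorem o_le (j : Fin 3) (v : V) : S.o c j v ≤ S.a c j := by
  unfold o a
  refine S.E_mono fun b => ?_
  have := S.O_le v b
  have := I_nonneg c j b
  nlinarith

theorem dp_eq (v : V) : S.dp v = S.o c 0 v + S.o c 1 v + S.o c 2 v := by
  unfold dp o
  exact S.E_part c (fun b => S.O v b)

theorem pin_nonneg (i : Fin 3) : 0 ≤ S.pin c i :=
  S.E_nonneg fun x => S.E_nonneg fun y =>
    mul_nonneg (mul_nonneg (I_nonneg c i x) (I_nonneg c i y)) (S.A_nonneg x y)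

theorem pin_sum : S.pin c 0 + S.pin c 1 + S.pin c 2 = S.E (S.p c) := by
  unfold pin p
  rw [← S.E_add, ← S.E_add]
  refine S.E_congr fun x => ?_
  rw [← S.E_add, ← S.E_add]
  refine S.E_congr fun y => ?_
  rw [sm_eq]
  ring

theorem pin_half (i : Fin 3) : S.E (fun x => I c i x * S.o c i x) = S.pin c i / 2 := by
  have h1 : S.E (fun x => I c i x * S.o c i x)
      = S.E (fun x => S.E fun y => I c i x * I c i y * S.O x y) := by
    refine S.E_congr fun x => ?_
    unfold o
    rw [← S.E_mulL]
    refine S.E_congr fun y => ?_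
    ring
  have h2 : S.pin c i = S.E (fun x => S.E fun y => I c i x * I c i y * S.O x y)
      + S.E (fun x => S.E fun y => I c i x * I c i y * S.O y x) := by
    unfold pin
    rw [← S.E_add]
    refine S.E_congr fun x => ?_
    rw [← S.E_add]
    refine S.E_congr fun y => ?_
    unfold A
    ring
  have h3 : S.E (fun x => S.E fun y => I c i x * I c i y * S.O y x)
      = S.E (fun x => S.E fun y => I c i x * I c i y * S.O x y) := by
    rw [S.E_comm]
    refine S.E_congr fun x => S.E_congr fun y => ?_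
    ring
  rw [h1]
  linarith

/-- The deficit of a vertex of part `i` or `j`. -/
theorem gsq (i j k : Fin 3) (hij : i ≠ j) (hik : i ≠ k) (hjk : j ≠ k) (v : V) :
    max (1 / 3 - S.a c k - S.o c j v - S.o c i v) 0 ^ 2 ≤ S.g v ^ 2 := by
  have h1 := S.dp_eq c v
  rw [perm3 (fun i => S.o c i v) hij hik hjk] at h1
  beta_reduce at h1
  have h2 := S.o_le c k v
  have hg : 1 / 3 - S.a c k - S.o c j v - S.o c i v ≤ S.g v := by unfold g; linarith
  rcases le_total (1 / 3 - S.a c k - S.o c j v - S.o c i v) 0 with h | h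
  · rw [max_eq_right h]
    have := sq_nonneg (S.g v)
    linarith
  · rw [max_eq_left h]
    exact pow_le_pow_left₀ h hg 2

/-- Squared deficits of the first part. -/
noncomputable def SX (i j k : Fin 3) : ℝ :=
  S.E fun v => I c i v * max (1 / 3 - S.a c k - (S.o c j v + S.n c j v) - S.o c i v) 0 ^ 2

/-- Squared deficits of the second part. -/
noncomputable def SY (i j k : Fin 3) : ℝ :=
  S.E fun v => I c j v * max (1 / 3 - S.a c k - S.o c i v - S.o c j v) 0 ^ 2

theorem G_ge (i j k : Fin 3) (hij : i ≠ j) (hik : i ≠ k) (hjk : j ≠ k) :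
    S.SX c i j k + S.SY c i j k ≤ S.G := by
  unfold SX SY G
  rw [← S.E_add]
  refine S.E_mono fun v => ?_
  have g1 := S.gsq c i j k hij hik hjk v
  have g2 := S.gsq c j i k hij.symm hjk hik v
  have g3 : max (1 / 3 - S.a c k - (S.o c j v + S.n c j v) - S.o c i v) 0 ^ 2
      ≤ max (1 / 3 - S.a c k - S.o c j v - S.o c i v) 0 ^ 2 := by
    refine pow_le_pow_left₀ (le_max_right _ _) ?_ 2
    refine max_le_max_right _ ?_
    have := S.n_nonneg c j v
    linarith
  by_cases h1 : c v = i
  · have h2 : c v ≠ j := fun h => hij (h1.symm.trans h)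
    have i1 : I c i v = 1 := by unfold I; rw [if_pos h1]
    have i2 : I c j v = 0 := by unfold I; rw [if_neg h2]
    rw [i1, i2]
    linarith
  · have i1 : I c i v = 0 := by unfold I; rw [if_neg h1]
    by_cases h2 : c v = j
    · have i2 : I c j v = 1 := by unfold I; rw [if_pos h2]
      rw [i1, i2]
      linarith
    · have i2 : I c j v = 0 := by unfold I; rw [if_neg h2]
      rw [i1, i2]
      have := sq_nonneg (S.g v)
      linarith

/-- Marks with two vertices in part `i` and one in part `j`. -/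
noncomputable def Y1 (i j : Fin 3) : ℝ :=
  S.E fun x => I c i x * S.E fun x' => I c i x' * S.E fun y => I c j y * S.X x x' y

theorem Y1_eq (i j : Fin 3) : S.Y1 c i j
    = S.E3 fun x x' y => I c i x * I c i x' * I c j y * S.X x x' y := by
  unfold Y1 E3
  refine S.E_congr fun x => ?_
  rw [← S.E_mulL]
  refine S.E_congr fun x' => ?_
  rw [← S.E_mulL, ← S.E_mulL]
  refine S.E_congr fun y => ?_
  ring

theorem X_ge (i j : Fin 3) (hij : i ≠ j) : 3 * S.Y1 c i j + 3 * S.Y1 c j i ≤ S.E3 S.X := by
  rw [Y1_eq, Y1_eq]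
  have key : ∀ i j : Fin 3, S.E3 (fun x x' y => I c i x * I c j x' * I c i y * S.X x x' y)
      = S.E3 (fun x x' y => I c i x * I c i x' * I c j y * S.X x x' y) := by
    intro i j
    rw [← S.E3_swap23 (fun x x' y => I c i x * I c i x' * I c j y * S.X x x' y)]
    refine S.E3_congr fun x x' y => ?_
    rw [S.X23]
    ring
  have key2 : ∀ i j : Fin 3, S.E3 (fun x x' y => I c j x * I c i x' * I c i y * S.X x x' y)
      = S.E3 (fun x x' y => I c i x * I c i x' * I c j y * S.X x x' y) := by
    intro i j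
    rw [← key i j, ← S.E3_swap12 (fun x x' y => I c i x * I c j x' * I c i y * S.X x x' y)]
    refine S.E3_congr fun x x' y => ?_
    rw [S.X12]
    ring
  have h1 : S.E3 (fun x x' y => I c i x * I c i x' * I c j y * S.X x x' y
      + I c i x * I c j x' * I c i y * S.X x x' y + I c j x * I c i x' * I c i y * S.X x x' y
      + I c j x * I c j x' * I c i y * S.X x x' y + I c j x * I c i x' * I c j y * S.X x x' y
      + I c i x * I c j x' * I c j y * S.X x x' y) ≤ S.E3 S.X := by
    refine S.E3_mono fun x x' y => ?_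
    have h0 := S.X_nonneg x x' y
    have m1 := I_mul c i j hij x
    have m2 := I_mul c i j hij x'
    have m3 := I_mul c i j hij y
    rcases I01 c i x with e1 | e1 <;> rcases I01 c j x with e2 | e2 <;>
    rcases I01 c i x' with e3 | e3 <;> rcases I01 c j x' with e4 | e4 <;>
    rcases I01 c i y with e5 | e5 <;> rcases I01 c j y with e6 | e6 <;>
    rw [e1, e2] at m1 <;> rw [e3, e4] at m2 <;> rw [e5, e6] at m3 <;>
    first
    | (exfalso; norm_num at m1; done)
    | (exfalso; norm_num at m2; done)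
    | (exfalso; norm_num at m3; done)
    | (rw [e1, e2, e3, e4, e5, e6]; norm_num <;> exact h0)
  rw [S.E3_add, S.E3_add, S.E3_add, S.E3_add, S.E3_add, key i j, key2 i j, key j i, key2 j i] at h1
  linarith

/-- The scaled weight of a part. -/
theorem ws_part (i : Fin 3) (γ : ℝ) (f : V → ℝ) :
    ws (fun x => S.w x * I c i x / γ) f = (S.E fun x => I c i x * f x) / γ := by
  unfold ws E
  rw [sum_div]
  refine sum_congr rfl fun x _ => ?_
  ring

theorem dX_part (j : Fin 3) (γ : ℝ) (x : V) :
    dX (fun y => S.w y * I c j y / γ) (fun x y => 1 - S.O y x) x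
      = (S.o c j x + S.n c j x) / γ := by
  unfold dX
  rw [S.ws_part]
  congr 1
  unfold o n
  rw [← S.E_add]
  refine S.E_congr fun y => ?_
  unfold N A
  ring

theorem dY_part (i : Fin 3) (γ : ℝ) (y : V) :
    dY (fun x => S.w x * I c i x / γ) (fun x y => 1 - S.O y x) y = S.o c i y / γ := by
  unfold dY
  rw [S.ws_part]
  congr 1
  unfold o
  refine S.E_congr fun x => ?_
  ring

theorem max_div {γ t : ℝ} (hγ : 0 < γ) : max (t / γ) 0 ^ 2 = max t 0 ^ 2 / γ ^ 2 := by
  rw [← div_pow]
  congr 1
  rcases le_total t 0 with h | h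
  · rw [max_eq_right h, max_eq_right (div_nonpos_of_nonpos_of_nonneg h hγ.le), zero_div]
  · rw [max_eq_left h, max_eq_left (div_nonneg h hγ.le)]

/-- The local lemma applied to two parts. -/
theorem forced (i j k : Fin 3) (γ : ℝ) (hγ : 0 < γ) (hγk : γ = 1 / 3 - S.a c k)
    (hi : 0.8 * γ ≤ S.a c i) :
    0.256 * γ ^ 3 ≤ S.SX c i j k + S.SY c i j k + S.Y1 c i j + S.Y1 c j i
      + 2 * γ * S.M c i j + S.a c j / 2 * S.pin c i + γ * S.pin c j
      + 0.4 * γ * (S.pin c i + S.pin c j) := by
  set a : V → ℝ := fun x => S.w x * I c i x / γ with ha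
  set b : V → ℝ := fun y => S.w y * I c j y / γ with hb
  set r : V → V → ℝ := fun x y => 1 - S.O y x with hr
  have ha0 : ∀ x, 0 ≤ a x := fun x => div_nonneg (mul_nonneg (S.pos x).le (I_nonneg c i x)) hγ.le
  have hb0 : ∀ y, 0 ≤ b y := fun y => div_nonneg (mul_nonneg (S.pos y).le (I_nonneg c j y)) hγ.le
  have hr01 : ∀ x y, r x y = 0 ∨ r x y = 1 := by
    intro x y
    simp only [hr]
    rcases S.O01 y x with h | h <;> rw [h] <;> norm_num
  have hsa : ∀ i : Fin 3, ∑ x, S.w x * I c i x / γ = S.a c i / γ := by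
    intro i
    have := S.ws_part c i γ (fun _ => 1)
    simp only [mul_one] at this
    unfold ws at this
    simp only [mul_one] at this
    exact this
  have hA : 0.8 ≤ ∑ x, a x := by
    rw [ha, hsa, le_div_iff₀ hγ]
    exact hi
  have hLI := local_bound ha0 hb0 hr01 hA (fun x => S.o c i x / γ) (fun y => S.o c j y / γ)
    (fun x => div_nonneg (S.o_nonneg c i x) hγ.le) (fun y => div_nonneg (S.o_nonneg c j y) hγ.le)
  have hT := T4_le (a := a) (b := b) (r := r) hb0 ha0 hr01 (fun x x' y => S.X x x' y)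
    (fun x y y' => S.X x y y') (fun x y => S.N x y) (fun x x' => S.A x x') (fun y y' => S.A y y')
    (fun _ _ _ => S.X_nonneg _ _ _) (fun _ _ _ => S.X_nonneg _ _ _) (fun _ _ => S.N_nonneg _ _)
    (fun _ _ => S.A_nonneg _ _) (fun _ _ => S.A_nonneg _ _) (by
      intro x x' y y' h1 h2 h3 h4
      simp only [hr] at h1 h2 h3 h4
      have n1 := S.X_nonneg x x' y
      have n2 := S.X_nonneg x x' y'
      have n3 := S.X_nonneg x y y'
      have n4 := S.X_nonneg x' y y'
      have n5 := S.N_nonneg x y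
      have n6 := S.N_nonneg x' y'
      have n7 := S.A_nonneg x x'
      have n8 := S.A_nonneg y y'
      have arcO : ∀ u v, S.O u v = 1 → S.arc u v := by
        intro u v h
        rcases S.cases3 u v with h' | h' | h'
        · exact h'.1
        · rw [h'.2.2.1] at h; norm_num at h
        · rw [h'.2.2.1] at h; norm_num at h
      rcases S.cases3 x y with c1 | c1 | c1
      · rcases S.cases3 x' y' with c2 | c2 | c2
        · rcases S.A01 x x' with c3 | c3
          · rcases S.A01 y y' with c4 | c4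
            · have notarc : ∀ u v, S.A u v = 0 → ¬ S.arc u v ∧ ¬ S.arc v u := by
                intro u v h
                unfold A at h
                rcases S.cases3 u v with h' | h' | h'
                · rw [h'.2.2.1, h'.2.2.2] at h; norm_num at h
                · rw [h'.2.2.1, h'.2.2.2] at h; norm_num at h
                · exact ⟨h'.1, h'.2.1⟩
              have a1 := notarc x x' c3
              have a2 := notarc y y' c4
              rcases S.c4 x y x' y' c1.1 (arcO y x' (by linarith)) c2.1 (arcO y' x (by linarith))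
                a1.1 a1.2 a2.1 a2.2 with h | h | h | h
              · have : S.X x x' y = 1 := by rw [S.X23]; exact S.X_one h
                linarith
              · have : S.X x' y y' = 1 := by rw [S.X12]; exact S.X_one h
                linarith
              · have : S.X x x' y' = 1 := by
                  rw [← S.X12, ← S.X23]; exact S.X_one h
                linarith
              · have : S.X x y y' = 1 := by
                  rw [← S.X23, ← S.X12]; exact S.X_one h
                linarith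
            · linarith
          · linarith
        · exfalso
          rw [c2.2.2.2] at h3
          norm_num at h3
        · have : S.N x' y' = 1 := by unfold N A; rw [c2.2.2.1, c2.2.2.2]; norm_num
          linarith
      · exfalso
        rw [c1.2.2.2] at h1
        norm_num at h1
      · have : S.N x y = 1 := by unfold N A; rw [c1.2.2.1, c1.2.2.2]; norm_num
        linarith)
  -- rewrite everything
  have e1 : ws a (fun x => max (1 - dX b r x - S.o c i x / γ) 0 ^ 2) = S.SX c i j k / γ ^ 3 := by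
    have : ∀ x, max (1 - dX b r x - S.o c i x / γ) 0 ^ 2
        = max (1 / 3 - S.a c k - (S.o c j x + S.n c j x) - S.o c i x) 0 ^ 2 * (1 / γ ^ 2) := by
      intro x
      rw [hb, hr, S.dX_part, ← hγk]
      have : 1 - (S.o c j x + S.n c j x) / γ - S.o c i x / γ
          = (γ - (S.o c j x + S.n c j x) - S.o c i x) / γ := by
        field_simp
      rw [this, max_div hγ]
      ring
    simp_rw [this]
    rw [ha, S.ws_part]
    have h2 : ∀ x, I c i x * (max (1 / 3 - S.a c k - (S.o c j x + S.n c j x) - S.o c i x) 0 ^ 2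
        * (1 / γ ^ 2)) = I c i x * max (1 / 3 - S.a c k - (S.o c j x + S.n c j x) - S.o c i x) 0 ^ 2
        * (1 / γ ^ 2) := fun x => by ring
    simp_rw [h2]
    rw [S.E_mulR]
    unfold SX
    field_simp
  have e2 : ws b (fun y => max (1 - dY a r y - S.o c j y / γ) 0 ^ 2) = S.SY c i j k / γ ^ 3 := by
    have : ∀ y, max (1 - dY a r y - S.o c j y / γ) 0 ^ 2
        = max (1 / 3 - S.a c k - S.o c i y - S.o c j y) 0 ^ 2 * (1 / γ ^ 2) := by
      intro y
      rw [ha, hr, S.dY_part, ← hγk]
      have : 1 - S.o c i y / γ - S.o c j y / γ = (γ - S.o c i y - S.o c j y) / γ := by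
        field_simp
      rw [this, max_div hγ]
      ring
    simp_rw [this]
    rw [hb, S.ws_part]
    have h2 : ∀ x, I c j x * (max (1 / 3 - S.a c k - S.o c i x - S.o c j x) 0 ^ 2
        * (1 / γ ^ 2)) = I c j x * max (1 / 3 - S.a c k - S.o c i x - S.o c j x) 0 ^ 2
        * (1 / γ ^ 2) := fun x => by ring
    simp_rw [h2]
    rw [S.E_mulR]
    unfold SY
    field_simp
  have e3 : ws a (fun x => S.o c i x / γ) = S.pin c i / 2 / γ ^ 2 := by
    rw [ha, S.ws_part]
    have h2 : ∀ x, I c i x * (S.o c i x / γ) = I c i x * S.o c i x * (1 / γ) := fun x => by ring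
    simp_rw [h2]
    rw [S.E_mulR, S.pin_half]
    field_simp
  have e4 : ws b (fun y => S.o c j y / γ) = S.pin c j / 2 / γ ^ 2 := by
    rw [hb, S.ws_part]
    have h2 : ∀ x, I c j x * (S.o c j x / γ) = I c j x * S.o c j x * (1 / γ) := fun x => by ring
    simp_rw [h2]
    rw [S.E_mulR, S.pin_half]
    field_simp
  have dbl : ∀ (i j : Fin 3) (F : V → V → ℝ),
      ws (fun x => S.w x * I c i x / γ) (fun x => ws (fun x => S.w x * I c j x / γ) (fun y => F x y))
      = (S.E fun x => I c i x * S.E fun y => I c j y * F x y) / γ ^ 2 := by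
    intro i j F
    rw [S.ws_part]
    simp_rw [S.ws_part c j γ]
    have h2 : ∀ x, I c i x * ((S.E fun y => I c j y * F x y) / γ)
        = (I c i x * S.E fun y => I c j y * F x y) * (1 / γ) := fun x => by ring
    simp_rw [h2]
    rw [S.E_mulR]
    field_simp
  have e5 : (ws a fun x => ws b fun y => S.N x y) = S.M c i j / γ ^ 2 := by
    rw [ha, hb, dbl]
    rfl
  have e6 : ∀ i : Fin 3, (ws (fun x => S.w x * I c i x / γ) fun x =>
      ws (fun x => S.w x * I c i x / γ) fun x' => S.A x x') = S.pin c i / γ ^ 2 := by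
    intro i
    rw [dbl]
    unfold pin
    congr 1
    refine S.E_congr fun x => ?_
    rw [← S.E_mulL]
    refine S.E_congr fun y => ?_
    ring
  have trp : ∀ (i j l : Fin 3) (F : V → V → V → ℝ),
      ws (fun x => S.w x * I c i x / γ) (fun x => ws (fun x => S.w x * I c j x / γ)
        (fun y => ws (fun x => S.w x * I c l x / γ) (fun z => F x y z)))
      = (S.E3 fun x y z => I c i x * I c j y * I c l z * F x y z) / γ ^ 3 := by
    intro i j l F
    rw [dbl]
    simp_rw [S.ws_part c l γ]
    have h2 : ∀ x, (I c i x * S.E fun y => I c j y * ((S.E fun z => I c l z * F x y z) / γ))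
        = (S.E fun y => S.E fun z => I c i x * I c j y * I c l z * F x y z) * (1 / γ) := by
      intro x
      rw [← S.E_mulL, ← S.E_mulR]
      refine S.E_congr fun y => ?_
      have : (S.E fun z => I c i x * I c j y * I c l z * F x y z)
          = I c i x * I c j y * S.E fun z => I c l z * F x y z := by
        rw [← S.E_mulL]
        refine S.E_congr fun z => ?_
        ring
      rw [this]
      ring
    simp_rw [h2]
    rw [S.E_mulR]
    unfold E3
    field_simp
  have e7 : (ws a fun x => ws a fun x' => ws b fun y => S.X x x' y) = S.Y1 c i j / γ ^ 3 := by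
    rw [ha, hb, trp, Y1_eq]
  have e8 : (ws a fun x => ws b fun y => ws b fun y' => S.X x y y') = S.Y1 c j i / γ ^ 3 := by
    rw [ha, hb, trp, Y1_eq]
    congr 1
    have e1 := S.E3_swap23 (fun x x' y => I c j x * I c j x' * I c i y * S.X x x' y)
    have e2 := S.E3_swap12 (fun x x' y => I c j x * I c j y * I c i x' * S.X x y x')
    rw [← e1, ← e2]
    refine S.E3_congr fun x y z => ?_
    rw [S.X23, S.X12, S.X12 z y x, S.X23 z x y]
    ring
  have e9 : ∑ y, b y = S.a c j / γ := by rw [hb, hsa]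
  rw [e1, e2, e3, e4] at hLI
  rw [e5, e7, e8, e9] at hT
  have e6i : (ws a fun x => ws a fun x' => S.A x x') = S.pin c i / γ ^ 2 := e6 i
  have e6j : (ws b fun x => ws b fun x' => S.A x x') = S.pin c j / γ ^ 2 := e6 j
  rw [e6i, e6j] at hT
  have h3 : 0.256 ≤ (S.SX c i j k + S.SY c i j k + S.Y1 c i j + S.Y1 c j i
      + 2 * γ * S.M c i j + S.a c j / 2 * S.pin c i + γ * S.pin c j
      + 0.4 * γ * (S.pin c i + S.pin c j)) / γ ^ 3 := by
    have : (S.SX c i j k + S.SY c i j k + S.Y1 c i j + S.Y1 c j i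
      + 2 * γ * S.M c i j + S.a c j / 2 * S.pin c i + γ * S.pin c j
      + 0.4 * γ * (S.pin c i + S.pin c j)) / γ ^ 3
      = S.SX c i j k / γ ^ 3 + S.SY c i j k / γ ^ 3 + (S.Y1 c i j / γ ^ 3 + S.Y1 c j i / γ ^ 3
        + 2 * (S.M c i j / γ ^ 2) + S.a c j / γ / 2 * (S.pin c i / γ ^ 2) + S.pin c j / γ ^ 2)
        + 0.8 * (S.pin c i / 2 / γ ^ 2 + S.pin c j / 2 / γ ^ 2) := by
      field_simp
      ring
    rw [this]
    linarith
  rwa [le_div_iff₀ (by positivity)] at h3

variable {S c}

/-- The contradiction. -/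
theorem Good.contra0 (H : S.Good c) (i j k : Fin 3) (hij : i ≠ j) (hik : i ≠ k) (hjk : j ≠ k)
    (hi : 1 / 3 ≤ S.a c i) (hk : S.a c k < 1 / 3) (hji : S.a c j ≤ S.a c i)
    (hs : 3 * ((S.a c i - 1 / 3) * (S.a c j - 1 / 3) * (S.a c k - 1 / 3)) + 3 * S.G
      + 173 / 200 * S.E (S.p c) + S.M c i j * (289 / 100 - 6 * S.a c k) + S.E3 S.X < 0) : False := by
  have hsum := S.a_sum c
  rw [perm3 (fun i => S.a c i) hij hik hjk] at hsum
  beta_reduce at hsum
  have hM := S.M_nonneg c i j
  have hP := H.P_le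
  have hpi := S.pin_nonneg c i
  have hpj := S.pin_nonneg c j
  have hpk := S.pin_nonneg c k
  have hps := S.pin_sum c
  rw [perm3 (fun i => S.pin c i) hij hik hjk] at hps
  beta_reduce at hps
  have hdev := a_dev H.S2 k
  have hGge := S.G_ge c i j k hij hik hjk
  have hXge := S.X_ge c i j hij
  obtain ⟨γ, hγ⟩ : ∃ γ, γ = 1 / 3 - S.a c k := ⟨_, rfl⟩
  have hak : S.a c k = 1 / 3 - γ := by linarith
  have hγ0 : 0 < γ := by linarith
  rw [hak] at hdev
  have hγ2 : γ ^ 2 ≤ 2 / 3 * (0.016289 + S.E (S.p c)) := by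
    have : (1 / 3 - γ - 1 / 3) ^ 2 = γ ^ 2 := by ring
    rw [this] at hdev
    exact hdev
  have hγa : γ ≤ 0.1135 := by
    by_contra hc
    push Not at hc
    have h1 : (0.1135 : ℝ) ^ 2 ≤ γ ^ 2 := pow_le_pow_left₀ (by norm_num) hc.le 2
    norm_num at h1 hγ2 hP
    linarith
  have hf := S.forced c i j k γ hγ0 hγ (by norm_num at hγa ⊢; linarith)
  have hprod : (S.a c i - 1 / 3) * (S.a c j - 1 / 3) ≤ γ ^ 2 / 4 := by
    have : γ = (S.a c i - 1 / 3) + (S.a c j - 1 / 3) := by linarith
    rw [this]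
    nlinarith [sq_nonneg ((S.a c i - 1 / 3) - (S.a c j - 1 / 3))]
  have hprod3 : (S.a c i - 1 / 3) * (S.a c j - 1 / 3) * γ ≤ γ ^ 2 / 4 * γ :=
    mul_le_mul_of_nonneg_right hprod hγ0.le
  have haj : S.a c j ≤ 1 / 3 + γ / 2 := by linarith
  have h1 : 3 * S.G + 173 / 200 * S.E (S.p c) + S.M c i j * (89 / 100 + 6 * γ) + S.E3 S.X
      < 3 / 4 * γ ^ 3 := by
    have e : S.M c i j * (289 / 100 - 6 * S.a c k) = S.M c i j * (89 / 100 + 6 * γ) := by
      rw [hak]; ring
    rw [e, hak] at hs
    have e2 : 3 * ((S.a c i - 1 / 3) * (S.a c j - 1 / 3) * (1 / 3 - γ - 1 / 3))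
        = -(3 * ((S.a c i - 1 / 3) * (S.a c j - 1 / 3) * γ)) := by ring
    have e3 : γ ^ 2 / 4 * γ = γ ^ 3 / 4 := by ring
    rw [e2] at hs
    rw [e3] at hprod3
    linarith
  have hγ3 : 0 < γ ^ 3 := by positivity
  have t1 : 1.5 * S.a c j * S.pin c i ≤ 1.5 * (1 / 3 + γ / 2) * S.pin c i :=
    mul_le_mul_of_nonneg_right (by norm_num; linarith) hpi
  have t2 : 0 ≤ (0.865 - 1.2 * γ - 1.5 * (1 / 3 + γ / 2)) * S.pin c i :=
    mul_nonneg (by norm_num at hγa ⊢; linarith) hpi
  have t3 : 0 ≤ (0.865 - 4.2 * γ) * S.pin c j := mul_nonneg (by norm_num at hγa ⊢; linarith) hpj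
  norm_num at hf h1 t1 t2 t3
  nlinarith

/-- The contradiction, symmetric form. -/
theorem Good.contra (H : S.Good c) (i j k : Fin 3) (hij : i ≠ j) (hik : i ≠ k) (hjk : j ≠ k)
    (hi : 1 / 3 ≤ S.a c i) (hj : 1 / 3 ≤ S.a c j) (hk : S.a c k < 1 / 3)
    (hs : 3 * ((S.a c i - 1 / 3) * (S.a c j - 1 / 3) * (S.a c k - 1 / 3)) + 3 * S.G
      + 173 / 200 * S.E (S.p c) + S.M c i j * (289 / 100 - 6 * S.a c k) + S.E3 S.X < 0) : False := by
  rcases le_total (S.a c j) (S.a c i) with h | h
  · exact H.contra0 i j k hij hik hjk hi hk h hs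
  · refine H.contra0 j i k hij.symm hjk hik hj hk h ?_
    rw [S.M_symm c j i]
    have : (S.a c j - 1 / 3) * (S.a c i - 1 / 3) * (S.a c k - 1 / 3)
      = (S.a c i - 1 / 3) * (S.a c j - 1 / 3) * (S.a c k - 1 / 3) := by ring
    rw [this]
    exact hs

theorem E3X_nonneg : 0 ≤ S.E3 S.X := by
  rw [← S.E3_const 0]
  exact S.E3_mono fun a b c => S.X_nonneg a b c

theorem Good.elim (H : S.Good c) : False := by
  have h0 := S.star c H.hp H.hn
  have hh := H.hh
  have a0 := H.a_bd 0
  have a1 := H.a_bd 1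
  have a2 := H.a_bd 2
  norm_num at a0 a1 a2
  have hsum := S.a_sum c
  have m01 := S.M_nonneg c 0 1
  have m02 := S.M_nonneg c 0 2
  have m12 := S.M_nonneg c 1 2
  have t01 : 0 ≤ S.M c 0 1 * (289 / 100 - 6 * S.a c 2) := mul_nonneg m01 (by linarith)
  have t02 : 0 ≤ S.M c 0 2 * (289 / 100 - 6 * S.a c 1) := mul_nonneg m02 (by linarith)
  have t12 : 0 ≤ S.M c 1 2 * (289 / 100 - 6 * S.a c 0) := mul_nonneg m12 (by linarith)
  have hG := S.G_nonneg
  have hX := E3X_nonneg (S := S)
  have hP := H.P_nonneg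
  have hneg : (S.a c 0 - 1 / 3) * (S.a c 1 - 1 / 3) * (S.a c 2 - 1 / 3) < 0 := by linarith
  -- find the small part
  rcases lt_or_ge (S.a c 2) (1 / 3) with h2 | h2
  · rcases lt_or_ge (S.a c 1) (1 / 3) with h1 | h1
    · exfalso
      have : 0 < S.a c 0 - 1 / 3 := by linarith
      have h3 : 0 < (S.a c 1 - 1 / 3) * (S.a c 2 - 1 / 3) :=
        mul_pos_of_neg_of_neg (by linarith) (by linarith)
      have := mul_pos this h3
      linarith
    · rcases lt_or_ge (S.a c 0) (1 / 3) with h3 | h3
      · exfalso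
        have h4 : 0 < (S.a c 0 - 1 / 3) * (S.a c 2 - 1 / 3) :=
          mul_pos_of_neg_of_neg (by linarith) (by linarith)
        have := mul_nonneg (sub_nonneg.mpr h1) h4.le
        linarith
      · exact H.contra 0 1 2 (by decide) (by decide) (by decide) h3 h1 h2 (by linarith)
  · rcases lt_or_ge (S.a c 1) (1 / 3) with h1 | h1
    · rcases lt_or_ge (S.a c 0) (1 / 3) with h3 | h3
      · exfalso
        have h4 : 0 < (S.a c 0 - 1 / 3) * (S.a c 1 - 1 / 3) :=
          mul_pos_of_neg_of_neg (by linarith) (by linarith)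
        have := mul_nonneg h4.le (sub_nonneg.mpr h2)
        linarith
      · refine H.contra 0 2 1 (by decide) (by decide) (by decide) h3 h2 h1 ?_
        have : (S.a c 0 - 1 / 3) * (S.a c 2 - 1 / 3) * (S.a c 1 - 1 / 3)
          = (S.a c 0 - 1 / 3) * (S.a c 1 - 1 / 3) * (S.a c 2 - 1 / 3) := by ring
        rw [this]
        linarith
    · rcases lt_or_ge (S.a c 0) (1 / 3) with h3 | h3
      · refine H.contra 1 2 0 (by decide) (by decide) (by decide) h1 h2 h3 ?_
        have : (S.a c 1 - 1 / 3) * (S.a c 2 - 1 / 3) * (S.a c 0 - 1 / 3)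
          = (S.a c 0 - 1 / 3) * (S.a c 1 - 1 / 3) * (S.a c 2 - 1 / 3) := by ring
        rw [this]
        linarith
      · exfalso
        have := mul_nonneg (mul_nonneg (sub_nonneg.mpr h3) (sub_nonneg.mpr h1))
          (sub_nonneg.mpr h2)
        linarith


variable (S)

/-- At an optimal weighting the edge density is at least `4/9`. -/
theorem four_ninths (hF : ∀ v, S.lk v = S.h) : 4 / 9 ≤ S.h := by
  by_contra hc
  push Not at hc
  obtain ⟨c, hmin⟩ := S.exists_min
  exact Good.elim ⟨hc, hF, hmin⟩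

end Sys

end Pool.Agent.H5.SF
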