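import Pool.Agent.H5.FlagW

/-!
# Order-five flag certificates for oriented graphs with marked directed 2-paths

`t u v` is the relation code of the ordered pair `(u,v)` and `ep a b c` is `1` when the triple is
marked.  Only induced directed 2-paths may be marked, and every induced directed 4-cycle contains a
marked triple.
-/

namespace Pool.Agent.H5.SF

open Finset Pool.Agent.H5 Pool.Agent.H5.W

/-- Packed representatives of all patterns on the first four positions. -/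
def reps42 : List ℕ :=
  [
   0, 34426847232, 43016847360, 25904087040, 21609185280, 43025252352, 38730350592,
   45164331072, 28051570752, 23756668992, 2155888704, 36582735936, 10745888832, 45172736064,
   28059975744, 6450987072, 40877834304, 23765073984, 22682927232, 9672147072, 44098994304,
   26986233984, 39804092544, 22691332224, 10747986000, 45174833232, 6453084240, 40879931472,
   23767171152, 6448906320, 40875753552, 39806189712, 22693429392, 9670066320, 44096913552,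
   39802011792, 22689251472, 39800963232, 45174835284, 40879933524, 44101093524, 26988333204]

noncomputable def test4 (T : ℕ) : Bool :=
  anyL (fun p => p (fun i j k l =>
    forceN (R6 (dg T i j) (dg T i k) (dg T i l) (dg T j k) (dg T j l) (dg T k l))
      (fun P => anyL (fun r => Nat.beq P r) reps42))) P24

noncomputable def test4all : Bool :=
  allL (fun a => allL (fun b => allL (fun c => allL (fun d => allL (fun e => allL (fun f =>
    forceN (R6 a b c d e f) test4) [0, 1, 2]) [0, 1, 2]) [0, 1, 2]) [0, 1, 2]) [0, 1, 2]) [0, 1, 2]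

theorem test4all_true : test4all = true := by decide +kernel

theorem test4_all (a b c d e f : ℕ) (ha : a < 3) (hb : b < 3) (hc : c < 3) (hd : d < 3)
    (he : e < 3) (hf : f < 3) : test4 (R6 a b c d e f) = true := by
  have h := test4all_true
  unfold test4all at h
  have m : ∀ n, n < 3 → n ∈ [0, 1, 2] := by
    intro n hn
    interval_cases n <;> simp
  rw [allL_iff] at h
  have h1 := h a (m a ha)
  rw [allL_iff] at h1
  have h2 := h1 b (m b hb)
  rw [allL_iff] at h2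
  have h3 := h2 c (m c hc)
  rw [allL_iff] at h3
  have h4 := h3 d (m d hd)
  rw [allL_iff] at h4
  have h5 := h4 e (m e he)
  rw [allL_iff] at h5
  have h6 := h5 f (m f hf)
  rw [forceN_eq] at h6
  exact h6

theorem dg_lt_check : (allL (fun r => allL (fun e => forceN (Nat.add r e) (fun T =>
    allL (fun i => allL (fun j => Nat.ble (dg T i j) 2) [0, 1, 2, 3, 4]) [0, 1, 2, 3, 4])) exts)
      reps42) = true := by decide +kernel

theorem dg_lt_of_mem (r : ℕ) (hr : r ∈ reps42) (e : ℕ) (he : e ∈ exts) (i j : ℕ) (hi : i < 5)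
    (hj : j < 5) : dg (r + e) i j < 3 := by
  have h := dg_lt_check
  rw [allL_iff] at h
  have h1 := h r hr
  rw [allL_iff] at h1
  have h2 := h1 e he
  rw [forceN_eq, allL_iff] at h2
  have h3 := h2 i (by interval_cases i <;> simp)
  rw [allL_iff] at h3
  have h4 := Nat.le_of_ble_eq_true (h3 j (by interval_cases j <;> simp))
  exact Nat.lt_succ_of_le h4

section Perm

variable {V : Type*} (t : V → V → ℕ)
variable (hlt : ∀ u v, t u v < 3) (hflip : ∀ u v, t v u = flip3 (t u v))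

include hlt hflip in
/-- Every 5-tuple can be permuted so that the first four positions show a representative. -/
theorem exists_perm (x : Fin 5 → V) :
    ∃ σ : Equiv.Perm (Fin 5),
      R6 (digs t (x ∘ σ) 0 1) (digs t (x ∘ σ) 0 2) (digs t (x ∘ σ) 0 3) (digs t (x ∘ σ) 1 2)
      (digs t (x ∘ σ) 1 3) (digs t (x ∘ σ) 2 3) ∈ reps42 := by
  have hT := test4_all (digs t x 0 1) (digs t x 0 2) (digs t x 0 3) (digs t x 1 2)
      (digs t x 1 3) (digs t x 2 3) (hlt _ _) (hlt _ _) (hlt _ _) (hlt _ _) (hlt _ _) (hlt _ _)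
  rw [← pack_g4 t hlt hflip x] at hT
  unfold test4 at hT
  rw [P24_eq, anyL_iff] at hT
  obtain ⟨a, ha, hT⟩ := hT
  rw [List.mem_map] at ha
  obtain ⟨p, hp, rfl⟩ := ha
  simp only [forceN_eq, anyL_iff] at hT
  obtain ⟨r, hr, hT⟩ := hT
  rw [Nat.beq_eq] at hT
  obtain ⟨q1, q2, q3, q4⟩ := P24_lt p hp
  have hinj := toFn_inj _ (P24_ok p hp)
  refine ⟨Equiv.ofBijective _ (Finite.injective_iff_bijective.mp hinj), ?_⟩
  rw [← hT] at hr
  rw [dg_g4 t hlt x _ _ (by omega) (by omega), dg_g4 t hlt x _ _ (by omega) (by omega),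
    dg_g4 t hlt x _ _ (by omega) (by omega), dg_g4 t hlt x _ _ (by omega) (by omega),
    dg_g4 t hlt x _ _ (by omega) (by omega), dg_g4 t hlt x _ _ (by omega) (by omega),
    if_pos ⟨q1, q2⟩, if_pos ⟨q1, q3⟩, if_pos ⟨q1, q4⟩, if_pos ⟨q2, q3⟩, if_pos ⟨q2, q4⟩,
    if_pos ⟨q3, q4⟩] at hr
  exact hr

end Perm

/-! ### The weighted sum -/

section Weighted

variable {V : Type*} [Fintype V]

theorem wsum_gen_le (w : V → ℝ) (hw : ∀ v, 0 ≤ w v) (h1 : ∑ v, w v = 1)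
    (B : V → V → V → ℤ) (r : V → V → V → V → List ℤ) (l : V → V → V → V → ℤ) :
    ∑ x : Fin 5 → V, (∏ i, w (x i)) * ((B (x 0) (x 1) (x 2)
      - dot (r (x 0) (x 1) (x 2) (x 3)) (r (x 0) (x 1) (x 2) (x 4))
      - l (x 0) (x 1) (x 2) (x 3) - l (x 0) (x 1) (x 2) (x 4) : ℤ) : ℝ) ≤
      ∑ a, ∑ b, ∑ c, w a * w b * w c * (B a b c : ℝ)
      - 2 * ∑ a, ∑ b, ∑ c, ∑ d, w a * w b * w c * w d * (l a b c d : ℝ) := by
  rw [wsum_five w (fun x => ((B (x 0) (x 1) (x 2)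
      - dot (r (x 0) (x 1) (x 2) (x 3)) (r (x 0) (x 1) (x 2) (x 4))
      - l (x 0) (x 1) (x 2) (x 3) - l (x 0) (x 1) (x 2) (x 4) : ℤ) : ℝ))]
  have key : ∀ a b c : V,
      ∑ d, ∑ e, w a * w b * w c * w d * w e * ((B a b c
        - dot (r a b c d) (r a b c e) - l a b c d - l a b c e : ℤ) : ℝ)
      ≤ w a * w b * w c * (B a b c : ℝ)
        - 2 * ∑ d, w a * w b * w c * w d * (l a b c d : ℝ) := by
    intro a b c
    have hn := wdot_nonneg w (fun d => r a b c d)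
    have e1 : ∀ d e, w a * w b * w c * w d * w e * ((B a b c
        - dot (r a b c d) (r a b c e) - l a b c d - l a b c e : ℤ) : ℝ)
        = w a * w b * w c * ((w d * w e) * (B a b c : ℝ)
          - w d * w e * (dot (r a b c d) (r a b c e) : ℝ)
          - (w d * (l a b c d : ℝ)) * w e - w d * (w e * (l a b c e : ℝ))) := by
      intro d e
      push_cast
      ring
    simp_rw [e1, ← mul_sum]
    have e2 : ∑ d, ∑ e, ((w d * w e) * (B a b c : ℝ)
          - w d * w e * (dot (r a b c d) (r a b c e) : ℝ)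
          - (w d * (l a b c d : ℝ)) * w e - w d * (w e * (l a b c e : ℝ)))
        = (B a b c : ℝ) - ∑ d, ∑ e, w d * w e * (dot (r a b c d) (r a b c e) : ℝ)
          - 2 * ∑ d, w d * (l a b c d : ℝ) := by
      simp only [sum_sub_distrib]
      have s1 : ∑ d, ∑ e, (w d * w e) * (B a b c : ℝ) = (B a b c : ℝ) := by
        simp_rw [← sum_mul, ← mul_sum, h1]
        simp [h1]
      have s2 : ∑ d, ∑ e, (w d * (l a b c d : ℝ)) * w e = ∑ d, w d * (l a b c d : ℝ) := by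
        simp_rw [← mul_sum, h1]
        simp
      have s3 : ∑ d, ∑ e, w d * (w e * (l a b c e : ℝ)) = ∑ d, w d * (l a b c d : ℝ) := by
        simp_rw [← mul_sum, ← sum_mul, h1]
        simp
      rw [s1, s2, s3]
      ring
    rw [e2]
    have hw3 : 0 ≤ w a * w b * w c := mul_nonneg (mul_nonneg (hw a) (hw b)) (hw c)
    have e3 : ∑ d, w a * w b * w c * w d * (l a b c d : ℝ)
        = w a * w b * w c * ∑ d, w d * (l a b c d : ℝ) := by
      rw [mul_sum]
      refine sum_congr rfl fun d _ => ?_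
      ring
    rw [e3]
    have := mul_nonneg hw3 hn
    nlinarith [this]
  calc _ ≤ ∑ a, ∑ b, ∑ c, (w a * w b * w c * (B a b c : ℝ)
        - 2 * ∑ d, w a * w b * w c * w d * (l a b c d : ℝ)) := by
        refine sum_le_sum fun a _ => sum_le_sum fun b _ => sum_le_sum fun c _ => ?_
        exact key a b c
    _ = _ := by
        simp only [sum_sub_distrib, mul_sum]

end Weighted

section GE

variable {V : Type*} (t : V → V → ℕ) (ep : V → V → V → ℕ) (base : ℕ → ℤ)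
  (rows3 : ℕ → ℕ → List ℤ) (rowsE : ℕ → List ℤ) (rows1 : ℕ → List ℤ) (lin : ℕ → ℕ → ℤ) (K : ℤ)

/-- Local expression with marks. -/
def GE {V : Type*} (t : V → V → ℕ) (ep : V → V → V → ℕ) (base : ℕ → ℤ)
    (rows3 : ℕ → ℕ → List ℤ) (rowsE : ℕ → List ℤ) (lin : ℕ → ℕ → ℤ) (K : ℤ)
    (x : Fin 5 → V) : ℤ :=
  G60 t base rows3 lin x + (ep (x 0) (x 1) (x 2) : ℤ) *
    (K + if code3 (t (x 0) (x 1)) (t (x 0) (x 2)) (t (x 1) (x 2)) = 5 then
      dot (rows3 5 (code3 (t (x 0) (x 3)) (t (x 1) (x 3)) (t (x 2) (x 3))))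
        (rows3 5 (code3 (t (x 0) (x 4)) (t (x 1) (x 4)) (t (x 2) (x 4))))
      - dot (rowsE (code3 (t (x 0) (x 3)) (t (x 1) (x 3)) (t (x 2) (x 3))))
        (rowsE (code3 (t (x 0) (x 4)) (t (x 1) (x 4)) (t (x 2) (x 4)))) else 0)

/-- Row vector with marks. -/
def rE {V : Type*} (t : V → V → ℕ) (ep : V → V → V → ℕ)
    (rows3 : ℕ → ℕ → List ℤ) (rowsE : ℕ → List ℤ) (a b c d : V) : List ℤ :=
  if ep a b c = 1 ∧ code3 (t a b) (t a c) (t b c) = 5 then
    rowsE (code3 (t a d) (t b d) (t c d))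
  else rows3 (code3 (t a b) (t a c) (t b c)) (code3 (t a d) (t b d) (t c d))

theorem GE_eq (h01 : ∀ a b c, ep a b c ≤ 1) (x : Fin 5 → V) :
    GE t ep base rows3 rowsE lin K x =
      (base (code3 (t (x 0) (x 1)) (t (x 0) (x 2)) (t (x 1) (x 2)))
        + K * (ep (x 0) (x 1) (x 2) : ℤ))
      - dot (rE t ep rows3 rowsE (x 0) (x 1) (x 2) (x 3)) (rE t ep rows3 rowsE (x 0) (x 1) (x 2) (x 4))
      - lin (code3 (t (x 0) (x 1)) (t (x 0) (x 2)) (t (x 1) (x 2)))
        (code3 (t (x 0) (x 3)) (t (x 1) (x 3)) (t (x 2) (x 3)))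
      - lin (code3 (t (x 0) (x 1)) (t (x 0) (x 2)) (t (x 1) (x 2)))
        (code3 (t (x 0) (x 4)) (t (x 1) (x 4)) (t (x 2) (x 4))) := by
  unfold GE G60 F60 rE
  generalize code3 (t (x 0) (x 1)) (t (x 0) (x 2)) (t (x 1) (x 2)) = τ
  have h := h01 (x 0) (x 1) (x 2)
  generalize ep (x 0) (x 1) (x 2) = e at h ⊢
  interval_cases e
  · simp
  · by_cases h5 : τ = 5
    · subst h5
      simp
      ring
    · simp [h5]
      ring

theorem wbaseE_nonneg [Fintype V] (w : V → ℝ) (hw : ∀ v, 0 ≤ w v) (h1 : ∑ v, w v = 1)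
    (h01 : ∀ a b c, ep a b c ≤ 1)
    (h : ∀ x : Fin 5 → V, 0 ≤ symF (fun y => GE t ep base rows3 rowsE lin K y - F15 t rows1 y) x) :
    0 ≤ ∑ a, ∑ b, ∑ c, w a * w b * w c *
        ((base (code3 (t a b) (t a c) (t b c)) + K * (ep a b c : ℤ) : ℤ) : ℝ)
      - 2 * ∑ a, ∑ b, ∑ c, ∑ d, w a * w b * w c * w d *
        (lin (code3 (t a b) (t a c) (t b c)) (code3 (t a d) (t b d) (t c d)) : ℝ) := by
  have h2 := wsum_nonneg_of_symF w hw _ h
  have h3 := wsum_gen_le w hw h1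
    (fun a b c => base (code3 (t a b) (t a c) (t b c)) + K * (ep a b c : ℤ))
    (rE t ep rows3 rowsE)
    (fun a b c d => lin (code3 (t a b) (t a c) (t b c)) (code3 (t a d) (t b d) (t c d)))
  have h4 := wsum_F15_nonneg w t rows1 hw
  have e : ∑ x : Fin 5 → V, (∏ i, w (x i)) *
      ((GE t ep base rows3 rowsE lin K x - F15 t rows1 x : ℤ) : ℝ)
      = ∑ x : Fin 5 → V, (∏ i, w (x i)) * (GE t ep base rows3 rowsE lin K x : ℝ)
        - ∑ x : Fin 5 → V, (∏ i, w (x i)) * (F15 t rows1 x : ℝ) := by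
    rw [← sum_sub_distrib]
    refine sum_congr rfl fun x _ => ?_
    push_cast
    ring
  rw [e] at h2
  simp_rw [GE_eq t ep base rows3 rowsE lin K h01] at h2
  linarith

theorem GE_s34 (y : Fin 5 → V) :
    GE t ep base rows3 rowsE lin K (y ∘ s34) = GE t ep base rows3 rowsE lin K y := by
  unfold GE
  rw [G60_s34]
  simp only [s34, toFn, Function.comp]
  congr 1
  congr 1
  congr 1
  have e1 := dot_comm (rows3 5 (code3 (t (y 0) (y 3)) (t (y 1) (y 3)) (t (y 2) (y 3))))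
    (rows3 5 (code3 (t (y 0) (y 4)) (t (y 1) (y 4)) (t (y 2) (y 4))))
  have e2 := dot_comm (rowsE (code3 (t (y 0) (y 3)) (t (y 1) (y 3)) (t (y 2) (y 3))))
    (rowsE (code3 (t (y 0) (y 4)) (t (y 1) (y 4)) (t (y 2) (y 4))))
  rw [e1, e2]
  rfl

/-- Extra local term of a marked triple. -/
def gE (rows3 : ℕ → ℕ → List ℤ) (rowsE : ℕ → List ℤ) (T : ℕ → ℕ → ℕ)
    (p : ℕ × ℕ × ℕ × ℕ × ℕ) : ℤ :=
  if code3 (T p.1 p.2.1) (T p.1 p.2.2.1) (T p.2.1 p.2.2.1) = 5 then
    dot (rows3 5 (code3 (T p.1 p.2.2.2.1) (T p.2.1 p.2.2.2.1) (T p.2.2.1 p.2.2.2.1)))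
      (rows3 5 (code3 (T p.1 p.2.2.2.2) (T p.2.1 p.2.2.2.2) (T p.2.2.1 p.2.2.2.2)))
    - dot (rowsE (code3 (T p.1 p.2.2.2.1) (T p.2.1 p.2.2.2.1) (T p.2.2.1 p.2.2.2.1)))
      (rowsE (code3 (T p.1 p.2.2.2.2) (T p.2.1 p.2.2.2.2) (T p.2.2.1 p.2.2.2.2))) else 0

/-- Local type-3 term with marks. -/
def uE (base : ℕ → ℤ) (rows3 : ℕ → ℕ → List ℤ) (rowsE : ℕ → List ℤ) (lin : ℕ → ℕ → ℤ) (K : ℤ)
    (T : ℕ → ℕ → ℕ) (E : ℕ → ℕ → ℕ → ℕ) (p : ℕ × ℕ × ℕ × ℕ × ℕ) : ℤ :=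
  u60 base rows3 lin T p + (E p.1 p.2.1 p.2.2.1 : ℤ) * (K + gE rows3 rowsE T p)

/-- The marks of a 5-tuple. -/
def digs3 {V : Type*} (ep : V → V → V → ℕ) (x : Fin 5 → V) (i j k : ℕ) : ℕ :=
  ep (x (Fin.ofNat 5 i)) (x (Fin.ofNat 5 j)) (x (Fin.ofNat 5 k))

theorem symF_evalE (hflip : ∀ u v, t v u = flip3 (t u v)) (hlt : ∀ u v, t u v < 3)
    (hsym : ∀ a < 3, ∀ b < 3, ∀ c < 3, rows1 (code3 a b c) = rows1 (code3 b a (flip3 c)))
    (x : Fin 5 → V) :
    symF (fun y => GE t ep base rows3 rowsE lin K y - F15 t rows1 y) x =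
      2 * (N60.map (uE base rows3 rowsE lin K (digs t x) (digs3 ep x))).sum
        - 8 * (N15.map (w15 rows1 (digs t x))).sum := by
  rw [symF_sub, symF_60 _ (GE_s34 t ep base rows3 rowsE lin K),
    symF_15 _ (fun κ hκ y => F15_K8 t rows1 hflip hlt hsym κ hκ y)]
  rfl

/-- Marks on the positions that are compatible with the pattern `T`. -/
structure Adm (T : ℕ → ℕ → ℕ) (E : ℕ → ℕ → ℕ → ℕ) : Prop where
  le1 : ∀ i < 5, ∀ j < 5, ∀ k < 5, E i j k ≤ 1
  s12 : ∀ i < 5, ∀ j < 5, ∀ k < 5, E j i k = E i j k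
  s23 : ∀ i < 5, ∀ j < 5, ∀ k < 5, E i k j = E i j k
  p2 : ∀ i < 5, ∀ j < 5, ∀ k < 5, E i j k = 1 →
    code3 (T i j) (T i k) (T j k) = 5 ∨ code3 (T i k) (T i j) (T k j) = 5 ∨
    code3 (T j i) (T j k) (T i k) = 5 ∨ code3 (T j k) (T j i) (T k i) = 5 ∨
    code3 (T k i) (T k j) (T i j) = 5 ∨ code3 (T k j) (T k i) (T j i) = 5
  c4 : ∀ i < 5, ∀ j < 5, ∀ k < 5, ∀ l < 5, T i j = 1 → T j k = 1 → T k l = 1 → T l i = 1 →
    T i k = 0 → T j l = 0 → E i j k = 1 ∨ E j k l = 1 ∨ E k l i = 1 ∨ E l i j = 1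

/-- Compatibility of the marks with the relation codes. -/
structure Mark {V : Type*} (t : V → V → ℕ) (ep : V → V → V → ℕ) : Prop where
  le1 : ∀ a b c, ep a b c ≤ 1
  s12 : ∀ a b c, ep b a c = ep a b c
  s23 : ∀ a b c, ep a c b = ep a b c
  p2 : ∀ a b c, ep a b c = 1 →
    code3 (t a b) (t a c) (t b c) = 5 ∨ code3 (t a c) (t a b) (t c b) = 5 ∨
    code3 (t b a) (t b c) (t a c) = 5 ∨ code3 (t b c) (t b a) (t c a) = 5 ∨
    code3 (t c a) (t c b) (t a b) = 5 ∨ code3 (t c b) (t c a) (t b a) = 5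
  c4 : ∀ a b c d, t a b = 1 → t b c = 1 → t c d = 1 → t d a = 1 →
    t a c = 0 → t b d = 0 → ep a b c = 1 ∨ ep b c d = 1 ∨ ep c d a = 1 ∨ ep d a b = 1

theorem adm_of_mark (hm : Mark t ep) (hlt : ∀ u v, t u v < 3) (y : Fin 5 → V) :
    Adm (dg (pack (gx t y))) (digs3 ep y) where
  le1 _ _ _ _ _ _ := hm.le1 _ _ _
  s12 _ _ _ _ _ _ := hm.s12 _ _ _
  s23 _ _ _ _ _ _ := hm.s23 _ _ _
  p2 i hi j hj k hk h := by
    rw [dg_gx t hlt y _ _ hi hj, dg_gx t hlt y _ _ hi hk, dg_gx t hlt y _ _ hj hk,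
      dg_gx t hlt y _ _ hj hi, dg_gx t hlt y _ _ hk hi, dg_gx t hlt y _ _ hk hj]
    exact hm.p2 _ _ _ h
  c4 i hi j hj k hk l hl := by
    rw [dg_gx t hlt y _ _ hi hj, dg_gx t hlt y _ _ hj hk, dg_gx t hlt y _ _ hk hl,
      dg_gx t hlt y _ _ hl hi, dg_gx t hlt y _ _ hi hk, dg_gx t hlt y _ _ hj hl]
    exact hm.c4 _ _ _ _

theorem symF_nonnegE (hlt : ∀ u v, t u v < 3) (hflip : ∀ u v, t v u = flip3 (t u v))
    (hm : Mark t ep)
    (hsym : ∀ a < 3, ∀ b < 3, ∀ c < 3, rows1 (code3 a b c) = rows1 (code3 b a (flip3 c)))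
    (hchk : ∀ r ∈ reps42, ∀ e ∈ exts, ∀ E, Adm (dg (r + e)) E →
      4 * (N15.map (w15 rows1 (dg (r + e)))).sum
        ≤ (N60.map (uE base rows3 rowsE lin K (dg (r + e)) E)).sum)
    (x : Fin 5 → V) :
    0 ≤ symF (fun y => GE t ep base rows3 rowsE lin K y - F15 t rows1 y) x := by
  obtain ⟨σ, hσ⟩ := exists_perm t hlt hflip x
  rw [← symF_comp _ x σ]
  generalize x ∘ σ = y at hσ
  rw [symF_evalE t ep base rows3 rowsE rows1 lin K hflip hlt hsym]
  have hy := pack_gx t hlt hflip y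
  have he := E4_mem _ (digs_lt t hlt y 0 4) _ (digs_lt t hlt y 1 4) _ (digs_lt t hlt y 2 4) _
    (digs_lt t hlt y 3 4)
  have h := hchk _ hσ _ he
  rw [← hy] at h
  have h := h _ (adm_of_mark t ep hm hlt y)
  have e1 : N60.map (uE base rows3 rowsE lin K (dg (pack (gx t y))) (digs3 ep y))
      = N60.map (uE base rows3 rowsE lin K (digs t y) (digs3 ep y)) := by
    apply List.map_congr_left
    intro p hp
    obtain ⟨p1, p2, p3, p4, p5⟩ := N60_lt p hp
    unfold uE gE u60 w60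
    rw [dg_gx t hlt y _ _ p1 p2, dg_gx t hlt y _ _ p1 p3, dg_gx t hlt y _ _ p2 p3,
      dg_gx t hlt y _ _ p1 p4, dg_gx t hlt y _ _ p2 p4, dg_gx t hlt y _ _ p3 p4,
      dg_gx t hlt y _ _ p1 p5, dg_gx t hlt y _ _ p2 p5, dg_gx t hlt y _ _ p3 p5]
  have e2 : N15.map (w15 rows1 (dg (pack (gx t y)))) = N15.map (w15 rows1 (digs t y)) := by
    apply List.map_congr_left
    intro p hp
    obtain ⟨p1, p2, p3, p4, p5⟩ := N15_lt p hp
    unfold w15
    rw [dg_gx t hlt y _ _ p1 p2, dg_gx t hlt y _ _ p1 p3, dg_gx t hlt y _ _ p2 p3,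
      dg_gx t hlt y _ _ p1 p4, dg_gx t hlt y _ _ p1 p5, dg_gx t hlt y _ _ p4 p5]
  rw [e1, e2] at h
  linarith

end GE

end Pool.Agent.H5.SF
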