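import Pool.Agent.H5SF.SFinal
import Pool.Agent.H5.Opt
import Pool.Agent.H5.Exact

/-!
# 3-graphs containing the Fon-Der-Flaass 3-graph of an oriented graph
-/

namespace Pool.Agent.H5.SF

open Finset Pool.Agent.H5

theorem hv_swap12 : ∀ a < 3, ∀ b < 3, ∀ c < 3, hv (flip3 a) c b = hv a b c := by decide

theorem hv_swap23 : ∀ a < 3, ∀ b < 3, ∀ c < 3, hv b a (flip3 c) = hv a b c := by decide

theorem sum_support {V : Type*} [Fintype V] (w : V → ℝ) (hw : ∀ v, 0 ≤ w v) (f : V → ℝ) :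
    ∑ v : {v // 0 < w v}, w v.1 * f v.1 = ∑ v, w v * f v := by
  classical
  have h1 : ∑ v ∈ univ.filter (fun v => 0 < w v), w v * f v
      = ∑ v : {v // 0 < w v}, w v.1 * f v.1 :=
    sum_subtype _ (fun v => by simp) (fun v => w v * f v)
  rw [← h1, sum_filter]
  refine sum_congr rfl fun v _ => ?_
  split_ifs with h
  · rfl
  · have : w v = 0 := le_antisymm (not_lt.mp h) (hw v)
    rw [this, zero_mul]

variable {n : ℕ} (Γ : Orgraph n) (H : Finset (Finset (Fin n)))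

/-- Edges of `H` that are induced directed 2-paths of `Γ`. -/
def Ex (a b c : Fin n) : Prop :=
  ({a, b, c} : Finset (Fin n)) ∈ H ∧ (IsP2 Γ.arc a b c ∨ IsP2 Γ.arc a c b ∨ IsP2 Γ.arc b a c ∨
    IsP2 Γ.arc b c a ∨ IsP2 Γ.arc c a b ∨ IsP2 Γ.arc c b a)

theorem Ex12 (a b c : Fin n) (h : Ex Γ H a b c) : Ex Γ H b a c := by
  obtain ⟨h1, h2⟩ := h
  refine ⟨?_, ?_⟩
  · rwa [insert_comm]
  · tauto

theorem Ex23 (a b c : Fin n) (h : Ex Γ H a b c) : Ex Γ H a c b := by
  obtain ⟨h1, h2⟩ := h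
  refine ⟨?_, ?_⟩
  · have : ({a, c, b} : Finset (Fin n)) = {a, b, c} := by
      ext x; simp only [mem_insert, mem_singleton]; tauto
    rwa [this]
  · tauto

theorem p2_distinct {a b c : Fin n} (h : IsP2 Γ.arc a b c) : a ≠ b ∧ a ≠ c ∧ b ≠ c := by
  obtain ⟨h1, h2, h3, h4⟩ := h
  refine ⟨?_, ?_, ?_⟩
  · rintro rfl; exact Γ.asymm _ _ h1 h1
  · rintro rfl; exact Γ.asymm _ _ h1 h2
  · rintro rfl; exact Γ.asymm _ _ h2 h2

theorem Ex_distinct {a b c : Fin n} (h : Ex Γ H a b c) : a ≠ b ∧ a ≠ c ∧ b ≠ c := by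
  rcases h.2 with h | h | h | h | h | h <;> have := p2_distinct Γ h <;> tauto

/-- Every four vertices contain an edge. -/
def Turan : Prop := (∀ e ∈ H, e.card = 3) ∧ ∀ S : Finset (Fin n), S.card = 4 → ∃ e ∈ H, e ⊆ S

theorem Ex_c4 (hT : Turan H) (a b c d : Fin n) (h1 : Γ.arc a b) (h2 : Γ.arc b c) (h3 : Γ.arc c d)
    (h4 : Γ.arc d a) (h5 : ¬ Γ.arc a c) (h6 : ¬ Γ.arc c a) (h7 : ¬ Γ.arc b d) (h8 : ¬ Γ.arc d b) :
    Ex Γ H a b c ∨ Ex Γ H b c d ∨ Ex Γ H c d a ∨ Ex Γ H d a b := by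
  classical
  have p1 : IsP2 Γ.arc a b c := ⟨h1, h2, h5, h6⟩
  have p2 : IsP2 Γ.arc b c d := ⟨h2, h3, h7, h8⟩
  have p3 : IsP2 Γ.arc c d a := ⟨h3, h4, h6, h5⟩
  have p4 : IsP2 Γ.arc d a b := ⟨h4, h1, h8, h7⟩
  obtain ⟨n1, n2, n3⟩ := p2_distinct Γ p1
  obtain ⟨n4, n5, n6⟩ := p2_distinct Γ p2
  obtain ⟨n7, n8, n9⟩ := p2_distinct Γ p3
  have hc : ({a, b, c, d} : Finset (Fin n)).card = 4 :=
    card_eq_four.mpr ⟨a, b, c, d, n1, n2, n9.symm, n4, n5, n6, rfl⟩
  obtain ⟨e, he, hsub⟩ := hT.2 _ hc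
  have hcard := hT.1 e he
  -- the missing vertex
  obtain ⟨x, hx, hxe⟩ : ∃ x ∈ ({a, b, c, d} : Finset (Fin n)), x ∉ e := by
    by_contra hcon
    push Not at hcon
    have := card_le_card (show ({a, b, c, d} : Finset (Fin n)) ⊆ e from hcon)
    omega
  have heq : e = ({a, b, c, d} : Finset (Fin n)).erase x := by
    apply eq_of_subset_of_card_le
    · intro y hy
      rw [mem_erase]
      exact ⟨fun h => hxe (h ▸ hy), hsub hy⟩
    · rw [card_erase_of_mem hx, hc, hcard]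
  simp only [mem_insert, mem_singleton] at hx
  rcases hx with rfl | rfl | rfl | rfl
  · have : ({x, b, c, d} : Finset (Fin n)).erase x = {b, c, d} := by
      ext y
      simp only [mem_erase, mem_insert, mem_singleton]
      constructor
      · rintro ⟨h, h'⟩; tauto
      · rintro (h | h | h) <;> subst h <;> exact ⟨by tauto, by tauto⟩
    rw [heq, this] at he
    exact Or.inr (Or.inl ⟨he, Or.inl p2⟩)
  · have : ({a, x, c, d} : Finset (Fin n)).erase x = {c, d, a} := by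
      ext y
      simp only [mem_erase, mem_insert, mem_singleton]
      constructor
      · rintro ⟨h, h'⟩; tauto
      · rintro (h | h | h) <;> subst h <;> exact ⟨by tauto, by tauto⟩
    rw [heq, this] at he
    exact Or.inr (Or.inr (Or.inl ⟨he, Or.inl p3⟩))
  · have : ({a, b, x, d} : Finset (Fin n)).erase x = {d, a, b} := by
      ext y
      simp only [mem_erase, mem_insert, mem_singleton]
      constructor
      · rintro ⟨h, h'⟩; tauto
      · rintro (h | h | h) <;> subst h <;> exact ⟨by tauto, by tauto⟩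
    rw [heq, this] at he
    exact Or.inr (Or.inr (Or.inr ⟨he, Or.inl p4⟩))
  · have : ({a, b, c, x} : Finset (Fin n)).erase x = {a, b, c} := by
      ext y
      simp only [mem_erase, mem_insert, mem_singleton]
      constructor
      · rintro ⟨h, h'⟩; tauto
      · rintro (h | h | h) <;> subst h <;> exact ⟨by tauto, by tauto⟩
    rw [heq, this] at he
    exact Or.inl ⟨he, Or.inl p1⟩

open Classical in
/-- Indicator of the marks. -/
noncomputable def exv (a b c : Fin n) : ℕ := if Ex Γ H a b c then 1 else 0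

/-- Real value of an ordered triple. -/
noncomputable def F (a b c : Fin n) : ℝ := (Γ.hval a b c : ℝ) + (exv Γ H a b c : ℝ)

theorem exv12 (a b c : Fin n) : exv Γ H b a c = exv Γ H a b c := by
  unfold exv
  by_cases h : Ex Γ H a b c
  · rw [if_pos h, if_pos (Ex12 _ _ _ _ _ h)]
  · rw [if_neg h, if_neg (fun h' => h (Ex12 _ _ _ _ _ h'))]

theorem exv23 (a b c : Fin n) : exv Γ H a c b = exv Γ H a b c := by
  unfold exv
  by_cases h : Ex Γ H a b c
  · rw [if_pos h, if_pos (Ex23 _ _ _ _ _ h)]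
  · rw [if_neg h, if_neg (fun h' => h (Ex23 _ _ _ _ _ h'))]

theorem F_swap12 (a b c : Fin n) : F Γ H b a c = F Γ H a b c := by
  unfold F Orgraph.hval
  rw [Γ.code_flip a b, hv_swap12 _ (Γ.code_lt a b) _ (Γ.code_lt a c) _ (Γ.code_lt b c), exv12]

theorem F_swap23 (a b c : Fin n) : F Γ H a c b = F Γ H a b c := by
  unfold F Orgraph.hval
  rw [Γ.code_flip b c, hv_swap23 _ (Γ.code_lt a b) _ (Γ.code_lt a c) _ (Γ.code_lt b c), exv23]

/-- The weighted system on the support of a weighting. -/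
noncomputable def sys (hT : Turan H) (w : Fin n → ℝ) (hw : ∀ v, 0 ≤ w v)
    (h1 : ∑ v, w v = 1) : Sys {v // 0 < w v} where
  w v := w v.1
  pos v := v.2
  one := by
    have := sum_support w hw (fun _ => 1)
    simpa [h1] using this
  arc u v := Γ.arc u.1 v.1
  asymm u v := Γ.asymm u.1 v.1
  ex a b c := Ex Γ H a.1 b.1 c.1
  ex12 a b c := Ex12 Γ H a.1 b.1 c.1
  ex23 a b c := Ex23 Γ H a.1 b.1 c.1
  exP a b c h := h.2
  c4 a b c d := Ex_c4 Γ H hT a.1 b.1 c.1 d.1

theorem sys_code (hT : Turan H) (w : Fin n → ℝ) (hw : ∀ v, 0 ≤ w v)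
    (h1 : ∑ v, w v = 1) (u v : {v // 0 < w v}) :
    (sys Γ H hT w hw h1).code u v = Γ.code u.1 v.1 := by
  unfold Sys.code Orgraph.code
  rfl

theorem sys_hR (hT : Turan H) (w : Fin n → ℝ) (hw : ∀ v, 0 ≤ w v)
    (h1 : ∑ v, w v = 1) (a b c : {v // 0 < w v}) :
    (sys Γ H hT w hw h1).hR a b c = F Γ H a.1 b.1 c.1 := by
  unfold Sys.hR
  rw [← Sys.hv_eq, sys_code, sys_code, sys_code]
  rfl

theorem sys_E (hT : Turan H) (w : Fin n → ℝ) (hw : ∀ v, 0 ≤ w v)
    (h1 : ∑ v, w v = 1) (f : Fin n → ℝ) :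
    (sys Γ H hT w hw h1).E (fun v => f v.1) = ∑ v, w v * f v :=
  sum_support w hw f

theorem sys_lk (hT : Turan H) (w : Fin n → ℝ) (hw : ∀ v, 0 ≤ w v)
    (h1 : ∑ v, w v = 1) (a : {v // 0 < w v}) :
    (sys Γ H hT w hw h1).lk a = Opt.L (F Γ H) w a.1 := by
  unfold Sys.lk
  simp_rw [sys_hR]
  have e1 : ∀ b : {v // 0 < w v}, (sys Γ H hT w hw h1).E (fun c => F Γ H a.1 b.1 c.1)
      = ∑ c, w c * F Γ H a.1 b.1 c := fun b => sys_E Γ H hT w hw h1 (fun c => F Γ H a.1 b.1 c)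
  simp_rw [e1]
  rw [sys_E Γ H hT w hw h1 (fun b => ∑ c, w c * F Γ H a.1 b c)]
  unfold Opt.L
  refine sum_congr rfl fun b _ => ?_
  rw [mul_sum]
  exact sum_congr rfl fun c _ => by ring

theorem sys_h (hT : Turan H) (w : Fin n → ℝ) (hw : ∀ v, 0 ≤ w v)
    (h1 : ∑ v, w v = 1) : (sys Γ H hT w hw h1).h = Opt.H (F Γ H) w := by
  have : (sys Γ H hT w hw h1).h = (sys Γ H hT w hw h1).E (fun a => (sys Γ H hT w hw h1).lk a) := rfl
  rw [this]
  simp_rw [sys_lk]
  rw [sys_E Γ H hT w hw h1 (fun a => Opt.L (F Γ H) w a), Opt.H_eq]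

/-- The weighted density is at least `4/9`, for every weighting. -/
theorem weighted (hT : Turan H) (w : Fin n → ℝ) (hw : ∀ v, 0 ≤ w v)
    (h1 : ∑ v, w v = 1) : 4 / 9 ≤ Opt.H (F Γ H) w := by
  have hne : Nonempty (Fin n) := by
    by_contra hc
    rw [not_nonempty_iff] at hc
    simp at h1
  obtain ⟨w₀, p0, p1, p2, p3⟩ := Opt.exists_opt (F Γ H) (F_swap12 Γ H) (F_swap23 Γ H)
  refine le_trans ?_ (p2 w hw h1)
  rw [← sys_h Γ H hT w₀ p0 p1]
  apply Sys.four_ninths
  intro v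
  rw [sys_h, sys_lk]
  exact p3 v.1 v.2

open Classical in
/-- Ordered triples of marks. -/
noncomputable def marks : Finset (Fin n × Fin n × Fin n) :=
  univ.filter fun p => Ex Γ H p.1 p.2.1 p.2.2

theorem marks_card : ((marks Γ H).card : ℤ) = ∑ a, ∑ b, ∑ c, (exv Γ H a b c : ℤ) := by
  classical
  unfold marks
  rw [card_filter]
  push_cast
  rw [Fintype.sum_prod_type]
  refine sum_congr rfl fun a _ => ?_
  rw [Fintype.sum_prod_type]
  refine sum_congr rfl fun b _ => sum_congr rfl fun c _ => ?_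
  unfold exv
  split_ifs <;> simp

/-- Ordered triples with repetitions. -/
theorem triples_ge (hT : Turan H) :
    (4 / 9 : ℝ) * (n : ℝ) ^ 3 ≤ Γ.triples.card + (marks Γ H).card := by
  rcases Nat.eq_zero_or_pos n with rfl | hn
  · simp
  have hn0 : (0 : ℝ) < n := by exact_mod_cast hn
  have h1 := weighted Γ H hT (fun _ => 1 / (n : ℝ)) (fun _ => by positivity) (by
    rw [sum_const, card_univ, Fintype.card_fin, nsmul_eq_mul]
    field_simp)
  have h2 : Opt.H (F Γ H) (fun _ => 1 / (n : ℝ))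
      = (1 / (n : ℝ)) ^ 3 * (Γ.triples.card + (marks Γ H).card) := by
    have h3 : (Γ.triples.card : ℝ) = ∑ a, ∑ b, ∑ c, (Γ.hval a b c : ℝ) := by
      have := Γ.triples_card
      exact_mod_cast this
    have h4 : ((marks Γ H).card : ℝ) = ∑ a, ∑ b, ∑ c, (exv Γ H a b c : ℝ) := by
      have := marks_card Γ H
      exact_mod_cast this
    rw [h3, h4]
    unfold Opt.H Opt.T F
    simp_rw [← sum_add_distrib, mul_sum]
    refine sum_congr rfl fun a _ => sum_congr rfl fun b _ => sum_congr rfl fun c _ => ?_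
    ring
  rw [h2] at h1
  have h4 : (n : ℝ) ^ 3 * (4 / 9)
      ≤ (n : ℝ) ^ 3 * ((1 / (n : ℝ)) ^ 3 * (Γ.triples.card + (marks Γ H).card)) :=
    mul_le_mul_of_nonneg_left h1 (by positivity)
  have h5 : (n : ℝ) ^ 3 * ((1 / (n : ℝ)) ^ 3 * (Γ.triples.card + (marks Γ H).card))
      = Γ.triples.card + (marks Γ H).card := by
    field_simp
  rw [h5] at h4
  linarith

/-- Ordered triples of distinct vertices of edge pattern. -/
noncomputable def dtriples : Finset (Fin n × Fin n × Fin n) :=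
  Γ.triples.filter fun p => p.1 ≠ p.2.1 ∧ p.1 ≠ p.2.2 ∧ p.2.1 ≠ p.2.2

theorem exv_hval {a b c : Fin n} (h : Ex Γ H a b c) : Γ.hval a b c = 0 := by
  have key : ∀ u m v, IsP2 Γ.arc u m v → Γ.code u v = 0 ∧ Γ.code u m = 1 ∧ Γ.code m v = 1 := by
    intro u m v h
    obtain ⟨h1, h2, h3, h4⟩ := h
    refine ⟨?_, (Γ.code_eq_one _ _).mpr h1, (Γ.code_eq_one _ _).mpr h2⟩
    rw [Γ.code_eq_zero]
    unfold Orgraph.Adj
    tauto
  have fl : ∀ u v x, Γ.code u v = x → Γ.code v u = flip3 x := by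
    intro u v x h
    rw [Γ.code_flip u v, h]
  unfold Orgraph.hval
  rcases h.2 with h | h | h | h | h | h <;> obtain ⟨h1, h2, h3⟩ := key _ _ _ h
  · rw [h1, h2, h3]; rfl
  · rw [h1, h2, fl _ _ _ h3]; rfl
  · rw [h3, h1, fl _ _ _ h2]; rfl
  · rw [h2, fl _ _ _ h1, fl _ _ _ h3]; rfl
  · rw [h3, fl _ _ _ h1, fl _ _ _ h2]; rfl
  · rw [fl _ _ _ h1, fl _ _ _ h2, fl _ _ _ h3]; rfl

theorem distinct_le (hH : ∀ e ∈ H, e.card = 3) (hsub : Γ.fdf ⊆ H) :
    (dtriples Γ).card + (marks Γ H).card ≤ 6 * H.card := by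
  classical
  have hdisj : Disjoint (dtriples Γ) (marks Γ H) := by
    rw [disjoint_left]
    intro p hp hp'
    unfold dtriples at hp
    unfold marks at hp'
    rw [mem_filter] at hp hp'
    have h1 := hp.1
    unfold Orgraph.triples at h1
    rw [mem_filter] at h1
    exact h1.2 (exv_hval Γ H hp'.2)
  rw [← card_union_of_disjoint hdisj]
  have hdist : ∀ p ∈ dtriples Γ ∪ marks Γ H, p.1 ≠ p.2.1 ∧ p.1 ≠ p.2.2 ∧ p.2.1 ≠ p.2.2 := by
    intro p hp
    rw [mem_union] at hp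
    rcases hp with hp | hp
    · unfold dtriples at hp
      exact (mem_filter.mp hp).2
    · unfold marks at hp
      exact Ex_distinct Γ H (mem_filter.mp hp).2
  have hmap : ∀ p ∈ dtriples Γ ∪ marks Γ H, Orgraph.under p ∈ H := by
    intro p hp
    have hd := hdist p hp
    rw [mem_union] at hp
    rcases hp with hp | hp
    · unfold dtriples at hp
      rw [mem_filter] at hp
      have h1 := hp.1
      unfold Orgraph.triples at h1
      rw [mem_filter] at h1
      exact hsub (Γ.mem_fdf_of_hval hd.1 hd.2.1 hd.2.2 h1.2)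
    · unfold marks at hp
      exact (mem_filter.mp hp).2.1
  refine card_le_mul_card_image_of_maps_to hmap 6 ?_
  intro s hs
  refine le_trans (card_le_card ?_) (Orgraph.fiber_le s (hH s hs))
  intro p hp
  rw [mem_filter] at hp ⊢
  exact ⟨mem_univ _, hp.2⟩

/-- Exact comparison of the ordered triples with and without repetitions. -/
theorem triples_le_dtriples :
    Γ.triples.card + 3 * Γ.arcs.card + 2 * n ≤ (dtriples Γ).card + 3 * n ^ 2 := by
  classical
  set D : Finset (Fin n × Fin n × Fin n) := dtriples Γ with hD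
  set N1 : Finset (Fin n × Fin n × Fin n) := Γ.triples.filter fun p => p.1 = p.2.1 with hN1
  set N2 : Finset (Fin n × Fin n × Fin n) :=
    Γ.triples.filter fun p => p.1 ≠ p.2.1 ∧ p.1 = p.2.2 with hN2
  set N3 : Finset (Fin n × Fin n × Fin n) :=
    Γ.triples.filter fun p => p.1 ≠ p.2.1 ∧ p.2.1 = p.2.2 with hN3
  have hsub : Γ.triples ⊆ D ∪ (N1 ∪ (N2 ∪ N3)) := by
    intro p hp
    simp only [mem_union, hD, dtriples, hN1, hN2, hN3, mem_filter, hp, true_and]
    tauto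
  have hmem : ∀ p ∈ Γ.triples, Γ.hval p.1 p.2.1 p.2.2 ≠ 0 := by
    intro p hp
    unfold Orgraph.triples at hp
    exact (mem_filter.mp hp).2
  have c1 : N1.card ≤ (univ.filter fun p : Fin n × Fin n => ¬ Γ.arc p.1 p.2).card := by
    refine card_le_card_of_injOn (fun p => (p.1, p.2.2)) ?_ ?_
    · rintro ⟨a, b, c⟩ hp
      rw [hN1, coe_filter] at hp
      obtain ⟨h1, h2⟩ := hp
      have h3 := hmem _ h1
      simp only at h2 h3
      subst h2
      rw [coe_filter]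
      refine ⟨mem_univ _, ?_⟩
      change ¬ Γ.arc a c
      unfold Orgraph.hval at h3
      rw [Γ.code_self] at h3
      have := hv_aac _ (Γ.code_lt a c) h3
      rw [← Γ.code_eq_one]
      exact this
    · rintro ⟨a, b, c⟩ hp ⟨a', b', c'⟩ hp' h
      rw [hN1, coe_filter] at hp hp'
      have h2 := hp.2
      have h2' := hp'.2
      simp only [Prod.mk.injEq] at h h2 h2' ⊢
      exact ⟨h.1, by rw [← h2, ← h2', h.1], h.2⟩
  have c2 : N2.card ≤ (univ.filter fun p : Fin n × Fin n => p.1 ≠ p.2 ∧ ¬ Γ.arc p.1 p.2).card := by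
    refine card_le_card_of_injOn (fun p => (p.1, p.2.1)) ?_ ?_
    · rintro ⟨a, b, c⟩ hp
      rw [hN2, coe_filter] at hp
      obtain ⟨h1, h4, h2⟩ := hp
      have h3 := hmem _ h1
      simp only at h2 h3 h4
      subst h2
      rw [coe_filter]
      refine ⟨mem_univ _, h4, ?_⟩
      change ¬ Γ.arc a b
      unfold Orgraph.hval at h3
      rw [Γ.code_self, Γ.code_flip a b] at h3
      have := hv_aba _ (Γ.code_lt a b) h3
      rw [← Γ.code_eq_one]
      exact this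
    · rintro ⟨a, b, c⟩ hp ⟨a', b', c'⟩ hp' h
      rw [hN2, coe_filter] at hp hp'
      have h2 := hp.2.2
      have h2' := hp'.2.2
      simp only [Prod.mk.injEq] at h h2 h2' ⊢
      exact ⟨h.1, h.2, by rw [← h2, ← h2', h.1]⟩
  have c3 : N3.card ≤ (univ.filter fun p : Fin n × Fin n => p.1 ≠ p.2 ∧ ¬ Γ.arc p.1 p.2).card := by
    refine card_le_card_of_injOn (fun p => (p.2.1, p.1)) ?_ ?_
    · rintro ⟨a, b, c⟩ hp
      rw [hN3, coe_filter] at hp
      obtain ⟨h1, h4, h2⟩ := hp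
      have h3 := hmem _ h1
      simp only at h2 h3 h4
      subst h2
      rw [coe_filter]
      refine ⟨mem_univ _, Ne.symm h4, ?_⟩
      change ¬ Γ.arc b a
      unfold Orgraph.hval at h3
      rw [Γ.code_self] at h3
      have := hv_abb _ (Γ.code_lt a b) h3
      rw [← Γ.code_eq_two]
      exact this
    · rintro ⟨a, b, c⟩ hp ⟨a', b', c'⟩ hp' h
      rw [hN3, coe_filter] at hp hp'
      have h2 := hp.2.2
      have h2' := hp'.2.2
      simp only [Prod.mk.injEq] at h h2 h2' ⊢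
      exact ⟨h.2, h.1, by rw [← h2, ← h2', h.1]⟩
  have h1 := card_le_card hsub
  have h2 := card_union_le D (N1 ∪ (N2 ∪ N3))
  have h3 := card_union_le N1 (N2 ∪ N3)
  have h4 := card_union_le N2 N3
  have h6 := Γ.nonarcs_card
  have h7 := Γ.nonarcs_card'
  omega

theorem _root_.Pool.Agent.H5.Orgraph.card_of_mem_fdf {e : Finset (Fin n)} (he : e ∈ Γ.fdf) :
    e.card = 3 := by
  classical
  unfold Orgraph.fdf at he
  rw [mem_filter] at he
  obtain ⟨u, v, w, h1, h2, h3, rfl, _⟩ := he.2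
  exact card_eq_three.mpr ⟨u, v, w, h1, h2, h3, rfl⟩

/-- The bound. -/
theorem main (hT : Turan H) (hsub : Γ.fdf ⊆ H) :
    (2 / 27 : ℝ) * (n : ℝ) ^ 3 - (n : ℝ) ^ 2 / 2 + (n : ℝ) / 3 + (Γ.arcs.card : ℝ) / 2
      ≤ (H.card : ℝ) := by
  have h1 := triples_ge Γ H hT
  have h2 : (Γ.triples.card : ℝ) + 3 * Γ.arcs.card + 2 * n ≤ (dtriples Γ).card + 3 * (n : ℝ) ^ 2 := by
    exact_mod_cast triples_le_dtriples Γ
  have h3 : ((dtriples Γ).card : ℝ) + (marks Γ H).card ≤ 6 * H.card := by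
    exact_mod_cast distinct_le Γ H hT.1 hsub
  linarith

end Pool.Agent.H5.SF
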