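import Pool.Agent.H5SF.SFlag

/-!
# Kernel-checked tables for certificates with marked directed 2-paths
-/

namespace Pool.Agent.H5.SF

open Finset Pool.Agent.H5 Pool.Agent.H5.W

/-- The ten triples of positions, each with the two remaining positions. -/
def N10 : List (ℕ × ℕ × ℕ × ℕ × ℕ) :=
  [(0, 1, 2, 3, 4), (0, 1, 3, 2, 4), (0, 1, 4, 2, 3), (0, 2, 3, 1, 4), (0, 2, 4, 1, 3),
   (0, 3, 4, 1, 2), (1, 2, 3, 0, 4), (1, 2, 4, 0, 3), (1, 3, 4, 0, 2), (2, 3, 4, 0, 1)]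

/-- The six orders of a triple. -/
def six (q : ℕ × ℕ × ℕ × ℕ × ℕ) : List (ℕ × ℕ × ℕ × ℕ × ℕ) :=
  [(q.1, q.2.1, q.2.2.1, q.2.2.2.1, q.2.2.2.2), (q.1, q.2.2.1, q.2.1, q.2.2.2.1, q.2.2.2.2),
   (q.2.1, q.1, q.2.2.1, q.2.2.2.1, q.2.2.2.2), (q.2.1, q.2.2.1, q.1, q.2.2.2.1, q.2.2.2.2),
   (q.2.2.1, q.1, q.2.1, q.2.2.2.1, q.2.2.2.2), (q.2.2.1, q.2.1, q.1, q.2.2.2.1, q.2.2.2.2)]

theorem N60_perm : N60.Perm (N10.flatMap six) := by decide +kernel

theorem N10_lt : ∀ p ∈ N10, p.1 < 5 ∧ p.2.1 < 5 ∧ p.2.2.1 < 5 ∧ p.2.2.2.1 < 5 ∧ p.2.2.2.2 < 5 := by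
  decide +kernel

/-- Key of a triple of positions. -/
def key3 (i j k : ℕ) : ℕ := Nat.add (Nat.add (Nat.pow 2 i) (Nat.pow 2 j)) (Nat.pow 2 k)

/-- The triple `q` is a rearrangement of `(i,j,k)` with the same key. -/
def permB (i j k : ℕ) (q : ℕ × ℕ × ℕ × ℕ × ℕ) : Bool :=
  Nat.beq (key3 q.1 q.2.1 q.2.2.1) (key3 i j k) &&
    ((Nat.beq q.1 i && Nat.beq q.2.1 j && Nat.beq q.2.2.1 k) ||
     (Nat.beq q.1 i && Nat.beq q.2.1 k && Nat.beq q.2.2.1 j) ||
     (Nat.beq q.1 j && Nat.beq q.2.1 i && Nat.beq q.2.2.1 k) ||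
     (Nat.beq q.1 j && Nat.beq q.2.1 k && Nat.beq q.2.2.1 i) ||
     (Nat.beq q.1 k && Nat.beq q.2.1 i && Nat.beq q.2.2.1 j) ||
     (Nat.beq q.1 k && Nat.beq q.2.1 j && Nat.beq q.2.2.1 i))

theorem exists_sortedB : ∀ i < 5, ∀ j < 5, ∀ k < 5,
    (Nat.beq i j || Nat.beq i k || Nat.beq j k || N10.any (permB i j k)) = true := by
  decide +kernel

theorem exists_sorted (i : ℕ) (hi : i < 5) (j : ℕ) (hj : j < 5) (k : ℕ) (hk : k < 5)
    (hij : i ≠ j) (hik : i ≠ k) (hjk : j ≠ k) :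
    ∃ q ∈ N10, key3 q.1 q.2.1 q.2.2.1 = key3 i j k ∧
      ((q.1 = i ∧ q.2.1 = j ∧ q.2.2.1 = k) ∨ (q.1 = i ∧ q.2.1 = k ∧ q.2.2.1 = j) ∨
       (q.1 = j ∧ q.2.1 = i ∧ q.2.2.1 = k) ∨ (q.1 = j ∧ q.2.1 = k ∧ q.2.2.1 = i) ∨
       (q.1 = k ∧ q.2.1 = i ∧ q.2.2.1 = j) ∨ (q.1 = k ∧ q.2.1 = j ∧ q.2.2.1 = i)) := by
  have h := exists_sortedB i hi j hj k hk
  rw [Bool.or_eq_true, Bool.or_eq_true, Bool.or_eq_true, Nat.beq_eq, Nat.beq_eq, Nat.beq_eq,
    List.any_eq_true] at h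
  rcases h with ((h | h) | h) | ⟨q, hq, h⟩
  · exact absurd h hij
  · exact absurd h hik
  · exact absurd h hjk
  · refine ⟨q, hq, ?_⟩
    unfold permB at h
    simp only [Bool.or_eq_true, Bool.and_eq_true, Nat.beq_eq] at h
    refine ⟨h.1, ?_⟩
    rcases h.2 with ((((h | h) | h) | h) | h) | h
    · exact Or.inl ⟨h.1.1, h.1.2, h.2⟩
    · exact Or.inr (Or.inl ⟨h.1.1, h.1.2, h.2⟩)
    · exact Or.inr (Or.inr (Or.inl ⟨h.1.1, h.1.2, h.2⟩))
    · exact Or.inr (Or.inr (Or.inr (Or.inl ⟨h.1.1, h.1.2, h.2⟩)))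
    · exact Or.inr (Or.inr (Or.inr (Or.inr (Or.inl ⟨h.1.1, h.1.2, h.2⟩))))
    · exact Or.inr (Or.inr (Or.inr (Or.inr (Or.inr ⟨h.1.1, h.1.2, h.2⟩))))

theorem C30_ne : ∀ p ∈ C30t, (p.1 < 5 ∧ p.2.1 < 5 ∧ p.2.2.1 < 5 ∧ p.2.2.2 < 5) ∧
    p.1 ≠ p.2.1 ∧ p.1 ≠ p.2.2.1 ∧ p.1 ≠ p.2.2.2 ∧ p.2.1 ≠ p.2.2.1 ∧ p.2.1 ≠ p.2.2.2 ∧
    p.2.2.1 ≠ p.2.2.2 := by
  decide +kernel

section Sum

variable (base : ℕ → ℤ)
  (rows3 : ℕ → ℕ → List ℤ) (rowsE : ℕ → List ℤ) (lin : ℕ → ℕ → ℤ) (K : ℤ)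

theorem sum_uE (T : ℕ → ℕ → ℕ) (E : ℕ → ℕ → ℕ → ℕ) (hA : Adm T E) :
    (N60.map (uE base rows3 rowsE lin K T E)).sum = (N60.map (u60 base rows3 lin T)).sum
      + (N10.map (fun q => (E q.1 q.2.1 q.2.2.1 : ℤ) *
        (6 * K + ((six q).map (gE rows3 rowsE T)).sum))).sum := by
  have h1 : (N60.map (uE base rows3 rowsE lin K T E)).sum
      = (N60.map (u60 base rows3 lin T)).sum
        + (N60.map (fun p => (E p.1 p.2.1 p.2.2.1 : ℤ) * (K + gE rows3 rowsE T p))).sum := by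
    rw [← List.sum_map_add]
    rfl
  rw [h1]
  congr 1
  rw [(N60_perm.map _).sum_eq, List.map_flatMap]
  have h2 : ∀ L : List (ℕ × ℕ × ℕ × ℕ × ℕ),
      (∀ p ∈ L, p.1 < 5 ∧ p.2.1 < 5 ∧ p.2.2.1 < 5 ∧ p.2.2.2.1 < 5 ∧ p.2.2.2.2 < 5) →
      (L.flatMap (fun q => (six q).map
        (fun p => (E p.1 p.2.1 p.2.2.1 : ℤ) * (K + gE rows3 rowsE T p)))).sum
      = (L.map (fun q => (E q.1 q.2.1 q.2.2.1 : ℤ) *
        (6 * K + ((six q).map (gE rows3 rowsE T)).sum))).sum := by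
    intro L
    induction L with
    | nil => intro _; rfl
    | cons q L ih =>
      intro hL
      rw [List.flatMap_cons, List.sum_append, ih (fun p hp => hL p (List.mem_cons_of_mem _ hp)),
        List.map_cons, List.sum_cons]
      congr 1
      obtain ⟨a, b, c, -, -⟩ := hL q List.mem_cons_self
      have e1 := hA.s12 _ a _ b _ c
      have e2 := hA.s23 _ a _ b _ c
      have e3 := hA.s12 _ a _ c _ b
      have e4 := hA.s23 _ b _ a _ c
      have e5 := hA.s23 _ c _ a _ b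
      simp only [six, List.map_cons, List.map_nil, List.sum_cons, List.sum_nil]
      rw [e5, e4, e3, e2, e1]
      ring
  exact h2 N10 N10_lt

end Sum

/-! ### Kernel functions -/

/-- The order `p` shows the canonical directed 2-path. -/
noncomputable def code5 (T : ℕ) (p : ℕ × ℕ × ℕ × ℕ × ℕ) : Bool :=
  Nat.beq (code3 (dg T p.1 p.2.1) (dg T p.1 p.2.2.1) (dg T p.2.1 p.2.2.1)) 5

noncomputable def isP2 (T : ℕ) (q : ℕ × ℕ × ℕ × ℕ × ℕ) : Bool := anyL (code5 T) (six q)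

noncomputable def mE (zl : ℕ → ℕ → ℕ) (T : ℕ) (q : ℕ × ℕ × ℕ × ℕ × ℕ) : ℕ :=
  sumL (fun p => iteN (code5 T p)
    (zl (code3 (dg T p.1 p.2.2.2.1) (dg T p.2.1 p.2.2.2.1) (dg T p.2.2.1 p.2.2.2.1))
      (code3 (dg T p.1 p.2.2.2.2) (dg T p.2.1 p.2.2.2.2) (dg T p.2.2.1 p.2.2.2.2))) 0) (six q)

/-- Boolean negation. -/
noncomputable def notB (a : Bool) : Bool := Bool.rec (motive := fun _ => Bool) true false a

theorem notB_iff (a : Bool) : notB a = true ↔ a = false := by cases a <;> simp [notB]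

/-- Some induced directed 4-cycle contains none of the triples with keys in `F`. -/
noncomputable def unhit (T : ℕ) (F : ℕ → Bool) : Bool :=
  anyL (fun p => p (fun i j k l =>
    andB (andB (Nat.beq (dg T i j) 1) (andB (Nat.beq (dg T j k) 1) (andB (Nat.beq (dg T k l) 1)
      (andB (Nat.beq (dg T l i) 1) (andB (Nat.beq (dg T i k) 0) (Nat.beq (dg T j l) 0))))))
    (andB (notB (F (key3 i j k))) (andB (notB (F (key3 j k l)))
      (andB (notB (F (key3 k l i))) (notB (F (key3 l i j)))))))) C30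

/-- Loop over the marks. -/
noncomputable def goE (T K6 : ℕ) (m p : (ℕ × ℕ × ℕ × ℕ × ℕ) → ℕ)
    (L : List (ℕ × ℕ × ℕ × ℕ × ℕ)) : ℕ → ℕ → (ℕ → Bool) → Bool :=
  List.rec (motive := fun _ => ℕ → ℕ → (ℕ → Bool) → Bool)
    (fun A B F => orB (Nat.ble A B) (unhit T F))
    (fun q _ ih A B F => Bool.rec (motive := fun _ => Bool) (ih A B F)
      (andB (ih A B F) (forceN (Nat.add A (m q)) (fun A' =>
        forceN (Nat.add B (Nat.add K6 (p q))) (fun B' =>
          ih A' B' (fun s => orB (Nat.beq s (key3 q.1 q.2.1 q.2.2.1)) (F s)))))) (isP2 T q)) L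

theorem goE_spec (T K6 : ℕ) (m p : (ℕ × ℕ × ℕ × ℕ × ℕ) → ℕ) (ε : (ℕ × ℕ × ℕ × ℕ × ℕ) → ℕ) :
    ∀ (L : List (ℕ × ℕ × ℕ × ℕ × ℕ)), (∀ q ∈ L, ε q ≤ 1) → (∀ q ∈ L, ε q = 1 → isP2 T q = true) →
    ∀ (A B : ℕ) (F : ℕ → Bool), goE T K6 m p L A B F = true →
    A + (L.map (fun q => ε q * m q)).sum ≤ B + (L.map (fun q => ε q * (K6 + p q))).sum ∨
    ∃ G : ℕ → Bool, (∀ s, G s = true ↔ F s = true ∨ ∃ q ∈ L, ε q = 1 ∧ s = key3 q.1 q.2.1 q.2.2.1) ∧
      unhit T G = true := by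
  intro L
  induction L with
  | nil =>
    intro _ _ A B F h
    have h' : orB (Nat.ble A B) (unhit T F) = true := h
    rw [orB_iff] at h'
    rcases h' with h' | h'
    · left
      simpa using Nat.le_of_ble_eq_true h'
    · right
      exact ⟨F, fun s => by simp, h'⟩
  | cons q L ih =>
    intro h1 h2 A B F h
    have h1' : ∀ q ∈ L, ε q ≤ 1 := fun q hq => h1 q (List.mem_cons_of_mem _ hq)
    have h2' : ∀ q ∈ L, ε q = 1 → isP2 T q = true := fun q hq => h2 q (List.mem_cons_of_mem _ hq)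
    have hq1 := h1 q List.mem_cons_self
    have hq2 := h2 q List.mem_cons_self
    have h' : Bool.rec (motive := fun _ => Bool) (goE T K6 m p L A B F)
      (andB (goE T K6 m p L A B F) (forceN (Nat.add A (m q)) (fun A' =>
        forceN (Nat.add B (Nat.add K6 (p q))) (fun B' =>
          goE T K6 m p L A' B' (fun s => orB (Nat.beq s (key3 q.1 q.2.1 q.2.2.1)) (F s))))))
      (isP2 T q) = true := h
    rcases Nat.lt_or_ge (ε q) 1 with h0 | h0
    · have h0 : ε q = 0 := by omega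
      have h3 : goE T K6 m p L A B F = true := by
        cases hb : isP2 T q with
        | false => rw [hb] at h'; exact h'
        | true =>
          rw [hb] at h'
          exact ((andB_iff _ _).mp h').1
      rcases ih h1' h2' A B F h3 with h4 | ⟨G, hG, hu⟩
      · left
        rw [List.map_cons, List.map_cons, List.sum_cons, List.sum_cons, h0]
        simpa using h4
      · right
        refine ⟨G, fun s => ?_, hu⟩
        rw [hG]
        constructor
        · rintro (h | ⟨r, hr, hr2⟩)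
          · exact Or.inl h
          · exact Or.inr ⟨r, List.mem_cons_of_mem _ hr, hr2⟩
        · rintro (h | ⟨r, hr, hr2⟩)
          · exact Or.inl h
          · rcases List.mem_cons.mp hr with h5 | h5
            · rw [h5, h0] at hr2
              exact absurd hr2.1 (by norm_num)
            · exact Or.inr ⟨r, h5, hr2⟩
    · have h0 : ε q = 1 := by omega
      have hb := hq2 h0
      rw [hb] at h'
      have h3 := ((andB_iff _ _).mp h').2
      rw [forceN_eq, forceN_eq] at h3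
      rcases ih h1' h2' _ _ _ h3 with h4 | ⟨G, hG, hu⟩
      · left
        rw [List.map_cons, List.map_cons, List.sum_cons, List.sum_cons, h0]
        change A + m q + _ ≤ B + (K6 + p q) + _ at h4
        linarith
      · right
        refine ⟨G, fun s => ?_, hu⟩
        rw [hG, orB_iff, Nat.beq_eq]
        constructor
        · rintro ((h | h) | ⟨r, hr, hr2⟩)
          · exact Or.inr ⟨q, List.mem_cons_self, h0, h⟩
          · exact Or.inl h
          · exact Or.inr ⟨r, List.mem_cons_of_mem _ hr, hr2⟩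
        · rintro (h | ⟨r, hr, hr2⟩)
          · exact Or.inl (Or.inr h)
          · rcases List.mem_cons.mp hr with h5 | h5
            · rw [h5] at hr2
              exact Or.inl (Or.inl hr2.2)
            · exact Or.inr ⟨r, h5, hr2⟩

section

variable (bt ctab : ℕ → ℕ) (zlook : ℕ → ℕ → ℕ → ℕ) (zE : ℕ → ℕ → ℕ) (rlook : ℕ → ℕ → ℕ)
  (OFF OFFR C3 K6 : ℕ)
  (rowsTab : List (List (List ℤ))) (rowsETab : List (List ℤ)) (rows1Tab : List (List ℤ))
  (linT : ℕ → ℕ → ℤ)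

/-- Check of one pattern. -/
noncomputable def patE (T : ℕ) : Bool :=
  forceN (Nat.add (Nat.mul 60 (Nat.add C3 OFF)) (Nat.mul 4 (rsum rlook T))) (fun A =>
    forceN (Nat.add (qsum bt ctab zlook OFF T) (Nat.mul 60 OFFR)) (fun B =>
      Bool.rec (motive := fun _ => Bool)
        (Nat.ble (Nat.add A (sumL (fun q => Nat.sub (mE (zlook 3) T q) (Nat.add K6 (mE zE T q))) N10)) B)
        (goE T K6 (mE (zlook 3) T) (mE zE T) N10 A B (fun _ => false)) (hasC4 T)))

noncomputable def repE (r : ℕ) : Bool :=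
  allL (fun e => forceN (Nat.add r e) (patE bt ctab zlook zE rlook OFF OFFR C3 K6)) exts

theorem rsum_eq
    (hr : ∀ f < 27, ∀ g < 27, (rlook f g : ℤ) = OFFR + dot (rows1Tab.getD f []) (rows1Tab.getD g []))
    (T : ℕ) (hT : ∀ i j, i < 5 → j < 5 → dg T i j < 3) :
    (rsum rlook T : ℤ) = (N15.map (w15 (rows1Of rows1Tab) (dg T))).sum + 15 * OFFR := by
  unfold rsum
  rw [sumL_eq, N15c_eq, List.map_map, cast_list_sum]
  have : ∀ p ∈ N15, (((((fun p => p (fun i j k l m =>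
      rlook (code3 (dg T i j) (dg T i k) (dg T j k)) (code3 (dg T i l) (dg T i m) (dg T l m)))) ∘
      (fun (p : ℕ × ℕ × ℕ × ℕ × ℕ) (k : ℕ → ℕ → ℕ → ℕ → ℕ → ℕ) =>
        k p.1 p.2.1 p.2.2.1 p.2.2.2.1 p.2.2.2.2)) p : ℕ) : ℤ))
      = w15 (rows1Of rows1Tab) (dg T) p + OFFR := by
    intro p hp
    obtain ⟨p1, p2, p3, p4, p5⟩ := N15_lt p hp
    simp only [Function.comp]
    rw [hr _ (code3_lt (hT _ _ p1 p2) (hT _ _ p1 p3) (hT _ _ p2 p3)) _
      (code3_lt (hT _ _ p1 p4) (hT _ _ p1 p5) (hT _ _ p4 p5))]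
    unfold w15 rows1Of
    ring
  rw [List.map_congr_left this, List.sum_map_add]
  have hl : N15.length = 15 := by decide +kernel
  rw [List.map_const', List.sum_replicate, hl]
  ring

theorem qsum_eq (hlen : rowsTab.length = 7)
    (hz : ∀ c < 7, ∀ f < 27, ∀ g < 27, (zlook c f g : ℤ) =
      OFF - dot ((rowsTab.getD c []).getD f []) ((rowsTab.getD c []).getD g []) - linT c f - linT c g)
    (hlin : ∀ f, linT 7 f = 0)
    (hct : ∀ τ < 27, ctab τ < 8)
    (T : ℕ) (hT : ∀ i j, i < 5 → j < 5 → dg T i j < 3) :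
    (qsum bt ctab zlook OFF T : ℤ) =
      (N60.map (u60 (baseOf bt C3) (rows3Of ctab rowsTab) (linOf ctab linT) (dg T))).sum
        + 60 * (C3 + OFF) := by
  unfold qsum
  rw [sumL_eq, N60c_eq, List.map_map, cast_list_sum]
  have : ∀ p ∈ N60, (((((fun p => p (fun i j k l m =>
      forceN (code3 (dg T i j) (dg T i k) (dg T j k))
        (fun τ => qterm bt ctab zlook OFF T τ i j k l m))) ∘
      (fun (p : ℕ × ℕ × ℕ × ℕ × ℕ) (k : ℕ → ℕ → ℕ → ℕ → ℕ → ℕ) =>
        k p.1 p.2.1 p.2.2.1 p.2.2.2.1 p.2.2.2.2)) p : ℕ) : ℤ))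
      = u60 (baseOf bt C3) (rows3Of ctab rowsTab) (linOf ctab linT) (dg T) p + (C3 + OFF) := by
    intro p hp
    obtain ⟨p1, p2, p3, p4, p5⟩ := N60_lt p hp
    simp only [Function.comp]
    rw [forceN_eq]
    have hτ := code3_lt (hT _ _ p1 p2) (hT _ _ p1 p3) (hT _ _ p2 p3)
    have hf := code3_lt (hT _ _ p1 p4) (hT _ _ p2 p4) (hT _ _ p3 p4)
    have hg := code3_lt (hT _ _ p1 p5) (hT _ _ p2 p5) (hT _ _ p3 p5)
    unfold u60 w60
    generalize code3 (dg T p.1 p.2.1) (dg T p.1 p.2.2.1) (dg T p.2.1 p.2.2.1) = τ at hτ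
    unfold qterm
    generalize code3 (dg T p.1 p.2.2.2.1) (dg T p.2.1 p.2.2.2.1) (dg T p.2.2.1 p.2.2.2.1) = f at hf
    generalize code3 (dg T p.1 p.2.2.2.2) (dg T p.2.1 p.2.2.2.2) (dg T p.2.2.1 p.2.2.2.2) = g at hg
    rw [forceN_eq, iteN_eq]
    have hc := hct τ hτ
    unfold baseOf rows3Of linOf
    by_cases h7 : ctab τ = 7
    · have hn : rowsTab.getD 7 [] = [] := List.getD_eq_default _ _ (by omega)
      rw [h7, hn, hlin, hlin]
      rw [if_pos (by rfl)]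
      have : dot (([] : List (List ℤ)).getD f []) (([] : List (List ℤ)).getD g []) = 0 := by
        simp [dot]
      rw [this]
      change ((bt τ + OFF : ℕ) : ℤ) = _
      push_cast
      ring
    · rw [if_neg (by intro hh; exact h7 (Nat.eq_of_beq_eq_true hh))]
      change ((bt τ + zlook (ctab τ) f g : ℕ) : ℤ) = _
      push_cast
      rw [hz _ (by omega) f hf g hg]
      ring
  rw [List.map_congr_left this, List.sum_map_add]
  have hl : N60.length = 60 := by decide +kernel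
  rw [List.map_const', List.sum_replicate, hl]
  ring

/-- The extra local terms of a triple from the tables. -/
theorem mE_diff
    (h3 : ∀ f < 27, ∀ g < 27, (zlook 3 f g : ℤ) = OFF - dot ((rowsTab.getD 3 []).getD f [])
      ((rowsTab.getD 3 []).getD g []))
    (hE : ∀ f < 27, ∀ g < 27, (zE f g : ℤ) = OFF - dot (rowsETab.getD f []) (rowsETab.getD g []))
    (hc5 : ctab 5 = 3)
    (T : ℕ) (hT : ∀ i j, i < 5 → j < 5 → dg T i j < 3) (q : ℕ × ℕ × ℕ × ℕ × ℕ)
    (hq : q.1 < 5 ∧ q.2.1 < 5 ∧ q.2.2.1 < 5 ∧ q.2.2.2.1 < 5 ∧ q.2.2.2.2 < 5) :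
    (mE zE T q : ℤ) - mE (zlook 3) T q
      = ((six q).map (gE (rows3Of ctab rowsTab) (fun f => rowsETab.getD f []) (dg T))).sum := by
  have key : ∀ L : List (ℕ × ℕ × ℕ × ℕ × ℕ),
      (∀ p ∈ L, p.1 < 5 ∧ p.2.1 < 5 ∧ p.2.2.1 < 5 ∧ p.2.2.2.1 < 5 ∧ p.2.2.2.2 < 5) →
      ((sumL (fun p => iteN (code5 T p)
        (zE (code3 (dg T p.1 p.2.2.2.1) (dg T p.2.1 p.2.2.2.1) (dg T p.2.2.1 p.2.2.2.1))
        (code3 (dg T p.1 p.2.2.2.2) (dg T p.2.1 p.2.2.2.2) (dg T p.2.2.1 p.2.2.2.2))) 0) L : ℕ) : ℤ)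
      - (sumL (fun p => iteN (code5 T p)
        (zlook 3 (code3 (dg T p.1 p.2.2.2.1) (dg T p.2.1 p.2.2.2.1) (dg T p.2.2.1 p.2.2.2.1))
        (code3 (dg T p.1 p.2.2.2.2) (dg T p.2.1 p.2.2.2.2) (dg T p.2.2.1 p.2.2.2.2))) 0) L : ℕ)
      = (L.map (gE (rows3Of ctab rowsTab) (fun f => rowsETab.getD f []) (dg T))).sum := by
    intro L
    induction L with
    | nil => intro _; simp [sumL_eq]
    | cons p L ih =>
      intro hL
      have ih' := ih (fun p hp => hL p (List.mem_cons_of_mem _ hp))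
      rw [sumL_eq, sumL_eq] at ih' ⊢
      rw [List.map_cons, List.map_cons, List.map_cons, List.sum_cons, List.sum_cons, List.sum_cons,
        ← ih']
      obtain ⟨p1, p2, p3, p4, p5⟩ := hL p List.mem_cons_self
      have hf := code3_lt (hT _ _ p1 p4) (hT _ _ p2 p4) (hT _ _ p3 p4)
      have hg := code3_lt (hT _ _ p1 p5) (hT _ _ p2 p5) (hT _ _ p3 p5)
      unfold gE
      rw [iteN_eq, iteN_eq]
      unfold code5
      generalize code3 (dg T p.1 p.2.1) (dg T p.1 p.2.2.1) (dg T p.2.1 p.2.2.1) = τ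
      generalize code3 (dg T p.1 p.2.2.2.1) (dg T p.2.1 p.2.2.2.1) (dg T p.2.2.1 p.2.2.2.1) = f
        at hf
      generalize code3 (dg T p.1 p.2.2.2.2) (dg T p.2.1 p.2.2.2.2) (dg T p.2.2.1 p.2.2.2.2) = g
        at hg
      unfold rows3Of
      rw [hc5]
      by_cases h5 : τ = 5
      · have hb : Nat.beq τ 5 = true := by rw [h5]; rfl
        rw [if_pos hb, if_pos hb, if_pos h5]
        push_cast
        rw [h3 f hf g hg, hE f hf g hg]
        ring
      · have hb : ¬ Nat.beq τ 5 = true := fun hh => h5 (Nat.eq_of_beq_eq_true hh)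
        rw [if_neg hb, if_neg hb, if_neg h5]
        push_cast
        ring
  unfold mE
  refine key (six q) ?_
  intro p hp
  obtain ⟨a, b, c, d, e⟩ := hq
  simp only [six, List.mem_cons, List.not_mem_nil, or_false] at hp
  rcases hp with rfl | rfl | rfl | rfl | rfl | rfl <;> exact ⟨by assumption, by assumption,
    by assumption, by assumption, by assumption⟩

theorem isP2_of {T : ℕ} {q : ℕ × ℕ × ℕ × ℕ × ℕ}
    (h : code3 (dg T q.1 q.2.1) (dg T q.1 q.2.2.1) (dg T q.2.1 q.2.2.1) = 5 ∨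
      code3 (dg T q.1 q.2.2.1) (dg T q.1 q.2.1) (dg T q.2.2.1 q.2.1) = 5 ∨
      code3 (dg T q.2.1 q.1) (dg T q.2.1 q.2.2.1) (dg T q.1 q.2.2.1) = 5 ∨
      code3 (dg T q.2.1 q.2.2.1) (dg T q.2.1 q.1) (dg T q.2.2.1 q.1) = 5 ∨
      code3 (dg T q.2.2.1 q.1) (dg T q.2.2.1 q.2.1) (dg T q.1 q.2.1) = 5 ∨
      code3 (dg T q.2.2.1 q.2.1) (dg T q.2.2.1 q.1) (dg T q.2.1 q.1) = 5) : isP2 T q = true := by
  unfold isP2
  rw [anyL_iff]
  unfold code5
  simp only [Nat.beq_eq, six, List.mem_cons, List.not_mem_nil, or_false, exists_eq_or_imp,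
    exists_eq_left]
  exact h

theorem patE_spec (hlen : rowsTab.length = 7)
    (hz : ∀ c < 7, ∀ f < 27, ∀ g < 27, (zlook c f g : ℤ) =
      OFF - dot ((rowsTab.getD c []).getD f []) ((rowsTab.getD c []).getD g []) - linT c f - linT c g)
    (hlin3 : ∀ f, linT 3 f = 0) (hlin : ∀ f, linT 7 f = 0)
    (hE : ∀ f < 27, ∀ g < 27, (zE f g : ℤ) = OFF - dot (rowsETab.getD f []) (rowsETab.getD g []))
    (hc5 : ctab 5 = 3)
    (hct : ∀ τ < 27, ctab τ < 8)
    (hr : ∀ f < 27, ∀ g < 27, (rlook f g : ℤ) = OFFR + dot (rows1Tab.getD f []) (rows1Tab.getD g []))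
    (K : ℤ) (hK : 6 * K = K6)
    (T : ℕ) (hT : ∀ i j, i < 5 → j < 5 → dg T i j < 3)
    (h : patE bt ctab zlook zE rlook OFF OFFR C3 K6 T = true)
    (E : ℕ → ℕ → ℕ → ℕ) (hA : Adm (dg T) E) :
    4 * (N15.map (w15 (rows1Of rows1Tab) (dg T))).sum ≤
      (N60.map (uE (baseOf bt C3) (rows3Of ctab rowsTab) (fun f => rowsETab.getD f [])
        (linOf ctab linT) K (dg T) E)).sum := by
  rw [sum_uE _ _ _ _ _ _ _ hA]
  have e1 := rsum_eq rlook OFFR rows1Tab hr T hT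
  have e2 := qsum_eq bt ctab zlook OFF C3 rowsTab linT hlen hz hlin hct T hT
  have h3 : ∀ f < 27, ∀ g < 27, (zlook 3 f g : ℤ) = OFF - dot ((rowsTab.getD 3 []).getD f [])
      ((rowsTab.getD 3 []).getD g []) := by
    intro f hf g hg
    rw [hz 3 (by norm_num) f hf g hg, hlin3, hlin3]
    ring
  -- the marks
  have hsum : (N10.map (fun q => (E q.1 q.2.1 q.2.2.1 : ℤ) * (6 * K + ((six q).map
      (gE (rows3Of ctab rowsTab) (fun f => rowsETab.getD f []) (dg T))).sum))).sum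
      = (N10.map (fun q => (E q.1 q.2.1 q.2.2.1 : ℤ) * ((K6 : ℤ) + mE zE T q
        - mE (zlook 3) T q))).sum := by
    congr 1
    apply List.map_congr_left
    intro q hq
    rw [← mE_diff ctab zlook zE OFF rowsTab rowsETab h3 hE hc5 T hT q (N10_lt q hq), hK]
    ring
  rw [hsum]
  unfold patE at h
  rw [forceN_eq, forceN_eq] at h
  have hA0 : (Nat.add (Nat.mul 60 (Nat.add C3 OFF)) (Nat.mul 4 (rsum rlook T)) : ℕ)
      = 60 * (C3 + OFF) + 4 * rsum rlook T := rfl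
  have hB0 : (Nat.add (qsum bt ctab zlook OFF T) (Nat.mul 60 OFFR) : ℕ)
      = qsum bt ctab zlook OFF T + 60 * OFFR := rfl
  rw [hA0, hB0] at h
  cases hb : hasC4 T with
  | false =>
    rw [hb] at h
    have h' : 60 * (C3 + OFF) + 4 * rsum rlook T
        + (N10.map (fun q => Nat.sub (mE (zlook 3) T q) (Nat.add K6 (mE zE T q)))).sum
        ≤ qsum bt ctab zlook OFF T + 60 * OFFR := by
      have := Nat.le_of_ble_eq_true h
      rw [sumL_eq] at this
      exact this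
    have h4 : -((N10.map (fun q => Nat.sub (mE (zlook 3) T q) (Nat.add K6 (mE zE T q)))).sum : ℤ)
        ≤ (N10.map (fun q => (E q.1 q.2.1 q.2.2.1 : ℤ) * ((K6 : ℤ) + mE zE T q
          - mE (zlook 3) T q))).sum := by
      have key : ∀ L : List (ℕ × ℕ × ℕ × ℕ × ℕ), (∀ q ∈ L, E q.1 q.2.1 q.2.2.1 ≤ 1) →
          -((L.map (fun q => Nat.sub (mE (zlook 3) T q) (Nat.add K6 (mE zE T q)))).sum : ℤ)
          ≤ (L.map (fun q => (E q.1 q.2.1 q.2.2.1 : ℤ) * ((K6 : ℤ) + mE zE T q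
            - mE (zlook 3) T q))).sum := by
        intro L
        induction L with
        | nil => intro _; simp
        | cons q L ih =>
          intro hL
          have ih' := ih (fun p hp => hL p (List.mem_cons_of_mem _ hp))
          rw [List.map_cons, List.map_cons, List.sum_cons, List.sum_cons]
          have hq := hL q List.mem_cons_self
          generalize E q.1 q.2.1 q.2.2.1 = e at hq ⊢
          have hs : (Nat.sub (mE (zlook 3) T q) (Nat.add K6 (mE zE T q)) : ℕ)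
            = mE (zlook 3) T q - (K6 + mE zE T q) := rfl
          rw [hs, Nat.cast_add]
          generalize (mE (zlook 3) T q) = a
          generalize (mE zE T q) = b
          have hh : ((a - (K6 + b) : ℕ) : ℤ) = max ((a : ℤ) - (K6 + b)) 0 := by
            omega
          rw [hh]
          have h5 := le_max_left ((a : ℤ) - (K6 + b)) 0
          have h6 := le_max_right ((a : ℤ) - (K6 + b)) 0
          interval_cases e
          · rw [Nat.cast_zero, zero_mul]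
            linarith
          · rw [Nat.cast_one, one_mul]
            linarith
      refine key N10 ?_
      intro q hq
      obtain ⟨a, b, c, -, -⟩ := N10_lt q hq
      exact hA.le1 _ a _ b _ c
    have h'' : (60 * (C3 + OFF) + 4 * (rsum rlook T : ℤ)
        + (N10.map (fun q => Nat.sub (mE (zlook 3) T q) (Nat.add K6 (mE zE T q)))).sum)
        ≤ qsum bt ctab zlook OFF T + 60 * OFFR := by
      exact_mod_cast h'
    rw [e1, e2] at h''
    linarith
  | true =>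
    rw [hb] at h
    have hspec := goE_spec T K6 (mE (zlook 3) T) (mE zE T) (fun q => E q.1 q.2.1 q.2.2.1) N10
      (fun q hq => by
        obtain ⟨a, b, c, -, -⟩ := N10_lt q hq
        exact hA.le1 _ a _ b _ c)
      (fun q hq h1 => by
        obtain ⟨a, b, c, -, -⟩ := N10_lt q hq
        exact isP2_of (hA.p2 _ a _ b _ c h1)) _ _ _ h
    rcases hspec with h' | ⟨G, hG, hu⟩
    · have h'' : (60 * (C3 + OFF) + 4 * (rsum rlook T : ℤ)
          + ((N10.map (fun q => E q.1 q.2.1 q.2.2.1 * mE (zlook 3) T q)).sum : ℕ))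
          ≤ qsum bt ctab zlook OFF T + 60 * OFFR
            + ((N10.map (fun q => E q.1 q.2.1 q.2.2.1 * (K6 + mE zE T q))).sum : ℕ) := by
        exact_mod_cast h'
      have h4 : (N10.map (fun q => (E q.1 q.2.1 q.2.2.1 : ℤ) * ((K6 : ℤ) + mE zE T q
            - mE (zlook 3) T q))).sum
          = ((N10.map (fun q => E q.1 q.2.1 q.2.2.1 * (K6 + mE zE T q))).sum : ℕ)
            - ((N10.map (fun q => E q.1 q.2.1 q.2.2.1 * mE (zlook 3) T q)).sum : ℕ) := by
        rw [cast_list_sum, cast_list_sum]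
        have key : ∀ (L : List (ℕ × ℕ × ℕ × ℕ × ℕ)),
            (L.map (fun q => (E q.1 q.2.1 q.2.2.1 : ℤ) * ((K6 : ℤ) + mE zE T q
              - mE (zlook 3) T q))).sum
            = (L.map (fun q => ((E q.1 q.2.1 q.2.2.1 * (K6 + mE zE T q) : ℕ) : ℤ))).sum
              - (L.map (fun q => ((E q.1 q.2.1 q.2.2.1 * mE (zlook 3) T q : ℕ) : ℤ))).sum := by
          intro L
          induction L with
          | nil => simp
          | cons q L ih =>
            rw [List.map_cons, List.map_cons, List.map_cons, List.sum_cons, List.sum_cons,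
              List.sum_cons, ih]
            push_cast
            ring
        exact key N10
      rw [h4]
      rw [e1, e2] at h''
      linarith
    · exfalso
      unfold unhit at hu
      rw [C30_eq, anyL_iff] at hu
      obtain ⟨a, ha, hu⟩ := hu
      rw [List.mem_map] at ha
      obtain ⟨p, hp, rfl⟩ := ha
      simp only [andB_iff, Nat.beq_eq, notB_iff] at hu
      obtain ⟨⟨c1, c2, c3, c4, c5, c6⟩, g1, g2, g3, g4⟩ := hu
      obtain ⟨⟨l1, l2, l3, l4⟩, n1, n2, n3, n4, n5, n6⟩ := C30_ne p hp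
      have hno : ∀ i < 5, ∀ j < 5, ∀ k < 5, i ≠ j → i ≠ k → j ≠ k → G (key3 i j k) = false →
          E i j k ≠ 1 := by
        intro i hi j hj k hk hij hik hjk hg he
        obtain ⟨q, hq, hkey, hperm⟩ := exists_sorted i hi j hj k hk hij hik hjk
        have hEq : E q.1 q.2.1 q.2.2.1 = 1 := by
          have s1 := hA.s12 i hi j hj k hk
          have s2 := hA.s23 i hi j hj k hk
          have s3 := hA.s12 i hi k hk j hj
          have s4 := hA.s23 j hj i hi k hk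
          have s5 := hA.s23 k hk i hi j hj
          rcases hperm with ⟨x, y, z⟩ | ⟨x, y, z⟩ | ⟨x, y, z⟩ | ⟨x, y, z⟩ | ⟨x, y, z⟩ | ⟨x, y, z⟩ <;>
          rw [x, y, z] <;> omega
        have : G (key3 i j k) = true := by
          rw [hG]
          exact Or.inr ⟨q, hq, hEq, hkey.symm⟩
        rw [this] at hg
        exact absurd hg (by decide)
      rcases hA.c4 _ l1 _ l2 _ l3 _ l4 c1 c2 c3 c4 c5 c6 with h5 | h5 | h5 | h5
      · exact hno _ l1 _ l2 _ l3 n1 n2 n4 g1 h5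
      · exact hno _ l2 _ l3 _ l4 n4 n5 n6 g2 h5
      · exact hno _ l3 _ l4 _ l1 n6 n2.symm n3.symm g3 h5
      · exact hno _ l4 _ l1 _ l2 n3.symm n5.symm n1 g4 h5

theorem cert_mainE {V : Type*} [Fintype V] (w : V → ℝ) (hw : ∀ v, 0 ≤ w v) (h1 : ∑ v, w v = 1)
    (t : V → V → ℕ) (ep : V → V → V → ℕ)
    (hlt : ∀ u v, t u v < 3) (hflip : ∀ u v, t v u = flip3 (t u v)) (hm : Mark t ep)
    (hlen : rowsTab.length = 7)
    (hz : ∀ c < 7, ∀ f < 27, ∀ g < 27, (zlook c f g : ℤ) =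
      OFF - dot ((rowsTab.getD c []).getD f []) ((rowsTab.getD c []).getD g []) - linT c f - linT c g)
    (hlin3 : ∀ f, linT 3 f = 0) (hlin : ∀ f, linT 7 f = 0)
    (hE : ∀ f < 27, ∀ g < 27, (zE f g : ℤ) = OFF - dot (rowsETab.getD f []) (rowsETab.getD g []))
    (hc5 : ctab 5 = 3)
    (hct : ∀ τ < 27, ctab τ < 8)
    (hr : ∀ f < 27, ∀ g < 27, (rlook f g : ℤ) = OFFR + dot (rows1Tab.getD f []) (rows1Tab.getD g []))
    (K : ℤ) (hK : 6 * K = K6)
    (hsym : ∀ a < 3, ∀ b < 3, ∀ c < 3,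
      rows1Of rows1Tab (code3 a b c) = rows1Of rows1Tab (code3 b a (flip3 c)))
    (hall : allL (repE bt ctab zlook zE rlook OFF OFFR C3 K6) reps42 = true) :
    0 ≤ ∑ a, ∑ b, ∑ c, w a * w b * w c *
        ((baseOf bt C3 (code3 (t a b) (t a c) (t b c)) + K * (ep a b c : ℤ) : ℤ) : ℝ)
      - 2 * ∑ a, ∑ b, ∑ c, ∑ d, w a * w b * w c * w d *
        (linOf ctab linT (code3 (t a b) (t a c) (t b c)) (code3 (t a d) (t b d) (t c d)) : ℝ) := by
  refine wbaseE_nonneg t ep (baseOf bt C3) (rows3Of ctab rowsTab) (fun f => rowsETab.getD f [])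
    (rows1Of rows1Tab) (linOf ctab linT) K w hw h1 hm.le1 ?_
  refine symF_nonnegE t ep _ _ _ _ _ _ hlt hflip hm hsym ?_
  intro r hr' e he E hA
  rw [allL_iff] at hall
  have h1 := hall r hr'
  unfold repE at h1
  rw [allL_iff] at h1
  have h2 := h1 e he
  rw [forceN_eq] at h2
  exact patE_spec bt ctab zlook zE rlook OFF OFFR C3 K6 rowsTab rowsETab rows1Tab linT hlen hz
    hlin3 hlin hE hc5 hct hr K hK _
    (fun i j hi hj => dg_lt_of_mem r hr' e he i j hi hj) h2 E hA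

end

end Pool.Agent.H5.SF
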