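import Pool.Agent.H5SF.SStar

/-!
# Local conditions: link of a vertex and locally optimal colourings
-/

namespace Pool.Agent.H5.SF

open Finset

namespace Sys

variable {V : Type*} [Fintype V] (S : Sys V)

/-- Density of the link of a vertex. -/
noncomputable def lk (v : V) : ℝ := S.E fun b => S.E fun c => S.hR v b c

/-- Weight of the non-adjacent pairs formed by a non-neighbour and a neighbour of `v`. -/
noncomputable def R (v : V) : ℝ := S.E fun a => S.E fun b => S.N v a * S.A v b * S.N a b

/-- Sum of the deficit over the in-neighbours. -/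
noncomputable def ig (v : V) : ℝ := S.E fun b => S.O b v * S.g b

/-- Density of the marks at a vertex. -/
noncomputable def lkX (v : V) : ℝ := S.E fun b => S.E fun c => S.X v b c

theorem lkX_nonneg (v : V) : 0 ≤ S.lkX v :=
  S.E_nonneg fun b => S.E_nonneg fun c => S.X_nonneg v b c

theorem lk_eq (v : V) :
    S.lk v = 4 / 9 + (S.d0 v - 1 / 3) ^ 2 + S.g v ^ 2 + 2 * S.R v - 2 * S.ig v + S.lkX v := by
  have hR1 : S.R v = S.E (fun a => S.E fun b => (S.N v a * S.N a b - S.N v a * S.N v b * S.N a b)) := by
    unfold R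
    refine S.E_congr fun a => S.E_congr fun b => ?_
    unfold N
    ring
  have hR2 : S.R v = S.E (fun a => S.E fun b => (S.N v b * S.N a b - S.N v a * S.N v b * S.N a b)) := by
    rw [hR1, S.E_comm]
    refine S.E_congr fun a => S.E_congr fun b => ?_
    rw [S.N_symm b a]
    ring
  have e1 : S.E (fun b => S.E fun c => S.N v b * S.N v c) = S.d0 v ^ 2 := by
    rw [S.E_E_mul (fun b => S.N v b) (fun c => S.N v c)]
    unfold d0
    ring
  have e2 : S.E (fun b => S.E fun c => S.O v b * S.O v c) = S.dp v ^ 2 := by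
    rw [S.E_E_mul (fun b => S.O v b) (fun c => S.O v c)]
    unfold dp
    ring
  have e3 : S.E (fun b => S.E fun c => S.O b v * S.O b c) = S.dm v / 3 - S.ig v := by
    have : ∀ b, S.E (fun c => S.O b v * S.O b c) = S.O b v * (1 / 3) - S.O b v * S.g b := by
      intro b
      rw [S.E_mulL]
      unfold g dp
      ring
    simp_rw [this]
    rw [S.E_sub, S.E_mulR]
    unfold dm ig
    ring
  have e4 : S.E (fun b => S.E fun c => S.O c v * S.O c b) = S.dm v / 3 - S.ig v := by
    rw [← e3, S.E_comm]
  have hsum : S.lk v = S.E (fun b => S.E fun c => S.N v b * S.N v c)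
      + S.E (fun a => S.E fun b => (S.N v a * S.N a b - S.N v a * S.N v b * S.N a b))
      + S.E (fun a => S.E fun b => (S.N v b * S.N a b - S.N v a * S.N v b * S.N a b))
      + S.E (fun b => S.E fun c => S.O v b * S.O v c)
      + S.E (fun b => S.E fun c => S.O b v * S.O b c)
      + S.E (fun b => S.E fun c => S.O c v * S.O c b) + S.lkX v := by
    unfold lk lkX
    rw [← S.E_add, ← S.E_add, ← S.E_add, ← S.E_add, ← S.E_add, ← S.E_add]
    refine S.E_congr fun b => ?_
    rw [← S.E_add, ← S.E_add, ← S.E_add, ← S.E_add, ← S.E_add, ← S.E_add]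
    refine S.E_congr fun c => ?_
    unfold hR hB le1 out2
    ring
  rw [hsum, e1, e2, e3, e4, ← hR1, ← hR2]
  have hd := S.deg_sum v
  have hg : S.dp v = 1 / 3 - S.g v := by unfold g; ring
  have hdm : S.dm v = 1 - S.d0 v - (1 / 3 - S.g v) := by linarith
  rw [hdm, hg]
  ring

theorem R_nonneg (v : V) : 0 ≤ S.R v :=
  S.E_nonneg fun a => S.E_nonneg fun b =>
    mul_nonneg (mul_nonneg (S.N_nonneg v a) (S.A_nonneg v b)) (S.N_nonneg a b)

theorem ig_le (v : V) : 2 * S.ig v ≤ 1 / 32 * S.dm v + 32 * S.G := by
  unfold ig dm G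
  rw [← S.E_mulL, ← S.E_mulL, ← S.E_mulL, ← S.E_add]
  refine S.E_mono fun b => ?_
  have h0 := S.O_nonneg b v
  have h1 := S.O_le b v
  have h2 : 2 * S.g b ≤ 1 / 32 + 32 * S.g b ^ 2 := by nlinarith [sq_nonneg (32 * S.g b - 1)]
  have h3 : S.O b v * (2 * S.g b) ≤ S.O b v * (1 / 32 + 32 * S.g b ^ 2) :=
    mul_le_mul_of_nonneg_left h2 h0
  nlinarith [sq_nonneg (S.g b)]

/-- Local bound. -/
theorem loc (hh : S.h < 4 / 9) (v : V) (hv : S.lk v = S.h) :
    (S.d0 v - 1 / 3 + 1 / 64) ^ 2 + 2 * S.R v ≤ 1 / 96 + 32 * S.G + 1 / 2048 := by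
  have h1 := S.lk_eq v
  have h0 := S.lkX_nonneg v
  have h2 := S.ig_le v
  have hd := S.deg_sum v
  have hg : S.dp v = 1 / 3 - S.g v := by unfold g; ring
  have hdm : S.dm v = 1 - S.d0 v - (1 / 3 - S.g v) := by linarith
  rw [hdm] at h2
  nlinarith [sq_nonneg (S.g v - 1 / 64)]

variable (c : V → Fin 3)

/-- Weight of the neighbours in part `i`. -/
theorem y_eq (i : Fin 3) (v : V) : S.E (fun b => I c i b * S.A v b) = S.a c i - S.n c i v := by
  unfold a n
  rw [← S.E_sub]
  refine S.E_congr fun b => ?_
  unfold N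
  ring

theorem p_eq (v : V) : S.p c v = S.a c (c v) - S.n c (c v) v := by
  rw [← S.y_eq]
  unfold p
  refine S.E_congr fun b => ?_
  have : sm c v b = I c (c v) b := by
    unfold sm I
    by_cases h : c v = c b
    · rw [if_pos h, if_pos h.symm]
    · rw [if_neg h, if_neg (fun h' => h h'.symm)]
  rw [this]

theorem R_ge (v : V) : S.n c 0 v * (S.a c 0 - S.n c 0 v) + S.n c 1 v * (S.a c 1 - S.n c 1 v)
    + S.n c 2 v * (S.a c 2 - S.n c 2 v) - S.E (S.p c) / 2 ≤ S.R v := by
  have h1 : S.E (fun a => S.E fun b => sm c a b * (S.N v a * S.A v b))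
      - S.E (fun a => S.E fun b => sm c a b * S.A a b * (S.N v a * S.A v b)) ≤ S.R v := by
    unfold R
    rw [← S.E_sub]
    refine S.E_mono fun a => ?_
    rw [← S.E_sub]
    refine S.E_mono fun b => ?_
    have e : sm c a b * (S.N v a * S.A v b) - sm c a b * S.A a b * (S.N v a * S.A v b)
        = sm c a b * (S.N v a * S.A v b * S.N a b) := by unfold N; ring
    rw [e]
    have h0 : 0 ≤ S.N v a * S.A v b * S.N a b :=
      mul_nonneg (mul_nonneg (S.N_nonneg v a) (S.A_nonneg v b)) (S.N_nonneg a b)
    have := sm_le c a b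
    nlinarith
  have h2 : S.E (fun a => S.E fun b => sm c a b * (S.N v a * S.A v b))
      = S.n c 0 v * (S.a c 0 - S.n c 0 v) + S.n c 1 v * (S.a c 1 - S.n c 1 v)
        + S.n c 2 v * (S.a c 2 - S.n c 2 v) := by
    have one : ∀ i : Fin 3, S.E (fun a => S.E fun b => (I c i a * S.N v a) * (I c i b * S.A v b))
        = S.n c i v * (S.a c i - S.n c i v) := by
      intro i
      rw [S.E_E_mul (fun a => I c i a * S.N v a) (fun b => I c i b * S.A v b), S.y_eq]
      rfl
    rw [← one 0, ← one 1, ← one 2, ← S.E_add, ← S.E_add]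
    refine S.E_congr fun a => ?_
    rw [← S.E_add, ← S.E_add]
    refine S.E_congr fun b => ?_
    rw [sm_eq]
    ring
  have h3 : 2 * S.E (fun a => S.E fun b => sm c a b * S.A a b * (S.N v a * S.A v b))
      ≤ S.E (S.p c) := by
    have h4 : S.E (fun a => S.E fun b => sm c a b * S.A a b * (S.N v a * S.A v b))
        = S.E (fun a => S.E fun b => sm c a b * S.A a b * (S.N v b * S.A v a)) := by
      rw [S.E_comm]
      refine S.E_congr fun a => S.E_congr fun b => ?_
      rw [sm_symm c b a, S.A_symm b a]
    have h5 : S.E (fun a => S.E fun b => sm c a b * S.A a b * (S.N v a * S.A v b))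
        + S.E (fun a => S.E fun b => sm c a b * S.A a b * (S.N v b * S.A v a)) ≤ S.E (S.p c) := by
      rw [← S.E_add]
      refine S.E_mono fun a => ?_
      rw [← S.E_add]
      unfold p
      refine S.E_mono fun b => ?_
      have k1 : 0 ≤ sm c a b * S.A a b := mul_nonneg (sm_nonneg c a b) (S.A_nonneg a b)
      have k2 : S.N v a * S.A v b + S.N v b * S.A v a ≤ 1 := by
        unfold N
        rcases S.A01 v a with h | h <;> rcases S.A01 v b with h' | h' <;> rw [h, h'] <;> norm_num
      nlinarith
    linarith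
  linarith

open Classical in
/-- Moving one vertex to another part. -/
theorem p_update (v : V) (j : Fin 3) :
    S.E (S.p (Function.update c v j)) = S.E (S.p c)
      + 2 * (S.w v * (S.a c j - S.n c j v - S.p c v)) := by
  have Avv : S.A v v = 0 := by
    have h := S.asymm v v
    have : ¬ S.arc v v := fun h' => h h' h'
    unfold A O
    simp [this]
  have hpt : ∀ u b, sm (Function.update c v j) u b * S.A u b = sm c u b * S.A u b
      + ((if u = v then 1 else 0) * ((I c j b - sm c v b) * S.A v b)
      + (if b = v then 1 else 0) * ((I c j u - sm c v u) * S.A v u)) := by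
    intro u b
    by_cases hu : u = v
    · by_cases hb : b = v
      · subst hu
        rw [hb, Avv]
        simp
      · subst hu
        have : sm (Function.update c u j) u b = I c j b := by
          unfold sm I
          rw [Function.update_self, Function.update_of_ne hb]
          by_cases h : j = c b
          · rw [if_pos h, if_pos h.symm]
          · rw [if_neg h, if_neg (fun h' => h h'.symm)]
        rw [this, if_pos rfl, if_neg hb]
        ring
    · by_cases hb : b = v
      · subst hb
        have : sm (Function.update c b j) u b = I c j u := by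
          unfold sm I
          rw [Function.update_self, Function.update_of_ne hu]
        rw [this, if_pos rfl, if_neg hu, S.A_symm u b, sm_symm c u b]
        ring
      · have : sm (Function.update c v j) u b = sm c u b := by
          unfold sm
          rw [Function.update_of_ne hb, Function.update_of_ne hu]
        rw [this, if_neg hu, if_neg hb]
        ring
  have hy : S.E (fun b => (I c j b - sm c v b) * S.A v b) = S.a c j - S.n c j v - S.p c v := by
    rw [← S.y_eq]
    unfold p
    rw [← S.E_sub]
    refine S.E_congr fun b => ?_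
    ring
  have hpick : ∀ f : V → ℝ, S.E (fun u => (if u = v then 1 else 0) * f u) = S.w v * f v := by
    intro f
    unfold E
    rw [sum_eq_single v]
    · simp
    · intro b _ hb
      simp [hb]
    · intro h
      exact absurd (mem_univ v) h
  have e0 : S.E (S.p (Function.update c v j)) = S.E (fun u => S.E fun b => (sm c u b * S.A u b
      + ((if u = v then 1 else 0) * ((I c j b - sm c v b) * S.A v b)
      + (if b = v then 1 else 0) * ((I c j u - sm c v u) * S.A v u)))) := by
    refine S.E_congr fun u => ?_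
    unfold p
    exact S.E_congr fun b => hpt u b
  rw [e0]
  have e1 : ∀ u, S.E (fun b => (sm c u b * S.A u b
      + ((if u = v then 1 else 0) * ((I c j b - sm c v b) * S.A v b)
      + (if b = v then 1 else 0) * ((I c j u - sm c v u) * S.A v u))))
      = S.p c u + ((if u = v then 1 else 0) * (S.a c j - S.n c j v - S.p c v)
        + S.w v * ((I c j u - sm c v u) * S.A v u)) := by
    intro u
    rw [S.E_add, S.E_add, S.E_mulL, hy, hpick (fun _ => (I c j u - sm c v u) * S.A v u)]
    rfl
  simp_rw [e1]
  rw [S.E_add, S.E_add, S.E_mulL, hy, hpick (fun _ => S.a c j - S.n c j v - S.p c v)]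
  ring

/-- Local optimality. -/
theorem local_opt (hmin : ∀ c', S.E (S.p c) ≤ S.E (S.p c')) (v : V) (j : Fin 3) :
    S.p c v ≤ S.a c j - S.n c j v := by
  classical
  have h1 := hmin (Function.update c v j)
  rw [S.p_update c v j] at h1
  have h2 := S.pos v
  by_contra hc
  push Not at hc
  have : S.w v * (S.a c j - S.n c j v - S.p c v) < 0 :=
    mul_neg_of_pos_of_neg h2 (by linarith)
  linarith

/-- The colouring given by two vertices. -/
noncomputable def col (v w : V) (x : V) : Fin 3 :=
  open Classical in if S.A v x = 0 then 0 else if S.A w x = 0 then 1 else 2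

theorem sm_col (v w x y : V) : sm (S.col v w) x y ≤ S.N v x * S.N v y + S.N w x * S.N w y
    + S.A v x * S.A w x * (S.A v y * S.A w y) := by
  have e1 : (0 : Fin 3) ≠ 1 := by decide
  have e2 : (0 : Fin 3) ≠ 2 := by decide
  have e3 : (1 : Fin 3) ≠ 2 := by decide
  unfold sm col N
  rcases S.A01 v x with h1 | h1 <;> rcases S.A01 v y with h2 | h2 <;>
  rcases S.A01 w x with h3 | h3 <;> rcases S.A01 w y with h4 | h4 <;>
  rw [h1, h2, h3, h4] <;> norm_num [e1, e2, e3, e1.symm, e2.symm, e3.symm]

/-- The minimum inner weight. -/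
theorem p_min (hmin : ∀ c', S.E (S.p c) ≤ S.E (S.p c')) :
    S.E (S.p c) * S.e ≤ 2 * S.eta + S.k4 := by
  have hpair : ∀ v w, S.A v w * S.E (S.p c) ≤
      S.E (fun x => S.E fun y => S.N v x * S.N v y * S.A x y)
      + S.E (fun x => S.E fun y => S.N w x * S.N w y * S.A x y)
      + S.E (fun x => S.E fun y => S.A v w * S.A v x * S.A w x * (S.A v y * S.A w y * S.A x y)) := by
    intro v w
    have h1 : S.A v w * S.E (S.p c) ≤ S.A v w * S.E (S.p (S.col v w)) :=
      mul_le_mul_of_nonneg_left (hmin _) (S.A_nonneg v w)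
    refine h1.trans ?_
    rw [← S.E_mulL, ← S.E_add, ← S.E_add]
    refine S.E_mono fun x => ?_
    unfold p
    rw [← S.E_mulL, ← S.E_add, ← S.E_add]
    refine S.E_mono fun y => ?_
    have h2 := S.sm_col v w x y
    have h3 := S.A_nonneg x y
    have h4 := S.A_nonneg v w
    have h5 := S.A_le v w
    have h6 : sm (S.col v w) x y * S.A x y ≤ (S.N v x * S.N v y + S.N w x * S.N w y
      + S.A v x * S.A w x * (S.A v y * S.A w y)) * S.A x y := mul_le_mul_of_nonneg_right h2 h3
    have h7 : 0 ≤ (S.N v x * S.N v y + S.N w x * S.N w y) * S.A x y := by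
      have := S.N_nonneg
      exact mul_nonneg (add_nonneg (mul_nonneg (this _ _) (this _ _))
        (mul_nonneg (this _ _) (this _ _))) h3
    have h8 : S.A v w * ((S.N v x * S.N v y + S.N w x * S.N w y) * S.A x y)
        ≤ (S.N v x * S.N v y + S.N w x * S.N w y) * S.A x y := by nlinarith
    have h9 := mul_le_mul_of_nonneg_left h6 h4
    nlinarith
  have h1 : S.E (fun v => S.E fun w => S.A v w * S.E (S.p c)) = S.E (S.p c) * S.e := by
    unfold e
    simp_rw [S.E_mulR]
    ring
  rw [← h1]
  have h2 : S.E (fun v => S.E fun w => S.A v w * S.E (S.p c)) ≤ S.E (fun v => S.E fun w =>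
      (S.E (fun x => S.E fun y => S.N v x * S.N v y * S.A x y)
      + S.E (fun x => S.E fun y => S.N w x * S.N w y * S.A x y)
      + S.E (fun x => S.E fun y => S.A v w * S.A v x * S.A w x *
        (S.A v y * S.A w y * S.A x y)))) :=
    S.E_mono fun v => S.E_mono fun w => hpair v w
  refine h2.trans_eq ?_
  simp_rw [S.E_add, S.E_const]
  have h3 : S.E (fun v => S.E (fun x => S.E fun y => S.N v x * S.N v y * S.A x y)) = S.eta := rfl
  have h4 : S.E (fun v => S.E fun w => S.E (fun x => S.E fun y => S.A v w * S.A v x * S.A w x *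
        (S.A v y * S.A w y * S.A x y))) = S.k4 := rfl
  rw [h3, h4]
  ring

theorem exists_min : ∃ c : V → Fin 3, ∀ c', S.E (S.p c) ≤ S.E (S.p c') := by
  classical
  obtain ⟨c, _, hc⟩ := exists_min_image (univ : Finset (V → Fin 3)) (fun c => S.E (S.p c))
    ⟨fun _ => 0, mem_univ _⟩
  exact ⟨c, fun c' => hc c' (mem_univ _)⟩

end Sys

end Pool.Agent.H5.SF
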