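import Pool.Agent.H5SF.SCore

/-!
# Lower bound for the edge density from a partition into three parts
-/

namespace Pool.Agent.H5.SF

open Finset

namespace Sys

variable {V : Type*} [Fintype V] (S : Sys V) (c : V → Fin 3)

/-- Indicator of part `i`. -/
def I (i : Fin 3) (v : V) : ℝ := if c v = i then 1 else 0

/-- Indicator of being in the same part. -/
def sm (u v : V) : ℝ := if c u = c v then 1 else 0

/-- Weight of part `i`. -/
noncomputable def a (i : Fin 3) : ℝ := S.E (I c i)

/-- Inner degree. -/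
noncomputable def p (v : V) : ℝ := S.E fun b => sm c v b * S.A v b

/-- Weight of non-neighbours in part `i`. -/
noncomputable def n (i : Fin 3) (v : V) : ℝ := S.E fun b => I c i b * S.N v b

/-- Weight of non-neighbours outside the own part. -/
noncomputable def q (v : V) : ℝ := S.E fun b => (1 - sm c v b) * S.N v b

theorem sm_symm (u v : V) : sm c u v = sm c v u := by
  unfold sm
  by_cases h : c u = c v
  · rw [if_pos h, if_pos h.symm]
  · rw [if_neg h, if_neg (fun h' => h h'.symm)]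

theorem sm01 (u v : V) : sm c u v = 0 ∨ sm c u v = 1 := by
  unfold sm; split_ifs <;> simp

theorem I01 (i : Fin 3) (v : V) : I c i v = 0 ∨ I c i v = 1 := by
  unfold I; split_ifs <;> simp

theorem I_nonneg (i : Fin 3) (v : V) : 0 ≤ I c i v := by unfold I; split_ifs <;> norm_num
theorem sm_nonneg (u v : V) : 0 ≤ sm c u v := by unfold sm; split_ifs <;> norm_num
theorem sm_le (u v : V) : sm c u v ≤ 1 := by unfold sm; split_ifs <;> norm_num

/-- `sm` in terms of the part indicators. -/
theorem sm_eq (u v : V) : sm c u v = I c 0 u * I c 0 v + I c 1 u * I c 1 v + I c 2 u * I c 2 v := by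
  unfold sm I
  generalize c u = i
  generalize c v = j
  fin_cases i <;> fin_cases j <;> simp

theorem I_sum (v : V) : I c 0 v + I c 1 v + I c 2 v = 1 := by
  unfold I
  generalize c v = i
  fin_cases i <;> simp

theorem I_sq (i : Fin 3) (v : V) : I c i v * I c i v = I c i v := by
  rcases I01 c i v with h | h <;> rw [h] <;> norm_num

theorem I_mul (i j : Fin 3) (h : i ≠ j) (v : V) : I c i v * I c j v = 0 := by
  unfold I
  by_cases h1 : c v = i
  · have : c v ≠ j := fun h2 => h (h1.symm.trans h2)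
    simp [this]
  · simp [h1]

theorem a_sum : S.a c 0 + S.a c 1 + S.a c 2 = 1 := by
  unfold a
  rw [← S.E_add, ← S.E_add]
  have : (fun v => I c 0 v + I c 1 v + I c 2 v) = fun _ => (1 : ℝ) := by
    funext v; exact I_sum c v
  rw [this, S.E_const]

theorem E_sm (v : V) : S.E (fun b => sm c v b) =
    I c 0 v * S.a c 0 + I c 1 v * S.a c 1 + I c 2 v * S.a c 2 := by
  simp_rw [sm_eq c v]
  rw [S.E_add, S.E_add, S.E_mulL, S.E_mulL, S.E_mulL]
  rfl

/-- A function of the part. -/
theorem E_part (f : V → ℝ) : S.E f = S.E (fun v => I c 0 v * f v) + S.E (fun v => I c 1 v * f v)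
    + S.E (fun v => I c 2 v * f v) := by
  rw [← S.E_add, ← S.E_add]
  refine S.E_congr fun v => ?_
  have := I_sum c v
  linear_combination -(f v) * this

theorem d0_eq (v : V) : S.d0 v = S.n c 0 v + S.n c 1 v + S.n c 2 v := by
  unfold d0 n
  exact S.E_part c (fun b => S.N v b)

theorem q_eq (v : V) : S.q c v = (1 - I c 0 v) * S.n c 0 v + (1 - I c 1 v) * S.n c 1 v
    + (1 - I c 2 v) * S.n c 2 v := by
  unfold q n
  rw [← S.E_mulL, ← S.E_mulL, ← S.E_mulL, ← S.E_add, ← S.E_add]
  refine S.E_congr fun b => ?_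
  rw [sm_eq]
  have h1 := I_sum c b
  linear_combination (-S.N v b) * h1

theorem n_own (v : V) : I c 0 v * S.n c 0 v + I c 1 v * S.n c 1 v + I c 2 v * S.n c 2 v
    = S.E (fun b => sm c v b) - S.p c v := by
  unfold n p
  rw [← S.E_mulL, ← S.E_mulL, ← S.E_mulL, ← S.E_add, ← S.E_add, ← S.E_sub]
  refine S.E_congr fun b => ?_
  rw [sm_eq]
  unfold N
  ring

theorem n_nonneg (i : Fin 3) (v : V) : 0 ≤ S.n c i v :=
  S.E_nonneg fun b => mul_nonneg (I_nonneg c i b) (S.N_nonneg v b)

theorem n_le (i : Fin 3) (v : V) : S.n c i v ≤ S.a c i := by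
  unfold n a
  refine S.E_mono fun b => ?_
  have := S.N_le v b
  have := I_nonneg c i b
  nlinarith

theorem a_nonneg (i : Fin 3) : 0 ≤ S.a c i := S.E_nonneg fun b => I_nonneg c i b

theorem p_nonneg (v : V) : 0 ≤ S.p c v :=
  S.E_nonneg fun b => mul_nonneg (sm_nonneg c v b) (S.A_nonneg v b)

theorem q_nonneg (v : V) : 0 ≤ S.q c v :=
  S.E_nonneg fun b => mul_nonneg (by linarith [sm_le c v b]) (S.N_nonneg v b)

/-- Edge density of the underlying graph in terms of the partition. -/
theorem e_eq : S.e = 1 - (S.a c 0 ^ 2 + S.a c 1 ^ 2 + S.a c 2 ^ 2) + S.E (S.p c) - S.E (S.q c) := by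
  have h1 : S.e = S.E fun v => (1 - S.E (fun b => sm c v b)) + S.p c v - S.q c v := by
    unfold e
    refine S.E_congr fun v => ?_
    have h2 : (1 : ℝ) - S.E (fun b => sm c v b) = S.E fun b => 1 - sm c v b := by
      rw [S.E_sub, S.E_const]
    rw [h2]
    unfold p q
    rw [← S.E_add, ← S.E_sub]
    refine S.E_congr fun b => ?_
    unfold N
    ring
  rw [h1, S.E_sub, S.E_add, S.E_sub, S.E_const]
  have h3 : S.E (fun v => S.E (fun b => sm c v b)) = S.a c 0 ^ 2 + S.a c 1 ^ 2 + S.a c 2 ^ 2 := by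
    simp_rw [S.E_sm c]
    rw [S.E_add, S.E_add, S.E_mulR, S.E_mulR, S.E_mulR]
    have : ∀ i, S.E (fun v => I c i v) = S.a c i := fun i => rfl
    rw [this, this, this]
    ring
  rw [h3]

/-- Term for triples inside a part. -/
noncomputable def T0 (x y z : V) : ℝ :=
  sm c x y * sm c x z * (1 - S.A x y * S.A x z - S.A x y * S.A y z - S.A x z * S.A y z)

/-- Term for triples with `z` outside the common part of `x` and `y`. -/
noncomputable def T1 (z x y : V) : ℝ :=
  sm c x y * (1 - sm c z x) * (S.N z x + S.N z y - S.N z x * S.N z y - S.A x y * (S.N z x + S.N z y))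

theorem le1_ge (x y z : V) :
    S.T0 c x y z + S.T1 c x y z + S.T1 c y x z + S.T1 c z x y ≤ S.le1 x y z := by
  have hsm : (sm c x y = 1 ∧ sm c x z = 1 ∧ sm c y z = 1) ∨
      (sm c x y = 1 ∧ sm c x z = 0 ∧ sm c y z = 0) ∨ (sm c x y = 0 ∧ sm c x z = 1 ∧ sm c y z = 0) ∨
      (sm c x y = 0 ∧ sm c x z = 0 ∧ sm c y z = 1) ∨ (sm c x y = 0 ∧ sm c x z = 0 ∧ sm c y z = 0) := by
    unfold sm
    by_cases h1 : c x = c y
    · by_cases h2 : c x = c z
      · have h3 : c y = c z := h1.symm.trans h2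
        simp [h1, h3]
      · have h3 : c y ≠ c z := fun h => h2 (h1.trans h)
        simp [h1, h3]
    · by_cases h2 : c x = c z
      · have h3 : c y ≠ c z := fun h => h1 (h2.trans h.symm)
        simp [h1, h2, h3, Ne.symm h3]
      · by_cases h3 : c y = c z
        · simp [h1, h2, h3]
        · simp [h1, h2, h3]
  unfold T0 T1 le1 N
  rw [S.A_symm y x, S.A_symm z x, S.A_symm z y, sm_symm c y x, sm_symm c z x]
  rcases hsm with ⟨h1, h2, h3⟩ | ⟨h1, h2, h3⟩ | ⟨h1, h2, h3⟩ | ⟨h1, h2, h3⟩ | ⟨h1, h2, h3⟩ <;>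
  rcases S.A01 x y with h4 | h4 <;> rcases S.A01 x z with h5 | h5 <;>
  rcases S.A01 y z with h6 | h6 <;> rw [h1, h2, h3, h4, h5, h6] <;> norm_num

theorem E3_T0 : S.E3 (S.T0 c) = S.a c 0 ^ 3 + S.a c 1 ^ 3 + S.a c 2 ^ 3
    - 3 * S.E (fun v => S.p c v ^ 2) := by
  have e0 : S.E3 (fun x y z => sm c x y * sm c x z) = S.a c 0 ^ 3 + S.a c 1 ^ 3 + S.a c 2 ^ 3 := by
    rw [S.E3_center (fun x y => sm c x y) (fun x z => sm c x z)]
    have h1 : ∀ v, S.E (fun b => sm c v b) * S.E (fun b => sm c v b)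
        = I c 0 v * S.a c 0 ^ 2 + I c 1 v * S.a c 1 ^ 2 + I c 2 v * S.a c 2 ^ 2 := by
      intro v
      rw [S.E_sm c v]
      have i0 := I_sq c 0 v
      have i1 := I_sq c 1 v
      have i2 := I_sq c 2 v
      have i01 := I_mul c 0 1 (by decide) v
      have i02 := I_mul c 0 2 (by decide) v
      have i12 := I_mul c 1 2 (by decide) v
      linear_combination (S.a c 0 ^ 2) * i0 + (S.a c 1 ^ 2) * i1 + (S.a c 2 ^ 2) * i2
        + 2 * (S.a c 0 * S.a c 1) * i01 + 2 * (S.a c 0 * S.a c 2) * i02 + 2 * (S.a c 1 * S.a c 2) * i12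
    simp_rw [h1]
    rw [S.E_add, S.E_add, S.E_mulR, S.E_mulR, S.E_mulR]
    have : ∀ i, S.E (fun v => I c i v) = S.a c i := fun i => rfl
    rw [this, this, this]
    ring
  have e1 : S.E3 (fun x y z => (sm c x y * S.A x y) * (sm c x z * S.A x z))
      = S.E (fun v => S.p c v ^ 2) := by
    rw [S.E3_center (fun x y => sm c x y * S.A x y) (fun x z => sm c x z * S.A x z)]
    refine S.E_congr fun v => ?_
    unfold p
    ring
  have e2 : S.E3 (fun x y z => (sm c y x * S.A y x) * (sm c y z * S.A y z))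
      = S.E (fun v => S.p c v ^ 2) := by
    rw [← e1]
    exact S.E3_swap12 (fun x y z => (sm c x y * S.A x y) * (sm c x z * S.A x z))
  have e3 : S.E3 (fun x y z => (sm c z x * S.A z x) * (sm c z y * S.A z y))
      = S.E (fun v => S.p c v ^ 2) := by
    rw [← e2]
    exact S.E3_swap23 (fun x y z => (sm c y x * S.A y x) * (sm c y z * S.A y z))
  have e4 : ∀ x y z, S.T0 c x y z = sm c x y * sm c x z
      - (sm c x y * S.A x y) * (sm c x z * S.A x z) - (sm c y x * S.A y x) * (sm c y z * S.A y z)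
      - (sm c z x * S.A z x) * (sm c z y * S.A z y) := by
    intro x y z
    unfold T0
    rw [S.A_symm y x, S.A_symm z x, S.A_symm z y, sm_symm c y x, sm_symm c z x, sm_symm c z y]
    have h1 : sm c x y * sm c x z = sm c x y * sm c y z := by
      unfold sm
      by_cases h : c x = c y
      · rw [h]
      · simp [h]
    have h2 : sm c x y * sm c x z = sm c x z * sm c y z := by
      unfold sm
      by_cases h : c x = c z
      · rw [h]
        by_cases h' : c z = c y
        · simp [h']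
        · simp [h', Ne.symm h']
      · simp [h]
    linear_combination (-(S.A x y * S.A y z)) * h1 + (-(S.A x z * S.A y z)) * h2
  rw [S.E3_congr e4, S.E3_sub, S.E3_sub, S.E3_sub, e0, e1, e2, e3]
  ring

/-- Cross term at a vertex. -/
noncomputable def X1 (z : V) : ℝ :=
  (1 - I c 0 z) * (2 * S.a c 0 * S.n c 0 z - S.n c 0 z ^ 2)
  + (1 - I c 1 z) * (2 * S.a c 1 * S.n c 1 z - S.n c 1 z ^ 2)
  + (1 - I c 2 z) * (2 * S.a c 2 * S.n c 2 z - S.n c 2 z ^ 2)

theorem E3_T1 : S.E3 (S.T1 c) = S.E (S.X1 c) - 2 * S.E (fun v => S.p c v * S.q c v) := by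
  have hsplit : ∀ z x y, S.T1 c z x y =
      ((1 - I c 0 z) * ((I c 0 x * S.N z x) * I c 0 y + I c 0 x * (I c 0 y * S.N z y)
          - (I c 0 x * S.N z x) * (I c 0 y * S.N z y))
      + (1 - I c 1 z) * ((I c 1 x * S.N z x) * I c 1 y + I c 1 x * (I c 1 y * S.N z y)
          - (I c 1 x * S.N z x) * (I c 1 y * S.N z y))
      + (1 - I c 2 z) * ((I c 2 x * S.N z x) * I c 2 y + I c 2 x * (I c 2 y * S.N z y)
          - (I c 2 x * S.N z x) * (I c 2 y * S.N z y)))
      - (((1 - sm c x z) * S.N x z) * (sm c x y * S.A x y)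
        + ((1 - sm c y z) * S.N y z) * (sm c y x * S.A y x)) := by
    intro z x y
    unfold T1
    rw [S.N_symm x z, S.N_symm y z, S.A_symm y x, sm_symm c y x, sm_symm c x z, sm_symm c y z]
    have key : sm c x y * (1 - sm c z x) = (1 - I c 0 z) * (I c 0 x * I c 0 y)
        + (1 - I c 1 z) * (I c 1 x * I c 1 y) + (1 - I c 2 z) * (I c 2 x * I c 2 y) := by
      unfold sm I
      generalize c x = i
      generalize c y = j
      generalize c z = k
      fin_cases i <;> fin_cases j <;> fin_cases k <;> simp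
    have key2 : sm c x y * (1 - sm c z x) = sm c x y * (1 - sm c z y) := by
      unfold sm
      by_cases h : c x = c y
      · rw [h]
      · simp [h]
    linear_combination (S.N z x + S.N z y - S.N z x * S.N z y) * key
      + (-(S.A x y * S.N z y)) * key2
  rw [S.E3_congr hsplit, S.E3_sub]
  have e1 : S.E3 (fun z x y =>
      ((1 - I c 0 z) * ((I c 0 x * S.N z x) * I c 0 y + I c 0 x * (I c 0 y * S.N z y)
          - (I c 0 x * S.N z x) * (I c 0 y * S.N z y))
      + (1 - I c 1 z) * ((I c 1 x * S.N z x) * I c 1 y + I c 1 x * (I c 1 y * S.N z y)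
          - (I c 1 x * S.N z x) * (I c 1 y * S.N z y))
      + (1 - I c 2 z) * ((I c 2 x * S.N z x) * I c 2 y + I c 2 x * (I c 2 y * S.N z y)
          - (I c 2 x * S.N z x) * (I c 2 y * S.N z y)))) = S.E (S.X1 c) := by
    unfold E3
    refine S.E_congr fun z => ?_
    have one : ∀ i : Fin 3, S.E (fun x => S.E fun y => (1 - I c i z) *
        ((I c i x * S.N z x) * I c i y + I c i x * (I c i y * S.N z y)
          - (I c i x * S.N z x) * (I c i y * S.N z y)))
        = (1 - I c i z) * (2 * S.a c i * S.n c i z - S.n c i z ^ 2) := by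
      intro i
      have h1 : ∀ x, (S.E fun y => (1 - I c i z) *
        ((I c i x * S.N z x) * I c i y + I c i x * (I c i y * S.N z y)
          - (I c i x * S.N z x) * (I c i y * S.N z y)))
          = (1 - I c i z) * ((I c i x * S.N z x) * S.a c i + I c i x * S.n c i z
            - (I c i x * S.N z x) * S.n c i z) := by
        intro x
        rw [S.E_mulL, S.E_sub, S.E_add, S.E_mulL, S.E_mulL, S.E_mulL]
        rfl
      simp_rw [h1]
      rw [S.E_mulL, S.E_sub, S.E_add, S.E_mulR, S.E_mulR, S.E_mulR]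
      have h2 : S.E (fun x => I c i x * S.N z x) = S.n c i z := rfl
      have h3 : S.E (fun x => I c i x) = S.a c i := rfl
      rw [h2, h3]
      ring
    unfold X1
    rw [← one 0, ← one 1, ← one 2, ← S.E_add, ← S.E_add]
    refine S.E_congr fun x => ?_
    rw [← S.E_add, ← S.E_add]
  have e2 : S.E3 (fun z x y => ((1 - sm c x z) * S.N x z) * (sm c x y * S.A x y))
      = S.E (fun v => S.p c v * S.q c v) := by
    rw [S.E3_swap12 (fun x z y => ((1 - sm c x z) * S.N x z) * (sm c x y * S.A x y))]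
    rw [S.E3_center (fun x z => (1 - sm c x z) * S.N x z) (fun x y => sm c x y * S.A x y)]
    refine S.E_congr fun v => ?_
    unfold p q
    ring
  have e3 : S.E3 (fun z x y => ((1 - sm c y z) * S.N y z) * (sm c y x * S.A y x))
      = S.E (fun v => S.p c v * S.q c v) := by
    rw [← e2]
    exact S.E3_swap23 (fun z x y => ((1 - sm c x z) * S.N x z) * (sm c x y * S.A x y))
  rw [e1, S.E3_add, e2, e3]
  ring

/-- The lower bound. -/
theorem star_raw : S.a c 0 ^ 3 + S.a c 1 ^ 3 + S.a c 2 ^ 3 - 3 * S.E (fun v => S.p c v ^ 2)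
    + 3 * S.E (S.X1 c) - 6 * S.E (fun v => S.p c v * S.q c v) + (S.e - 1 / 3 + 3 * S.G)
    + S.E3 S.X ≤ S.h := by
  rw [S.h_eq]
  have h1 : S.E3 (fun x y z => S.T0 c x y z + S.T1 c x y z + S.T1 c y x z + S.T1 c z x y)
      ≤ S.E3 S.le1 := S.E3_mono fun x y z => S.le1_ge c x y z
  rw [S.E3_add, S.E3_add, S.E3_add] at h1
  have t1 : S.E3 (fun x y z => S.T1 c y x z) = S.E3 (S.T1 c) := S.E3_swap12 (fun x y z => S.T1 c x y z)
  have t2 : S.E3 (fun x y z => S.T1 c z x y) = S.E3 (S.T1 c) := by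
    rw [← t1]
    exact S.E3_swap23 (fun x y z => S.T1 c y x z)
  have t0 : S.E3 (fun x y z => S.T0 c x y z) = S.E3 (S.T0 c) := rfl
  have t3 : S.E3 (fun x y z => S.T1 c x y z) = S.E3 (S.T1 c) := rfl
  rw [t0, t3, t1, t2, S.E3_T0, S.E3_T1] at h1
  linarith

end Sys

end Pool.Agent.H5.SF
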