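import Pool.Agent.H5SF.SLoc

/-!
# Pointwise bounds at an optimal weighting
-/

namespace Pool.Agent.H5.SF

open Finset

theorem hn_aux1 (Ai Aj Ak : ℝ) (h4 : Ai + Aj + Ak = 1)
    (hS2 : (Ai - 1 / 3) ^ 2 + (Aj - 1 / 3) ^ 2 + (Ak - 1 / 3) ^ 2 ≤ 0.019289)
    (ha : Aj < 0.2315) : 1 / 3 ≤ Ai := by
  by_contra hcc
  push Not at hcc
  have hAk : Ak - 1 / 3 = (1 / 3 - Ai) + (1 / 3 - Aj) := by linarith
  rw [hAk] at hS2
  have h1 : 0.1018 < 1 / 3 - Aj := by norm_num at ha ⊢; linarith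
  have h2 : 0 < 1 / 3 - Ai := by linarith
  have h3 : (1 / 3 - Aj) ^ 2 ≤ ((1 / 3 - Ai) + (1 / 3 - Aj)) ^ 2 :=
    pow_le_pow_left₀ (by norm_num at h1; linarith) (by linarith) 2
  have h5 : (0.1018 : ℝ) ^ 2 ≤ (1 / 3 - Aj) ^ 2 :=
    pow_le_pow_left₀ (by norm_num) h1.le 2
  have h6 : (Aj - 1 / 3) ^ 2 = (1 / 3 - Aj) ^ 2 := by ring
  have h7 := sq_nonneg (Ai - 1 / 3)
  rw [h6] at hS2
  norm_num at hS2 h5
  linarith

theorem hn_aux (xi xj xk Ai Aj Ak : ℝ)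
    (h1 : (xi + xj + xk - 1 / 3 + 1 / 64) ^ 2 + 2 * (xi * (Ai - xi) + xj * (Aj - xj)
      + xk * (Ak - xk)) ≤ 0.025425) (h4 : Ai + Aj + Ak = 1)
    (hS2 : (Ai - 1 / 3) ^ 2 + (Aj - 1 / 3) ^ 2 + (Ak - 1 / 3) ^ 2 ≤ 0.019289)
    (hp : Ai - xi ≤ 9 / 200) (hp0 : 0 ≤ Ai - xi) (ai : 0.2199 ≤ Ai) (aj : 0.2199 ≤ Aj)
    (ak : Ak ≤ 0.4468) (nk : 0 ≤ xk) (nk' : xk ≤ Ak) (nj' : xj ≤ Aj) (hc : 19 / 200 < xj) :
    False := by
  obtain ⟨u, hu⟩ : ∃ u, u = Ai - xi := ⟨_, rfl⟩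
  obtain ⟨y, hy⟩ : ∃ y, y = Aj - xj := ⟨_, rfl⟩
  have t3 : 0 ≤ xk * (Ak - xk) := mul_nonneg nk (by linarith)
  rw [← hu] at h1 hp hp0
  rw [← hy] at h1
  have hy0 : 0 ≤ y := by linarith
  obtain ⟨D, hD⟩ : ∃ D, D = xi + xj + xk - 1 / 3 + 1 / 64 := ⟨_, rfl⟩
  rw [← hD] at h1
  norm_num at h1 ai aj ak
  rcases le_or_gt y 0.09 with hy9 | hy9
  · norm_num at hy9
    have hDl : 0.2354 - (u + y) ≤ D := by
      rw [hD]
      norm_num
      linarith
    have hD0 : 0 ≤ 0.2354 - (u + y) := by norm_num; linarith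
    have hsq : (0.2354 - (u + y)) ^ 2 ≤ D ^ 2 := pow_le_pow_left₀ hD0 hDl 2
    have u1 : 0.1299 * u ≤ xi * u := mul_le_mul_of_nonneg_right (by norm_num; linarith) hp0
    have u2 : 0.1299 * y ≤ xj * y := mul_le_mul_of_nonneg_right (by norm_num; linarith) hy0
    have h5 : (0.2354 - (u + y)) ^ 2 + 2 * (0.1299 * u + 0.1299 * y) ≤ 0.025425 := by
      norm_num at hsq u1 u2 ⊢
      linarith
    have h6 := sq_nonneg (u + y - 0.1055)
    norm_num at h5 h6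
    nlinarith
  · have hy9' : 0.09 ≤ y := hy9.le
    norm_num at hy9
    have hprod : 0 ≤ (xj - 0.095) * (y - 0.09) := by
      apply mul_nonneg <;> norm_num <;> linarith
    have hxj : xj = Aj - y := by linarith
    rcases le_or_gt 0.2315 Aj with ha | ha
    · norm_num at ha
      have hpi : 0 ≤ xi * u := mul_nonneg (by linarith) hp0
      have hD2 := sq_nonneg D
      have hpr : xj * y ≤ 0.0127125 := by norm_num; linarith
      have : xj * y = (xj - 0.095) * (y - 0.09) + 0.09 * xj + 0.095 * y - 0.095 * 0.09 := by ring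
      norm_num at this hprod hpr
      linarith
    · have hAi := hn_aux1 Ai Aj Ak h4 hS2 ha
      have hDl : 0.1106 - u ≤ D := by
        rw [hD]
        norm_num
        linarith
      have hD0 : 0 ≤ 0.1106 - u := by norm_num; linarith
      have hsq : (0.1106 - u) ^ 2 ≤ D ^ 2 := pow_le_pow_left₀ hD0 hDl 2
      have u1 : 0.28 * u ≤ xi * u := mul_le_mul_of_nonneg_right (by norm_num; linarith) hp0
      have u2 : 0.095 * 0.09 ≤ xj * y := mul_le_mul (by norm_num; linarith) hy9'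
          (by norm_num) (by linarith)
      have h5 : (0.1106 - u) ^ 2 + 2 * (0.28 * u) + 0.0171 ≤ 0.025425 := by
        norm_num at hsq u1 u2 ⊢
        linarith
      have h6 : (0.1106 - u) ^ 2 = 0.01223236 - 0.2212 * u + u ^ 2 := by ring
      have h7 := sq_nonneg u
      rw [h6] at h5
      norm_num at h5
      linarith

theorem perm3 (f : Fin 3 → ℝ) {i j k : Fin 3} (hij : i ≠ j) (hik : i ≠ k) (hjk : j ≠ k) :
    f 0 + f 1 + f 2 = f i + f j + f k := by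
  revert hij hik hjk
  fin_cases i <;> fin_cases j <;> fin_cases k <;> intro h1 h2 h3 <;>
  first
  | exact absurd rfl h1
  | exact absurd rfl h2
  | exact absurd rfl h3
  | (simp only [Fin.zero_eta, Fin.mk_one, Fin.reduceFinMk] <;> ring)

theorem third : ∀ i j : Fin 3, i ≠ j → ∃ k, i ≠ k ∧ j ≠ k := by decide

namespace Sys

variable {V : Type*} [Fintype V] (S : Sys V) (c : V → Fin 3)

/-- The standing assumptions. -/
structure Good : Prop where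
  hh : S.h < 4 / 9
  hF : ∀ v, S.lk v = S.h
  hmin : ∀ c', S.E (S.p c) ≤ S.E (S.p c')

variable {S c}

theorem Good.s_lt (H : S.Good c) : 2 / 3 - S.e < 0.016289 := by
  have h1 := S.cert1
  have h2 := H.hh
  norm_num at h1 h2 ⊢
  linarith

theorem Good.G_lt (H : S.Good c) : S.G < 0.0003594 := by
  have h1 := S.cert2
  have h2 := H.hh
  have h3 := S.eta_nonneg
  have h4 := S.k4_nonneg
  norm_num at h1 h2 ⊢
  linarith

theorem Good.eta_k4 (H : S.Good c) : 2 * S.eta + S.k4 < 0.001917 := by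
  have h1 := S.cert2
  have h2 := H.hh
  have h3 := S.eta_nonneg
  have h4 := S.G_nonneg
  norm_num at h1 h2 ⊢
  linarith

theorem Good.P_nonneg (_ : S.Good c) : 0 ≤ S.E (S.p c) := S.E_nonneg fun v => S.p_nonneg c v

theorem Good.P_le (H : S.Good c) : S.E (S.p c) ≤ 0.003 := by
  have h1 := S.p_min c H.hmin
  have h2 := H.eta_k4
  have h3 := H.s_lt
  have h4 := H.P_nonneg
  norm_num at h2 h3 ⊢
  nlinarith

theorem Good.loc (H : S.Good c) (v : V) : (S.d0 v - 1 / 3 + 1 / 64) ^ 2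
    + 2 * (S.n c 0 v * (S.a c 0 - S.n c 0 v) + S.n c 1 v * (S.a c 1 - S.n c 1 v)
    + S.n c 2 v * (S.a c 2 - S.n c 2 v)) ≤ 0.025425 := by
  have h1 := S.loc H.hh v (H.hF v)
  have h2 := S.R_ge c v
  have h3 := H.G_lt
  have h4 := H.P_le
  norm_num at h1 h3 h4 ⊢
  linarith

theorem Good.hp (H : S.Good c) (v : V) : S.p c v ≤ 9 / 200 := by
  by_contra hc
  push Not at hc
  have h1 := H.loc v
  have h2 := S.d0_eq c v
  have l0 := S.local_opt c H.hmin v 0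
  have l1 := S.local_opt c H.hmin v 1
  have l2 := S.local_opt c H.hmin v 2
  have n0 := S.n_nonneg c 0 v
  have n1 := S.n_nonneg c 1 v
  have n2 := S.n_nonneg c 2 v
  have m0 : 9 / 200 * S.n c 0 v ≤ S.n c 0 v * (S.a c 0 - S.n c 0 v) := by nlinarith
  have m1 : 9 / 200 * S.n c 1 v ≤ S.n c 1 v * (S.a c 1 - S.n c 1 v) := by nlinarith
  have m2 : 9 / 200 * S.n c 2 v ≤ S.n c 2 v * (S.a c 2 - S.n c 2 v) := by nlinarith
  have h3 : (S.d0 v - 1 / 3 + 1 / 64) ^ 2 + 2 * (9 / 200 * S.d0 v) ≤ 0.025425 := by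
    rw [h2] at h1 ⊢
    linarith
  norm_num at h3
  nlinarith [sq_nonneg (S.d0 v - 0.2727)]

/-- Sum of the squares of the part deviations. -/
theorem Good.S2 (H : S.Good c) : (S.a c 0 - 1 / 3) ^ 2 + (S.a c 1 - 1 / 3) ^ 2
    + (S.a c 2 - 1 / 3) ^ 2 ≤ 0.016289 + S.E (S.p c) := by
  have h1 := S.e_eq c
  have h2 := H.s_lt
  have h3 : 0 ≤ S.E (S.q c) := S.E_nonneg fun v => S.q_nonneg c v
  have h4 := S.a_sum c
  norm_num at h2 ⊢
  nlinarith

theorem a_dev {B : ℝ} (h : (S.a c 0 - 1 / 3) ^ 2 + (S.a c 1 - 1 / 3) ^ 2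
    + (S.a c 2 - 1 / 3) ^ 2 ≤ B) (i : Fin 3) : (S.a c i - 1 / 3) ^ 2 ≤ 2 / 3 * B := by
  have h4 := S.a_sum c
  fin_cases i
  · change (S.a c 0 - 1 / 3) ^ 2 ≤ 2 / 3 * B
    have : S.a c 0 = 1 - S.a c 1 - S.a c 2 := by linarith
    rw [this] at h ⊢
    nlinarith [sq_nonneg (S.a c 1 - S.a c 2)]
  · change (S.a c 1 - 1 / 3) ^ 2 ≤ 2 / 3 * B
    have : S.a c 1 = 1 - S.a c 0 - S.a c 2 := by linarith
    rw [this] at h ⊢
    nlinarith [sq_nonneg (S.a c 0 - S.a c 2)]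
  · change (S.a c 2 - 1 / 3) ^ 2 ≤ 2 / 3 * B
    have : S.a c 2 = 1 - S.a c 0 - S.a c 1 := by linarith
    rw [this] at h ⊢
    nlinarith [sq_nonneg (S.a c 0 - S.a c 1)]

theorem Good.a_bd (H : S.Good c) (i : Fin 3) : 0.2199 ≤ S.a c i ∧ S.a c i ≤ 0.4468 := by
  have h1 := a_dev H.S2 i
  have h2 := H.P_le
  norm_num at h1 h2 ⊢
  constructor
  · by_contra hc
    push Not at hc
    nlinarith
  · by_contra hc
    push Not at hc
    nlinarith

theorem Good.hn (H : S.Good c) (v : V) (j : Fin 3) (hj : c v ≠ j) : S.n c j v ≤ 19 / 200 := by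
  by_contra hc
  push Not at hc
  obtain ⟨k, hik, hjk⟩ := third (c v) j hj
  have h1 := H.loc v
  have h2 := S.d0_eq c v
  have e1 := perm3 (fun i => S.n c i v * (S.a c i - S.n c i v)) hj hik hjk
  have e2 := perm3 (fun i => S.n c i v) hj hik hjk
  have e3 := perm3 (fun i => S.a c i) hj hik hjk
  have e4 := perm3 (fun i => (S.a c i - 1 / 3) ^ 2) hj hik hjk
  beta_reduce at e1 e2 e3 e4
  have h4 := S.a_sum c
  have hS2 := H.S2
  have hPle := H.P_le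
  rw [e1, h2, e2] at h1
  rw [e3] at h4
  rw [e4] at hS2
  have hp := H.hp v
  have hp0 := S.p_nonneg c v
  rw [S.p_eq] at hp hp0
  exact hn_aux _ _ _ _ _ _ h1 h4 (by norm_num at hS2 hPle ⊢; linarith) hp hp0 (H.a_bd (c v)).1
    (H.a_bd j).1 (H.a_bd k).2 (S.n_nonneg c k v) (S.n_le c k v) (S.n_le c j v) hc

end Sys

end Pool.Agent.H5.SF
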