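import Pool.Agent.H5SF.SPart

/-!
# The lower bound under pointwise control of the defects
-/

namespace Pool.Agent.H5.SF

open Finset

namespace Sys

variable {V : Type*} [Fintype V] (S : Sys V) (c : V → Fin 3)

/-- Weight of the non-adjacent pairs between parts `i` and `j`. -/
noncomputable def M (i j : Fin 3) : ℝ := S.E fun z => I c i z * S.n c j z

theorem M_symm (i j : Fin 3) : S.M c i j = S.M c j i := by
  unfold M n
  have h1 : ∀ i j : Fin 3, S.E (fun z => I c i z * S.E fun b => I c j b * S.N z b)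
      = S.E (fun z => S.E fun b => I c i z * (I c j b * S.N z b)) := by
    intro i j
    exact S.E_congr fun z => (S.E_mulL _ _).symm
  rw [h1, h1, S.E_comm]
  refine S.E_congr fun y => S.E_congr fun x => ?_
  rw [S.N_symm x y]
  ring

theorem M_nonneg (i j : Fin 3) : 0 ≤ S.M c i j :=
  S.E_nonneg fun z => mul_nonneg (I_nonneg c i z) (S.n_nonneg c j z)

theorem star (hp : ∀ v, S.p c v ≤ 9 / 200) (hn : ∀ v i, c v ≠ i → S.n c i v ≤ 19 / 200) :
    4 / 9 + 3 * ((S.a c 0 - 1 / 3) * (S.a c 1 - 1 / 3) * (S.a c 2 - 1 / 3)) + 3 * S.G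
      + 173 / 200 * S.E (S.p c) + S.M c 0 1 * (289 / 100 - 6 * S.a c 2)
      + S.M c 0 2 * (289 / 100 - 6 * S.a c 1) + S.M c 1 2 * (289 / 100 - 6 * S.a c 0)
      + S.E3 S.X ≤ S.h := by
  have h0 := S.star_raw c
  have h1 := S.e_eq c
  have h2 : S.E (fun v => S.p c v ^ 2) ≤ 9 / 200 * S.E (S.p c) := by
    rw [← S.E_mulL]
    refine S.E_mono fun v => ?_
    have := hp v
    have := S.p_nonneg c v
    nlinarith
  have h3 : S.E (fun v => (1 - I c 0 v) * S.n c 0 v * (6 * S.a c 0 - 311 / 200)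
      + (1 - I c 1 v) * S.n c 1 v * (6 * S.a c 1 - 311 / 200)
      + (1 - I c 2 v) * S.n c 2 v * (6 * S.a c 2 - 311 / 200))
      ≤ S.E (fun v => 3 * S.X1 c v - 6 * (S.p c v * S.q c v) - S.q c v) := by
    refine S.E_mono fun v => ?_
    rw [S.q_eq c v]
    unfold X1
    have hpv := hp v
    have hp0 := S.p_nonneg c v
    have one : ∀ i : Fin 3, (1 - I c i v) * S.n c i v * (6 * S.a c i - 311 / 200)
        ≤ 3 * ((1 - I c i v) * (2 * S.a c i * S.n c i v - S.n c i v ^ 2))
          - 6 * (S.p c v * ((1 - I c i v) * S.n c i v)) - (1 - I c i v) * S.n c i v := by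
      intro i
      by_cases h : c v = i
      · have : I c i v = 1 := by unfold I; rw [if_pos h]
        rw [this]
        norm_num
      · have : I c i v = 0 := by unfold I; rw [if_neg h]
        rw [this]
        have hn1 := hn v i h
        have hn0 := S.n_nonneg c i v
        nlinarith [mul_nonneg hn0 (by linarith : 0 ≤ 19 / 200 - S.n c i v),
          mul_nonneg hn0 (by linarith : 0 ≤ 9 / 200 - S.p c v)]
    have t0 := one 0
    have t1 := one 1
    have t2 := one 2
    linarith
  have h4 : S.E (fun v => 3 * S.X1 c v - 6 * (S.p c v * S.q c v) - S.q c v)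
      = 3 * S.E (S.X1 c) - 6 * S.E (fun v => S.p c v * S.q c v) - S.E (S.q c) := by
    rw [S.E_sub, S.E_sub, S.E_mulL, S.E_mulL]
  have h5 : S.E (fun v => (1 - I c 0 v) * S.n c 0 v * (6 * S.a c 0 - 311 / 200)
      + (1 - I c 1 v) * S.n c 1 v * (6 * S.a c 1 - 311 / 200)
      + (1 - I c 2 v) * S.n c 2 v * (6 * S.a c 2 - 311 / 200))
      = (S.M c 0 1 + S.M c 0 2) * (6 * S.a c 0 - 311 / 200)
      + (S.M c 0 1 + S.M c 1 2) * (6 * S.a c 1 - 311 / 200)
      + (S.M c 0 2 + S.M c 1 2) * (6 * S.a c 2 - 311 / 200) := by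
    rw [S.E_add, S.E_add, S.E_mulR, S.E_mulR, S.E_mulR]
    have k0 : S.E (fun v => (1 - I c 0 v) * S.n c 0 v) = S.M c 0 1 + S.M c 0 2 := by
      rw [S.M_symm c 0 1, S.M_symm c 0 2]
      unfold M
      rw [← S.E_add]
      refine S.E_congr fun v => ?_
      have := I_sum c v
      linear_combination (-S.n c 0 v) * this
    have k1 : S.E (fun v => (1 - I c 1 v) * S.n c 1 v) = S.M c 0 1 + S.M c 1 2 := by
      rw [S.M_symm c 1 2]
      unfold M
      rw [← S.E_add]
      refine S.E_congr fun v => ?_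
      have := I_sum c v
      linear_combination (-S.n c 1 v) * this
    have k2 : S.E (fun v => (1 - I c 2 v) * S.n c 2 v) = S.M c 0 2 + S.M c 1 2 := by
      unfold M
      rw [← S.E_add]
      refine S.E_congr fun v => ?_
      have := I_sum c v
      linear_combination (-S.n c 2 v) * this
    rw [k0, k1, k2]
  have ha := S.a_sum c
  have ha2 : S.a c 2 = 1 - S.a c 0 - S.a c 1 := by linarith
  rw [h5, h4] at h3
  rw [h1] at h0
  rw [ha2] at h0 h3 ⊢
  nlinarith

end Sys

end Pool.Agent.H5.SF
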